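import Pool.Agent.Lib.MP_a57f33_nt.RG.Stm3

/-!
# Project RG: piece chs
-/

namespace Pool.Agent.MP_a57f33_nt.RG

open Polynomial

private theorem chs_max {K : Type} (f : K → ℕ) [Nonempty K] (n : ℕ)
    (h : ∀ y, f y ≤ n) : ∃ x, ∀ y, f y ≤ f x := by
  have hne : (Set.range f).Nonempty := Set.range_nonempty f
  have hb : BddAbove (Set.range f) := ⟨n, by rintro _ ⟨y, rfl⟩; exact h y⟩
  obtain ⟨x, hx⟩ := Nat.sSup_mem hne hb
  exact ⟨x, fun y => by rw [hx]; exact le_csSup hb ⟨y, rfl⟩⟩

theorem p_chs : S_chs := by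
  intro K _ _ V _ _ _ a q h2 h1
  obtain ⟨x0, hx0⟩ := chs_max
    (fun y : K => Module.finrank K (LinearMap.ker (a + algebraMap K (Module.End K V) y)))
    (Module.finrank K V) (fun y => Submodule.finrank_le _)
  by_cases hq : q.eval (-x0) = 0
  · exact ⟨x0, hq, hx0⟩
  -- the kernel is contained in the range of `q(a)`
  have hle : LinearMap.ker (a + algebraMap K (Module.End K V) x0) ≤
      LinearMap.range (Polynomial.aeval a q) := by
    intro v hv
    by_cases hv0 : v = 0
    · rw [hv0]; exact Submodule.zero_mem _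
    have hav : a v = (-x0) • v := by
      have h3 : a v + x0 • v = 0 := by
        simpa [Module.algebraMap_end_apply] using hv
      rw [neg_smul]
      exact eq_neg_of_add_eq_zero_left h3
    have hev : a.HasEigenvector (-x0) v :=
      ⟨Module.End.mem_eigenspace_iff.2 hav, hv0⟩
    have h4 := Module.End.aeval_apply_of_hasEigenvector (p := q) hev
    refine ⟨(q.eval (-x0))⁻¹ • v, ?_⟩
    rw [map_smul, h4, smul_smul, inv_mul_cancel₀ hq, one_smul]
  have hm : Module.finrank K (LinearMap.ker (a + algebraMap K (Module.End K V) x0)) ≤ 1 := by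
    rw [← h1]
    exact Submodule.finrank_mono hle
  -- `q(a)` is not invertible
  have : Nontrivial V := Module.nontrivial_of_finrank_pos (R := K) (by omega)
  have hnu : (0 : K) ∈ spectrum K (Polynomial.aeval a q) := by
    rw [spectrum.zero_mem_iff]
    intro hu
    have hsurj : LinearMap.range (Polynomial.aeval a q) = ⊤ :=
      LinearMap.range_eq_top.2 ((Module.End.isUnit_iff _).1 hu).2
    rw [hsurj, finrank_top] at h1
    omega
  have hne : (spectrum K a).Nonempty := by
    obtain ⟨c, hc⟩ := Module.End.exists_eigenvalue a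
    exact ⟨c, Module.End.hasEigenvalue_iff_mem_spectrum.1 hc⟩
  rw [spectrum.map_polynomial_aeval_of_nonempty a q hne] at hnu
  obtain ⟨r, hr, hr0⟩ := hnu
  have hrv : a.HasEigenvalue r := Module.End.hasEigenvalue_iff_mem_spectrum.2 hr
  refine ⟨-r, by rw [neg_neg]; exact hr0, fun y => ?_⟩
  have hpos : 1 ≤ Module.finrank K
      (LinearMap.ker (a + algebraMap K (Module.End K V) (-r))) := by
    obtain ⟨v, hv⟩ := hrv.exists_hasEigenvector
    have hvk : v ∈ LinearMap.ker (a + algebraMap K (Module.End K V) (-r)) := by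
      rw [LinearMap.mem_ker, LinearMap.add_apply, Module.algebraMap_end_apply, neg_smul,
        hv.apply_eq_smul, add_neg_cancel]
    rw [Nat.one_le_iff_ne_zero]
    intro h0
    rw [Submodule.finrank_eq_zero] at h0
    rw [h0] at hvk
    exact hv.2 ((Submodule.mem_bot K).1 hvk)
  exact (hx0 y).trans (hm.trans hpos)

end Pool.Agent.MP_a57f33_nt.RG
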