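import Pool.Agent.Lib.MP_a57f33_nt.RG.Stm4

/-!
# Project RG (MP_a57f33_nt): from solutions to `dm₀` by dual numbers
-/

namespace Pool.Agent.MP_a57f33_nt.RG

open Pool.Agent.MP_a57f33_nt

section

variable {K : Type} [Field K]

/-- The series `∑ h_n ε z^n`. -/
private noncomputable def dmf_D (h : ℕ → K) : PowerSeries (DualNumber K) :=
  PowerSeries.mk fun n => h n • DualNumber.eps

private theorem dmf_D_mul (h h' : ℕ → K) : dmf_D h * dmf_D h' = 0 := by
  ext n : 1
  rw [PowerSeries.coeff_mul, map_zero]
  refine Finset.sum_eq_zero fun p _ => ?_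
  simp only [dmf_D, PowerSeries.coeff_mk]
  rw [smul_mul_smul_comm, DualNumber.eps_mul_eps, smul_zero]

private theorem dmf_D_add (h h' : ℕ → K) : dmf_D h + dmf_D h' = dmf_D (fun n => h n + h' n) := by
  ext n : 1
  simp only [dmf_D, map_add, PowerSeries.coeff_mk, add_smul]

private theorem dmf_C_mul (c : K) (h : ℕ → K) :
    PowerSeries.C (algebraMap K (DualNumber K) c) * dmf_D h = dmf_D (fun n => c * h n) := by
  ext n : 1
  rw [PowerSeries.coeff_C_mul]
  simp only [dmf_D, PowerSeries.coeff_mk]
  rw [← Algebra.smul_def, smul_smul]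

private theorem dmf_D_inj {h h' : ℕ → K} (e : dmf_D h = dmf_D h') (n : ℕ) : h n = h' n := by
  have e1 := congrArg (PowerSeries.coeff n) e
  simp only [dmf_D, PowerSeries.coeff_mk] at e1
  have e2 := congrArg TrivSqZeroExt.snd e1
  simpa using e2

/-- The coefficients of `γ`. -/
private theorem dmf_gs (g : ℕ → K) (t : K) :
    gs (fun n => if n = 0 then 1 else g n • (DualNumber.eps : DualNumber K)) t =
      1 + dmf_D (fun n => if n = 0 then 0 else g n * t ^ n) := by
  ext n : 1
  simp only [gs, dmf_D, map_add, PowerSeries.coeff_mk, PowerSeries.coeff_one]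
  by_cases hn : n = 0
  · subst hn
    simp
  · simp only [hn, if_false, zero_add]
    rw [smul_smul, mul_comm]

private theorem dmf_prod (g : ℕ → K) : ∀ l : List K,
    (l.map (gs (fun n => if n = 0 then 1 else g n • (DualNumber.eps : DualNumber K)))).prod =
      1 + dmf_D (fun n => if n = 0 then 0 else g n * (l.map (· ^ n)).sum)
  | [] => by
    have : dmf_D (fun n => if n = 0 then 0 else g n * (([] : List K).map (· ^ n)).sum) = 0 := by
      ext n : 1
      simp only [dmf_D, PowerSeries.coeff_mk, List.map_nil, List.sum_nil, mul_zero, ite_self,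
        zero_smul, map_zero]
    rw [this, List.map_nil, List.prod_nil, add_zero]
  | t :: l => by
    rw [List.map_cons, List.prod_cons, dmf_prod g l, dmf_gs g t]
    have : (1 + dmf_D (fun n => if n = 0 then 0 else g n * t ^ n)) *
        (1 + dmf_D (fun n => if n = 0 then 0 else g n * (l.map (· ^ n)).sum)) =
        1 + (dmf_D (fun n => if n = 0 then 0 else g n * t ^ n) +
          dmf_D (fun n => if n = 0 then 0 else g n * (l.map (· ^ n)).sum)) +
        dmf_D (fun n => if n = 0 then 0 else g n * t ^ n) *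
          dmf_D (fun n => if n = 0 then 0 else g n * (l.map (· ^ n)).sum) := by ring
    rw [this, dmf_D_mul, add_zero, dmf_D_add]
    congr 2
    funext n
    by_cases hn : n = 0
    · simp [hn]
    · simp only [hn, if_false, List.map_cons, List.sum_cons, mul_add]

end

private theorem dmf_SW_congr {M : Type} [AddCommMonoid M] : ∀ (n : ℕ) (f g : List Bool → M),
    (∀ w : List Bool, w.length = n → f w = g w) → BZ.SW n f = BZ.SW n g
  | 0, f, g, h => by simpa [BZ.SW] using h [] rfl
  | n + 1, f, g, h => by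
    rw [BZ.SW, BZ.SW, dmf_SW_congr n _ _ fun w hw => h (false :: w) (by simp [hw]),
      dmf_SW_congr n _ _ fun w hw => h (true :: w) (by simp [hw])]

private theorem dmf_SW_eps {K : Type} [Field K] : ∀ (n : ℕ) (f : List Bool → K),
    BZ.SW n (fun w => f w • (DualNumber.eps : DualNumber K)) =
      BZ.SW n f • (DualNumber.eps : DualNumber K)
  | 0, f => rfl
  | n + 1, f => by
    rw [BZ.SW, BZ.SW, dmf_SW_eps n (fun w => f (false :: w)),
      dmf_SW_eps n (fun w => f (true :: w)), add_smul]

theorem p_dmf (h_dua : S_dua) : S_dmf := by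
  intro K _ _ n A B e f α β H ψ hψ N hN
  have H1 := H _ _ (h_dua K ψ hψ)
  set g : ℕ → K := fun n => ((-1) ^ (n - 1) / (n : K)) *
    ((coeff ψ (List.replicate (n - 1) false ++ [true]) : ℚ) : K) with hg
  have e1 : (fun n : ℕ => if n = 0 then 1 else
      (((-1) ^ (n - 1) / (n : K)) *
        ((coeff ψ (List.replicate (n - 1) false ++ [true]) : ℚ) : K)) •
        (DualNumber.eps : DualNumber K)) =
      fun n => if n = 0 then 1 else g n • (DualNumber.eps : DualNumber K) := rfl
  rw [e1, dmf_prod, dmf_prod] at H1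
  set P : ℕ → K := fun N => BZ.SW N fun w =>
    (f ⬝ᵥ Matrix.mulVec (BZ.ev A B w) e) * ((coeff ψ w : ℚ) : K) with hP
  have e2 : FM A B e f (fun w => (if w = [] then 1 else 0) +
      ((coeff ψ w : ℚ) : K) • (DualNumber.eps : DualNumber K)) =
      PowerSeries.C (algebraMap K (DualNumber K) (f ⬝ᵥ e)) + dmf_D P := by
    ext m : 1
    simp only [FM, dmf_D, map_add, PowerSeries.coeff_mk, PowerSeries.coeff_C]
    by_cases hm : m = 0
    · subst hm
      simp only [BZ.SW, hP, if_true, smul_add, smul_smul]
      congr 1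
      simp [BZ.ev, Algebra.algebraMap_eq_smul_one]
    · simp only [hm, if_false, zero_add]
      rw [hP, ← dmf_SW_eps]
      refine dmf_SW_congr m _ _ fun w hw => ?_
      have hw0 : w ≠ [] := by
        rintro rfl
        exact hm hw.symm
      simp only [hw0, if_false, zero_add, smul_smul]
  rw [e2] at H1
  set Q : ℕ → K := fun n => if n = 0 then 0 else g n * (β.map (· ^ n)).sum with hQ
  set R : ℕ → K := fun n => if n = 0 then 0 else g n * (α.map (· ^ n)).sum with hR
  have e3 : (PowerSeries.C (algebraMap K (DualNumber K) (f ⬝ᵥ e)) + dmf_D P) * (1 + dmf_D Q) =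
      PowerSeries.C (algebraMap K (DualNumber K) (f ⬝ᵥ e)) + (dmf_D P +
        PowerSeries.C (algebraMap K (DualNumber K) (f ⬝ᵥ e)) * dmf_D Q) +
        dmf_D P * dmf_D Q := by ring
  rw [e3, dmf_D_mul, add_zero, mul_add, mul_one, dmf_C_mul, dmf_C_mul, dmf_D_add] at H1
  have H2 := dmf_D_inj (add_left_cancel H1) N
  have hN0 : N ≠ 0 := by omega
  simp only [hQ, hR, hN0, if_false] at H2
  show P N = (f ⬝ᵥ e) * g N * ((α.map (· ^ N)).sum - (β.map (· ^ N)).sum)
  linear_combination H2

end Pool.Agent.MP_a57f33_nt.RG
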