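import Pool.Agent.Lib.MP_a57f33_nt.RG.Stm

namespace Pool.Agent.MP_a57f33_nt.RG

open Pool.Agent.MP_a57f33_nt

theorem p_dmw : S_dmw := by
  intro K V U0 U1 W _ _ _ _ _ _ _ _ _ _ _ _ _ L hx
  set α : U0 × U1 →ₗ[K] V := L.p0.coprod L.p1 with hα
  set β : V →ₗ[K] U0 × U1 := L.r0.prod L.r1 with hβ
  have hT : L.a0 + L.a1 + algebraMap K (Module.End K V) L.x = α ∘ₗ β + L.x • LinearMap.id := by
    ext v
    simp [Lk.a0, Lk.a1, hα, hβ, Module.algebraMap_end_apply]
  rw [hT]
  set T : Module.End K V := α ∘ₗ β + L.x • LinearMap.id with hTd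
  have hM : L.al ∘ₗ L.be = β ∘ₗ α + L.x • LinearMap.id := L.eq
  set M : Module.End K (U0 × U1) := β ∘ₗ α + L.x • LinearMap.id with hMd
  have hTv : ∀ v, T v = α (β v) + L.x • v := fun v => by simp [hTd]
  have hMu : ∀ u, M u = β (α u) + L.x • u := fun u => by simp [hMd]
  have hMab : ∀ u, M u = L.al (L.be u) := fun u => by rw [← hM]; rfl
  -- the kernels
  have hk1 : ∀ u ∈ LinearMap.ker M, α u ∈ LinearMap.ker T := by
    intro u hu
    rw [LinearMap.mem_ker] at hu ⊢
    rw [hTv, ← map_smul, ← map_add, ← hMu, hu, map_zero]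
  have hk2 : ∀ v ∈ LinearMap.ker T, β v ∈ LinearMap.ker M := by
    intro v hv
    rw [LinearMap.mem_ker] at hv ⊢
    rw [hMu, ← map_smul, ← map_add, ← hTv, hv, map_zero]
  have hf1 : Module.finrank K (LinearMap.ker M) ≤ Module.finrank K (LinearMap.ker T) := by
    apply LinearMap.finrank_le_finrank_of_injective (f := α.restrict hk1)
    intro u u' h
    have h1 : α (u : U0 × U1) = α (u' : U0 × U1) := congrArg Subtype.val h
    have h2 : α ((u : U0 × U1) - u') = 0 := by rw [map_sub, h1, sub_self]
    have h3 : M ((u : U0 × U1) - u') = 0 := by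
      rw [map_sub, LinearMap.mem_ker.mp u.2, LinearMap.mem_ker.mp u'.2, sub_self]
    rw [hMu, h2, map_zero, zero_add] at h3
    rcases smul_eq_zero.mp h3 with h4 | h4
    · exact absurd h4 hx
    · exact Subtype.ext (sub_eq_zero.mp h4)
  have hf2 : Module.finrank K (LinearMap.ker T) ≤ Module.finrank K (LinearMap.ker M) := by
    apply LinearMap.finrank_le_finrank_of_injective (f := β.restrict hk2)
    intro u u' h
    have h1 : β (u : V) = β (u' : V) := congrArg Subtype.val h
    have h2 : β ((u : V) - u') = 0 := by rw [map_sub, h1, sub_self]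
    have h3 : T ((u : V) - u') = 0 := by
      rw [map_sub, LinearMap.mem_ker.mp u.2, LinearMap.mem_ker.mp u'.2, sub_self]
    rw [hTv, h2, map_zero, zero_add] at h3
    rcases smul_eq_zero.mp h3 with h4 | h4
    · exact absurd h4 hx
    · exact Subtype.ext (sub_eq_zero.mp h4)
  have hrT := LinearMap.finrank_range_add_finrank_ker T
  have hrM := LinearMap.finrank_range_add_finrank_ker M
  rw [Module.finrank_prod] at hrM
  have hMr : LinearMap.range M = LinearMap.range L.al := by
    ext u
    simp only [LinearMap.mem_range]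
    constructor
    · rintro ⟨y, rfl⟩
      exact ⟨L.be y, (hMab y).symm⟩
    · rintro ⟨y, rfl⟩
      obtain ⟨z, rfl⟩ := L.hbe y
      exact ⟨z, hMab z⟩
  have hal : Module.finrank K (LinearMap.range L.al) = Module.finrank K W :=
    LinearMap.finrank_range_of_inj L.hal
  rw [hMr, hal] at hrM
  refine ⟨by omega, LinearMap.finrank_le_finrank_of_injective L.hp0,
    LinearMap.finrank_le_finrank_of_injective L.hp1,
    LinearMap.finrank_le_finrank_of_injective L.hj0,
    LinearMap.finrank_le_finrank_of_injective L.hj1, Submodule.finrank_le _, ?_⟩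
  have hk3 : ∀ v ∈ LinearMap.range T, β v ∈ LinearMap.range L.al := by
    rintro _ ⟨v, rfl⟩
    refine ⟨L.be (β v), ?_⟩
    rw [← hMab, hMu, hTv, map_add, map_smul]
  rw [← hal]
  apply LinearMap.finrank_le_finrank_of_injective (f := β.restrict hk3)
  intro u u' h
  have h1 : β (u : V) = β (u' : V) := congrArg Subtype.val h
  exact Subtype.ext (L.hr h1)

end Pool.Agent.MP_a57f33_nt.RG
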