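import Pool.Agent.Lib.MP_a57f33_nt.RG.Stm3
import Pool.Agent.Lib.MP_a57f33_nt.Bridge
import Pool.Agent.Lib.MP_a57f33_nt.CycLie

/-!
Piece [dua]: an element of `dm₀` gives a solution of the regularised double shuffle relations over
the dual numbers.
-/

namespace Pool.Agent.MP_a57f33_nt.RG

open Pool.Agent.MP_a57f33_nt

section

variable {K : Type} [Field K] [CharZero K]

/-- The infinitesimal function `a ↦ (c a) ε`. -/
private noncomputable def duaE (c : ℚ) : DualNumber K := (c : K) • DualNumber.eps

private lemma duaE_mul (c d : ℚ) : (duaE c : DualNumber K) * duaE d = 0 := by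
  unfold duaE
  rw [smul_mul_smul_comm, DualNumber.eps_mul_eps, smul_zero]

private lemma duaE_zero : (duaE 0 : DualNumber K) = 0 := by
  simp [duaE]

private lemma duaE_add (c d : ℚ) : (duaE (c + d) : DualNumber K) = duaE c + duaE d := by
  unfold duaE
  rw [Rat.cast_add, add_smul]

private noncomputable def duaZ (ψ : QX) (w : List Bool) : DualNumber K :=
  (if w = [] then 1 else 0) + duaE (coeff ψ w)

private noncomputable def duaG (ψ : QX) (n : ℕ) : DualNumber K :=
  if n = 0 then 1 else
    duaE (((-1) ^ (n - 1) / (n : ℚ)) * coeff ψ (List.replicate (n - 1) false ++ [true]))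

private lemma dua_sum {α : Type} (c : List α → ℚ) (F : List α → DualNumber K)
    (hF : ∀ t : List α, t ≠ [] → F t = duaE (c t)) (l : List (List α))
    (hl : ∀ t ∈ l, t ≠ []) : (l.map F).sum = duaE ((l.map c).sum) := by
  induction l with
  | nil => simp [duaE_zero]
  | cons t l ih =>
    rw [List.map_cons, List.sum_cons, List.map_cons, List.sum_cons, duaE_add,
      ih (fun s hs => hl s (List.mem_cons_of_mem _ hs)), hF t (hl t List.mem_cons_self)]

private lemma dua_shuffle_ne {α : Type} (u v : List α) :
    u ≠ [] ∨ v ≠ [] → ∀ t ∈ Cyc.shuffle u v, t ≠ [] := by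
  induction u, v using Cyc.shuffle.induct with
  | case1 v =>
    intro h t ht
    rw [Cyc.shuffle, List.mem_singleton] at ht
    subst ht
    simpa using h
  | case2 a u =>
    intro _ t ht
    rw [Cyc.shuffle, List.mem_singleton] at ht
    subst ht
    simp
  | case3 a u b v h1 h2 =>
    intro _ t ht
    rw [Cyc.shuffle] at ht
    simp only [List.mem_append, List.mem_map] at ht
    rcases ht with ⟨s, _, rfl⟩ | ⟨s, _, rfl⟩ <;> simp

private lemma dua_stuffle_ne (u v : List ℕ+) :
    u ≠ [] ∨ v ≠ [] → ∀ t ∈ Cyc.stuffle u v, t ≠ [] := by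
  induction u, v using Cyc.stuffle.induct with
  | case1 v =>
    intro h t ht
    rw [Cyc.stuffle, List.mem_singleton] at ht
    subst ht
    simpa using h
  | case2 a u =>
    intro _ t ht
    rw [Cyc.stuffle, List.mem_singleton] at ht
    subst ht
    simp
  | case3 a u b v h1 h2 h3 =>
    intro _ t ht
    rw [Cyc.stuffle] at ht
    simp only [List.mem_append, List.mem_map] at ht
    rcases ht with (⟨s, _, rfl⟩ | ⟨s, _, rfl⟩) | ⟨s, _, rfl⟩ <;> simp

private lemma dua_stuffle (u v : List ℕ+) : Cyc.stuffle u v = stuffle u v := by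
  induction u, v using Cyc.stuffle.induct with
  | case1 v => simp [Cyc.stuffle, stuffle]
  | case2 a u => simp [Cyc.stuffle, stuffle]
  | case3 a u b v h1 h2 h3 =>
    rw [Cyc.stuffle, stuffle, h1, h2, h3]

private lemma dua_toX_ne {u : List ℕ+} (h : u ≠ []) : toX u ≠ [] := by
  cases u with
  | nil => exact absurd rfl h
  | cons a u => simp [toX]

private lemma dua_Z_nil {ψ : QX} (h0 : coeff ψ [] = 0) : (duaZ ψ [] : DualNumber K) = 1 := by
  simp [duaZ, h0, duaE_zero]

private lemma dua_Z_ne (ψ : QX) {w : List Bool} (h : w ≠ []) :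
    (duaZ ψ w : DualNumber K) = duaE (coeff ψ w) := by
  simp [duaZ, h]

private lemma dua_G_succ (ψ : QX) (n : ℕ) : (duaG ψ (n + 1) : DualNumber K) =
    duaE (((-1) ^ n / ((n : ℚ) + 1)) * coeff ψ (List.replicate n false ++ [true])) := by
  simp [duaG]

private lemma dua_star {ψ : QX} (h0 : coeff ψ [] = 0) (h1 : coeff ψ [true] = 0)
    (u : List ℕ+) : (Cyc.star (duaG ψ) (duaZ ψ) u : DualNumber K) =
      (if u = [] then 1 else 0) + duaE (starCoeff ψ u) := by
  cases u with
  | nil =>
    have e : starCoeff ψ [] = 0 := by simp [starCoeff, toX, h0]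
    rw [e, duaE_zero]
    simp [Cyc.star, duaG, toX, dua_Z_nil h0]
  | cons b v =>
    unfold Cyc.star
    rw [List.length_cons, Finset.sum_range_succ', Finset.sum_range_succ]
    have hz : ∑ i ∈ Finset.range v.length,
        (if (b :: v).take (i + 1) = List.replicate (i + 1) 1 then
          (duaG ψ (i + 1) : DualNumber K) * duaZ ψ (toX ((b :: v).drop (i + 1))) else 0) = 0 := by
      apply Finset.sum_eq_zero
      intro i hi
      rw [Finset.mem_range] at hi
      have hne : (b :: v).drop (i + 1) ≠ [] := by
        intro e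
        rw [List.drop_eq_nil_iff] at e
        simp at e
        omega
      rw [dua_Z_ne ψ (dua_toX_ne hne), dua_G_succ, duaE_mul]
      simp
    rw [hz]
    have h2 : (b :: v).take (v.length + 1) = b :: v := by
      rw [List.take_of_length_le]
      simp
    have h3 : (b :: v).drop (v.length + 1) = [] := by
      rw [List.drop_eq_nil_iff]
      simp
    rw [h2, h3]
    have h4 : (toX ([] : List ℕ+)) = [] := rfl
    rw [h4, dua_Z_nil h0, mul_one, dua_G_succ]
    simp only [List.take_zero, List.replicate_zero, if_true, List.drop_zero]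
    have h5 : (duaG ψ 0 : DualNumber K) = 1 := by simp [duaG]
    rw [h5, one_mul, dua_Z_ne ψ (dua_toX_ne (by simp : b :: v ≠ [])), starCoeff, duaE_add]
    simp only [List.length_cons, zero_add, reduceCtorEq, if_false, Nat.add_sub_cancel]
    rw [add_comm]
    congr 1
    by_cases hr : b :: v = List.replicate (v.length + 1) 1
    · rw [if_pos hr]
      by_cases hv : 2 ≤ v.length + 1
      · rw [if_pos ⟨hv, hr⟩]
        push_cast
        rfl
      · have hv0 : v.length = 0 := by omega
        rw [if_neg (fun h => hv h.1), hv0]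
        simp [h1, duaE_zero]
    · rw [if_neg hr, if_neg (fun h => hr h.2), duaE_zero]

private lemma dua_main (ψ : QX) (h : ψ ∈ dm0) :
    Cyc.RegDS (k := DualNumber K) (duaG ψ) (duaZ ψ) := by
  have hp := Cyc.lie_prim h.1
  have h0 : coeff ψ [] = 0 := hp.1
  have hf : coeff ψ [false] = 0 := h.2.1
  have ht : coeff ψ [true] = 0 := h.2.2.1
  refine ⟨dua_Z_nil h0, ?_, ?_, ?_, ?_, ?_, ?_⟩
  · rw [dua_Z_ne ψ (by simp), hf, duaE_zero]
  · rw [dua_Z_ne ψ (by simp), ht, duaE_zero]
  · intro u v
    by_cases hu : u = []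
    · subst hu
      rw [Cyc.shuffle, dua_Z_nil h0]
      simp
    · by_cases hv : v = []
      · subst hv
        obtain ⟨a, u, rfl⟩ := List.exists_cons_of_ne_nil hu
        rw [Cyc.shuffle, dua_Z_nil h0]
        simp
      · rw [dua_Z_ne ψ hu, dua_Z_ne ψ hv, duaE_mul,
          dua_sum (coeff ψ) _ (fun t ht => dua_Z_ne ψ ht) _ (dua_shuffle_ne u v (Or.inl hu))]
        have h3 : ((Cyc.shuffle u v).map (coeff ψ)).sum = 0 := hp.2 u v hu hv
        rw [h3, duaE_zero]
  · simp [duaG]
  · intro n
    rw [Finset.sum_eq_single ((0, n) : ℕ × ℕ)]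
    · have h5 : (duaG ψ 0 : DualNumber K) = 1 := by simp [duaG]
      rw [h5, one_mul, dua_G_succ, dua_Z_ne ψ (by simp)]
      unfold duaE
      have h6 : ((n : DualNumber K) + 1) = algebraMap K (DualNumber K) ((n : K) + 1) := by
        rw [map_add, map_natCast, map_one]
      have h7 : ((-1 : DualNumber K) ^ n) = algebraMap K (DualNumber K) ((-1) ^ n) := by
        rw [map_pow, map_neg, map_one]
      dsimp only
      rw [h6, h7, ← Algebra.smul_def, ← Algebra.smul_def, smul_smul, smul_smul]
      congr 1
      have hn : ((n : K) + 1) ≠ 0 := by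
        exact_mod_cast Nat.succ_ne_zero n
      push_cast
      field_simp
    · rintro ⟨i, j⟩ hij hne
      have hi : i ≠ 0 := by
        rintro rfl
        rw [Finset.HasAntidiagonal.mem_antidiagonal] at hij
        apply hne
        simp at hij
        rw [hij]
      obtain ⟨i, rfl⟩ := Nat.exists_eq_succ_of_ne_zero hi
      dsimp only
      rw [Nat.succ_eq_add_one, dua_G_succ, dua_Z_ne ψ (by simp), mul_left_comm, duaE_mul, mul_zero]
    · intro hn
      exact absurd (by simp) hn
  · intro u v
    by_cases hu : u = []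
    · subst hu
      rw [Cyc.stuffle, dua_star h0 ht []]
      have e : starCoeff ψ [] = 0 := by simp [starCoeff, toX, h0]
      rw [e, duaE_zero]
      simp
    · by_cases hv : v = []
      · subst hv
        obtain ⟨a, u, rfl⟩ := List.exists_cons_of_ne_nil hu
        rw [Cyc.stuffle, dua_star h0 ht []]
        have e : starCoeff ψ [] = 0 := by simp [starCoeff, toX, h0]
        rw [e, duaE_zero]
        simp
      · have hs : ∀ t : List ℕ+, t ≠ [] →
            (Cyc.star (duaG ψ) (duaZ ψ) t : DualNumber K) = duaE (starCoeff ψ t) := by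
          intro t hne
          rw [dua_star h0 ht, if_neg hne, zero_add]
        rw [hs u hu, hs v hv, duaE_mul,
          dua_sum (starCoeff ψ) _ hs _ (dua_stuffle_ne u v (Or.inl hu)), dua_stuffle,
          dm0_stuffle h hu hv, duaE_zero]

end

theorem p_dua : S_dua := by
  intro K _ _ ψ h
  have h1 := dua_main (K := K) ψ h
  have h2 : (duaG ψ : ℕ → DualNumber K) = fun n : ℕ => if n = 0 then 1 else
      (((-1) ^ (n - 1) / (n : K)) * ((coeff ψ (List.replicate (n - 1) false ++ [true]) : ℚ) : K)) •
        DualNumber.eps := by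
    funext n
    unfold duaG duaE
    split_ifs with h0
    · rfl
    · push_cast
      rfl
  rw [h2] at h1
  exact h1

end Pool.Agent.MP_a57f33_nt.RG
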