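import Pool.Agent.Lib.MP_a57f33_nt.RG.Stm3

/-!
# Project RG, piece efb
-/

namespace Pool.Agent.MP_a57f33_nt.RG

open Pool.Agent.MP_a57f33_nt

/-- `q(p r) p = p q(r p)`. -/
private theorem efb_comm {K V U : Type} [Field K] [AddCommGroup V] [Module K V]
    [AddCommGroup U] [Module K U] (p : U →ₗ[K] V) (r : V →ₗ[K] U) (q : Polynomial K) :
    (Polynomial.aeval (p ∘ₗ r : Module.End K V) q : V →ₗ[K] V) ∘ₗ p =
      p ∘ₗ (Polynomial.aeval (r ∘ₗ p : Module.End K U) q : U →ₗ[K] U) := by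
  induction q using Polynomial.induction_on with
  | C a =>
    ext u
    simp [Module.algebraMap_end_apply]
  | add f g hf hg =>
    rw [map_add, map_add, LinearMap.add_comp, LinearMap.comp_add, hf, hg]
  | monomial n a h =>
    rw [pow_succ, ← mul_assoc]
    generalize Polynomial.C a * Polynomial.X ^ n = t at h
    rw [map_mul, map_mul, Polynomial.aeval_X, Polynomial.aeval_X,
      Module.End.mul_eq_comp, Module.End.mul_eq_comp]
    calc ((Polynomial.aeval (p ∘ₗ r : Module.End K V) t : V →ₗ[K] V) ∘ₗ (p ∘ₗ r)) ∘ₗ p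
        = ((Polynomial.aeval (p ∘ₗ r : Module.End K V) t : V →ₗ[K] V) ∘ₗ p) ∘ₗ (r ∘ₗ p) := rfl
      _ = _ := by rw [h]; rfl

/-- `(q X)(p r) = p q(r p) r`. -/
private theorem efb_mulX {K V U : Type} [Field K] [AddCommGroup V] [Module K V]
    [AddCommGroup U] [Module K U] (p : U →ₗ[K] V) (r : V →ₗ[K] U) (q : Polynomial K) :
    (Polynomial.aeval (p ∘ₗ r : Module.End K V) (q * Polynomial.X) : V →ₗ[K] V) =
      p ∘ₗ (Polynomial.aeval (r ∘ₗ p : Module.End K U) q : U →ₗ[K] U) ∘ₗ r := by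
  rw [map_mul, Polynomial.aeval_X, Module.End.mul_eq_comp, ← LinearMap.comp_assoc,
    ← LinearMap.comp_assoc, efb_comm]

/-- If `ker f ≤ ker g` for functionals then `g` is a multiple of `f`. -/
private theorem efb_mul {K U : Type} [Field K] [AddCommGroup U] [Module K U]
    (f g : U →ₗ[K] K) (h : ∀ x, f x = 0 → g x = 0) : ∃ nu : K, g = nu • f := by
  by_cases hf : f = 0
  · refine ⟨0, ?_⟩
    ext x
    simp [h x (by simp [hf])]
  · obtain ⟨u, hu⟩ : ∃ u, f u ≠ 0 := by
      by_contra hcon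
      push Not at hcon
      exact hf (LinearMap.ext hcon)
    refine ⟨g u / f u, ?_⟩
    ext x
    have h1 : f (x - (f x / f u) • u) = 0 := by
      rw [map_sub, map_smul, smul_eq_mul, div_mul_cancel₀ _ hu, sub_self]
    have h2 := h _ h1
    rw [map_sub, map_smul, smul_eq_mul, sub_eq_zero] at h2
    rw [h2, LinearMap.smul_apply, smul_eq_mul]
    ring

/-- A functional vanishing on the kernel of a surjection factors. -/
private theorem efb_fac {K V U : Type} [Field K] [AddCommGroup V] [Module K V]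
    [AddCommGroup U] [Module K U] (r : V →ₗ[K] U) (hr : Function.Surjective r)
    (η : V →ₗ[K] K) (h : ∀ x, r x = 0 → η x = 0) : ∃ ζ : U →ₗ[K] K, ζ ∘ₗ r = η := by
  obtain ⟨s, hs⟩ := r.exists_rightInverse_of_surjective (LinearMap.range_eq_top.2 hr)
  refine ⟨η ∘ₗ s, ?_⟩
  ext x
  have h1 : r (s (r x) - x) = 0 := by
    rw [map_sub]
    have := LinearMap.congr_fun hs (r x)
    simp only [LinearMap.comp_apply, LinearMap.id_apply] at this
    rw [this, sub_self]
  have h2 := h _ h1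
  rw [map_sub, sub_eq_zero] at h2
  simpa using h2

/-- [efb] -/
theorem p_efb : S_efb := by
  intro K V U0 U1 W _ _ _ _ _ _ _ _ _ L η q hη hker hq0
  obtain ⟨q1, rfl⟩ : ∃ q1 : Polynomial K, q = q1 * Polynomial.X := by
    have : Polynomial.X ∣ q := by
      rw [Polynomial.X_dvd_iff, Polynomial.coeff_zero_eq_eval_zero]
      exact hq0
    obtain ⟨c, hc⟩ := this
    exact ⟨c, by rw [hc, mul_comm]⟩
  have hA : (Polynomial.aeval L.a1 (q1 * Polynomial.X) : V →ₗ[K] V) =
      L.p1 ∘ₗ (Polynomial.aeval (L.r1 ∘ₗ L.p1 : Module.End K U1) q1 : U1 →ₗ[K] U1) ∘ₗ L.r1 :=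
    efb_mulX L.p1 L.r1 q1
  set Q : Module.End K U1 := Polynomial.aeval (L.r1 ∘ₗ L.p1 : Module.End K U1) q1 with hQ
  -- the kernel of `η`
  have hkη : ∀ x : V, η x = 0 ↔ Q (L.r1 x) = 0 := by
    intro x
    have h1 : x ∈ LinearMap.ker (Polynomial.aeval L.a1 (q1 * Polynomial.X)) ↔ η x = 0 := by
      rw [hker, LinearMap.mem_ker]
    rw [← h1, LinearMap.mem_ker]
    have h2 : (Polynomial.aeval L.a1 (q1 * Polynomial.X)) x = L.p1 (Q (L.r1 x)) := by
      have := LinearMap.congr_fun hA x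
      simpa using this
    rw [h2]
    constructor
    · intro h
      exact L.hp1 (by rw [h, map_zero])
    · intro h
      rw [h, map_zero]
  obtain ⟨ζ, hζ⟩ := efb_fac L.r1 L.hr1 η (fun x hx => (hkη x).2 (by rw [hx, map_zero]))
  have hζx : ∀ x : V, ζ (L.r1 x) = η x := fun x => LinearMap.congr_fun hζ x
  have hkζ : ∀ y : U1, ζ y = 0 ↔ Q y = 0 := by
    intro y
    obtain ⟨x, rfl⟩ := L.hr1 y
    rw [hζx]
    exact hkη x
  have hcomm : ∀ y : U1, Q (L.r1 (L.p1 y)) = L.r1 (L.p1 (Q y)) := by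
    intro y
    have h1 : Q * (L.r1 ∘ₗ L.p1 : Module.End K U1) = (L.r1 ∘ₗ L.p1 : Module.End K U1) * Q := by
      have h2 : (Polynomial.aeval (L.r1 ∘ₗ L.p1 : Module.End K U1)) (q1 * Polynomial.X) =
          (Polynomial.aeval (L.r1 ∘ₗ L.p1 : Module.End K U1)) (Polynomial.X * q1) := by
        rw [mul_comm]
      rw [map_mul, map_mul, Polynomial.aeval_X] at h2
      exact h2
    exact LinearMap.congr_fun h1 y
  obtain ⟨nu, hnu⟩ := efb_mul ζ (ζ ∘ₗ L.r1 ∘ₗ L.p1) (fun y hy => by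
    rw [hkζ] at hy
    change ζ (L.r1 (L.p1 y)) = 0
    rw [hkζ, hcomm, hy, map_zero, map_zero])
  refine ⟨ζ, nu, hζ, hnu, ?_, (q1.comp (Polynomial.X - Polynomial.C L.x)) * Polynomial.X, ?_⟩
  · intro hz
    apply hη
    rw [← hζ]
    ext x
    obtain ⟨w, hw⟩ := L.hs1 (L.r1 x)
    have h1 := LinearMap.congr_fun hz w
    simp only [LinearMap.comp_apply, LinearMap.zero_apply] at h1 hw ⊢
    rw [← hw]
    exact h1
  · -- the pair `(j1, s1)`
    have hsj : ((LinearMap.snd K U0 U1 ∘ₗ L.al) ∘ₗ (L.be ∘ₗ LinearMap.inr K U0 U1) :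
        U1 →ₗ[K] U1) = L.r1 ∘ₗ L.p1 + L.x • LinearMap.id := by
      ext y
      have h1 := LinearMap.congr_fun L.eq (LinearMap.inr K U0 U1 y)
      have h2 := congrArg Prod.snd h1
      simpa using h2
    have hB : (Polynomial.aeval L.b1 ((q1.comp (Polynomial.X - Polynomial.C L.x)) *
        Polynomial.X) : W →ₗ[K] W) =
        (L.be ∘ₗ LinearMap.inr K U0 U1) ∘ₗ Q ∘ₗ (LinearMap.snd K U0 U1 ∘ₗ L.al) := by
      have h1 := efb_mulX (L.be ∘ₗ LinearMap.inr K U0 U1) (LinearMap.snd K U0 U1 ∘ₗ L.al)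
        (q1.comp (Polynomial.X - Polynomial.C L.x))
      have h2 : (Polynomial.aeval ((LinearMap.snd K U0 U1 ∘ₗ L.al) ∘ₗ
          (L.be ∘ₗ LinearMap.inr K U0 U1) : Module.End K U1)
          (q1.comp (Polynomial.X - Polynomial.C L.x))) = Q := by
        rw [Polynomial.aeval_comp, map_sub, Polynomial.aeval_X, Polynomial.aeval_C, hsj, hQ]
        congr 1
        rw [Algebra.algebraMap_eq_smul_one]
        exact congrArg Polynomial.aeval (add_sub_cancel_right (L.r1 ∘ₗ L.p1 : Module.End K U1)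
          (L.x • (1 : Module.End K U1)))
      rw [h2] at h1
      exact h1
    ext w
    have hBw : (Polynomial.aeval L.b1 ((q1.comp (Polynomial.X - Polynomial.C L.x)) *
        Polynomial.X)) w =
        (L.be ∘ₗ LinearMap.inr K U0 U1) (Q ((LinearMap.snd K U0 U1 ∘ₗ L.al) w)) := by
      have := LinearMap.congr_fun hB w
      exact this
    rw [LinearMap.mem_ker, LinearMap.mem_ker, hBw]
    have h3 : (ζ ∘ₗ LinearMap.snd K U0 U1 ∘ₗ L.al) w = ζ ((LinearMap.snd K U0 U1 ∘ₗ L.al) w) := rfl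
    rw [h3, hkζ]
    constructor
    · intro h
      exact L.hj1 (by rw [h, map_zero])
    · intro h
      rw [h, map_zero]

end Pool.Agent.MP_a57f33_nt.RG
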