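import Pool.Agent.Lib.MP_a57f33_nt.RG.Stm3

/-!
# Project RG: piece evb
-/

namespace Pool.Agent.MP_a57f33_nt.RG

open Polynomial

private theorem evb_aeval {K V U : Type} [Field K] [AddCommGroup V] [Module K V]
    [AddCommGroup U] [Module K U] (ι : U →ₗ[K] V) (ρ : V →ₗ[K] U) (q : Polynomial K) (u : U) :
    Polynomial.aeval (R := K) (A := Module.End K V) (ι ∘ₗ ρ) q (ι u) =
      ι (Polynomial.aeval (R := K) (A := Module.End K U) (ρ ∘ₗ ι) q u) := by
  induction q using Polynomial.induction_on' generalizing u with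
  | add p q hp hq => simp only [map_add, LinearMap.add_apply, hp, hq]
  | monomial n c =>
    have hpow : ∀ (n : ℕ) (u : U), ((ι ∘ₗ ρ : Module.End K V) ^ n) (ι u) =
        ι (((ρ ∘ₗ ι : Module.End K U) ^ n) u) := by
      intro n
      induction n with
      | zero => intro u; simp
      | succ n ih =>
        intro u
        rw [pow_succ, pow_succ, Module.End.mul_apply, Module.End.mul_apply]
        simp only [LinearMap.comp_apply]
        exact ih (ρ (ι u))
    simp only [Polynomial.aeval_monomial, Module.End.mul_apply, hpow,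
      Module.algebraMap_end_apply, map_smul]

private theorem evb_aevalX {K V U : Type} [Field K] [AddCommGroup V] [Module K V]
    [AddCommGroup U] [Module K U] (ι : U →ₗ[K] V) (ρ : V →ₗ[K] U) (q : Polynomial K) (v : V) :
    Polynomial.aeval (R := K) (A := Module.End K V) (ι ∘ₗ ρ) (q * X) v =
      ι (Polynomial.aeval (R := K) (A := Module.End K U) (ρ ∘ₗ ι) q (ρ v)) := by
  rw [map_mul, Polynomial.aeval_X, Module.End.mul_apply]
  exact evb_aeval ι ρ q (ρ v)

private theorem evb_shift {K S : Type} [Field K] [Ring S] [Algebra K S] (a : S) (x : K)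
    (q : Polynomial K) :
    Polynomial.aeval (a + algebraMap K S x) (q.comp (X - C x)) = Polynomial.aeval a q := by
  rw [Polynomial.aeval_comp]
  simp

theorem p_evb : S_evb := by
  intro K V U0 U1 W _ _ _ _ _ _ _ _ _ L v q hv hq hq0
  have hd : (X : Polynomial K) ∣ q := by
    rw [Polynomial.X_dvd_iff, Polynomial.coeff_zero_eq_eval_zero]; exact hq0
  obtain ⟨q1, hq1⟩ := hd
  have hq1' : q = q1 * X := by rw [hq1, mul_comm]
  subst hq1'
  -- the element `c = r0 p0`
  set c : Module.End K U0 := L.r0 ∘ₗ L.p0 with hc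
  have hA : ∀ w : V, Polynomial.aeval L.a0 (q1 * X) w = L.p0 (Polynomial.aeval c q1 (L.r0 w)) :=
    fun w => evb_aevalX L.p0 L.r0 q1 w
  have hvm : v ∈ LinearMap.range (Polynomial.aeval L.a0 (q1 * X)) := by
    rw [hq]; exact Submodule.mem_span_singleton_self v
  obtain ⟨w0, hw0⟩ := hvm
  rw [hA] at hw0
  set u : U0 := Polynomial.aeval c q1 (L.r0 w0) with hu
  have hu0 : u ≠ 0 := by
    intro h
    apply hv
    rw [← hw0, h, map_zero]
  -- the range of `q1(c)` is the line of `u`
  have hr : ∀ y : U0, ∃ t : K, Polynomial.aeval c q1 y = t • u := by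
    intro y
    obtain ⟨w, rfl⟩ := L.hr0 y
    have hm : Polynomial.aeval L.a0 (q1 * X) w ∈ Submodule.span K {v} := by
      rw [← hq]; exact ⟨w, rfl⟩
    obtain ⟨t, ht⟩ := Submodule.mem_span_singleton.1 hm
    refine ⟨t, ?_⟩
    apply L.hp0
    rw [← hA, ← ht, map_smul, hw0]
  have hcomm : ∀ y : U0, c (Polynomial.aeval c q1 y) = Polynomial.aeval c q1 (c y) := by
    intro y
    have h1 : c * Polynomial.aeval c q1 = Polynomial.aeval c q1 * c := by
      have h2 : Polynomial.aeval c (X * q1) = Polynomial.aeval c (q1 * X) := by rw [mul_comm]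
      simpa [map_mul] using h2
    have h3 := congrArg (fun f : Module.End K U0 => f y) h1
    simpa [Module.End.mul_apply] using h3
  obtain ⟨lam, hlam⟩ := hr (c (L.r0 w0))
  rw [← hcomm] at hlam
  refine ⟨u, lam, hw0, hlam, ?_, (q1.comp (X - C L.x)) * X, ?_⟩
  · intro h
    apply hu0
    apply L.hj0
    rw [map_zero]
    exact h
  · -- the pair `j0 = be inl`, `s0 = fst al`
    have hb0 : L.b0 = (L.be ∘ₗ LinearMap.inl K U0 U1) ∘ₗ (LinearMap.fst K U0 U1 ∘ₗ L.al) := rfl
    have hs : ((LinearMap.fst K U0 U1 ∘ₗ L.al) ∘ₗ (L.be ∘ₗ LinearMap.inl K U0 U1) :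
        Module.End K U0) = c + algebraMap K (Module.End K U0) L.x := by
      ext y
      have h1 := congrArg (fun f : (U0 × U1) →ₗ[K] (U0 × U1) => (f (y, 0)).1) L.eq
      simpa [hc, Module.algebraMap_end_apply] using h1
    have hB : ∀ w : W, Polynomial.aeval L.b0 ((q1.comp (X - C L.x)) * X) w =
        L.be (LinearMap.inl K U0 U1 (Polynomial.aeval c q1 ((L.al w).1))) := by
      intro w
      rw [hb0, evb_aevalX, hs, evb_shift]
      rfl
    ext w
    constructor
    · rintro ⟨y, rfl⟩
      obtain ⟨t, ht⟩ := hr ((L.al y).1)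
      rw [hB, ht, map_smul, map_smul]
      exact Submodule.smul_mem _ _ (Submodule.mem_span_singleton_self _)
    · intro hw
      obtain ⟨t, rfl⟩ := Submodule.mem_span_singleton.1 hw
      obtain ⟨y, hy⟩ := L.hs0 (L.r0 w0)
      refine ⟨t • y, ?_⟩
      rw [map_smul, hB]
      have hy' : (L.al y).1 = L.r0 w0 := hy
      rw [hy', hu]

end Pool.Agent.MP_a57f33_nt.RG
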