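import Pool.Agent.Lib.MP_a57f33_nt.RG.Stm4

/-!
# Project RG (MP_a57f33_nt), piece [gi2]: induction over the algorithm of Katz with marked vectors
-/

namespace Pool.Agent.MP_a57f33_nt.RG

open Pool.Agent.MP_a57f33_nt

private lemma gi2_scalar {K V : Type} [Field K] [AddCommGroup V] [Module K V]
    [FiniteDimensional K V] (h : Module.finrank K V ≤ 1) (a : Module.End K V) :
    ∃ x : K, a = 0 + algebraMap K (Module.End K V) x := by
  obtain ⟨v, hv⟩ := finrank_le_one_iff.1 h
  obtain ⟨x, hx⟩ := hv (a v)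
  refine ⟨x, ?_⟩
  rw [zero_add]
  refine LinearMap.ext fun w => ?_
  obtain ⟨c, rfl⟩ := hv w
  rw [Module.algebraMap_end_apply, map_smul, ← hx, smul_comm]

private lemma gi2_SW_zero {M : Type} [AddCommMonoid M] :
    ∀ (n : ℕ) (f : List Bool → M), (∀ w, f w = 0) → BZ.SW n f = 0
  | 0, f, h => by rw [BZ.SW, h]
  | n + 1, f, h => by
      rw [BZ.SW, gi2_SW_zero n _ (fun w => h _), gi2_SW_zero n _ (fun w => h _), add_zero]

private lemma gi2_FV_zero {K k V : Type} [Field K] [CommRing k] [Algebra K k] [AddCommGroup V]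
    [Module K V] (v : V) (η : V →ₗ[K] K) (Z : List Bool → k) (hZ : Z [] = 1) :
    FV (0 : Module.End K V) 0 v η Z = PowerSeries.C (algebraMap K k (η v)) := by
  have h1 : ∀ (b : Bool) (w : List Bool), BZ.ev (0 : Module.End K V) 0 (b :: w) = 0 := by
    intro b w
    unfold BZ.ev
    rw [List.map_cons, List.prod_cons]
    cases b <;> simp
  ext n
  unfold FV
  rw [PowerSeries.coeff_mk, PowerSeries.coeff_C]
  cases n with
  | zero =>
      rw [BZ.SW, if_pos rfl, hZ]
      simp [BZ.ev, Algebra.smul_def]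
  | succ n =>
      rw [BZ.SW, if_neg (Nat.succ_ne_zero n),
        gi2_SW_zero n _ (fun w => by rw [h1, LinearMap.zero_apply, map_zero, zero_smul]),
        gi2_SW_zero n _ (fun w => by rw [h1, LinearMap.zero_apply, map_zero, zero_smul]),
        add_zero]

/-- Shift of the variable. -/
private lemma gi2_aeval {K V : Type} [Field K] [AddCommGroup V] [Module K V]
    (a : Module.End K V) (q : Polynomial K) (x : K) :
    Polynomial.aeval (a + algebraMap K (Module.End K V) x)
      (q.comp (Polynomial.X - Polynomial.C x)) = Polynomial.aeval a q := by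
  rw [Polynomial.aeval_comp, map_sub, Polynomial.aeval_X, Polynomial.aeval_C,
    add_sub_cancel_right]

private lemma gi2_eval {K : Type} [Field K] (q : Polynomial K) (x : K)
    (h : q.eval (-x) = 0) : (q.comp (Polynomial.X - Polynomial.C x)).eval 0 = 0 := by
  rw [Polynomial.eval_comp, Polynomial.eval_sub, Polynomial.eval_X, Polynomial.eval_C, zero_sub, h]

/-- The rank of a polynomial in `b` with the kernel of a functional. -/
private lemma gi2_rank {K V : Type} [Field K] [AddCommGroup V] [Module K V]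
    [FiniteDimensional K V] (f : Module.End K V) (η : V →ₗ[K] K) (hη : η ≠ 0)
    (h : LinearMap.ker f = LinearMap.ker η) : Module.finrank K (LinearMap.range f) = 1 := by
  have h1 := LinearMap.finrank_range_add_finrank_ker f
  have h2 := LinearMap.finrank_range_add_finrank_ker η
  have h3 : Module.finrank K (LinearMap.range η) = 1 := by
    have h4 : LinearMap.range η = ⊤ := by
      rw [LinearMap.range_eq_top]
      obtain ⟨u, hu⟩ : ∃ u, η u ≠ 0 := by
        by_contra hcon
        push Not at hcon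
        exact hη (LinearMap.ext hcon)
      intro c
      refine ⟨(c / η u) • u, ?_⟩
      rw [map_smul, smul_eq_mul, div_mul_cancel₀ _ hu]
    rw [h4, finrank_top, Module.finrank_self]
  rw [h] at h1
  omega

private lemma gi2_aux (h_kac : S_kac) (h_chs : S_chs) (h_evb : S_evb) (h_efb : S_efb)
    (K : Type) [Field K] [IsAlgClosed K] :
    ∀ (n : ℕ) (V : Type) [AddCommGroup V] [Module K V] [FiniteDimensional K V]
      (a b : Module.End K V), Module.finrank K V = n → Irr a b →
      Module.finrank K V ^ 2 + 2 ≤ zd (K := K) a + zd (K := K) b + zd (K := K) (a + b) →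
      ∀ (v : V) (η : V →ₗ[K] K), EV a v → EF b η →
      ∃ α β : List K, α.length = β.length ∧ α.sum = β.sum ∧
        ∀ (k : Type) [CommRing k] [Algebra K k] (γ : ℕ → k) (Z : List Bool → k), TR K γ Z →
          FV a (-b) v η Z * (β.map (gs γ)).prod =
            PowerSeries.C (algebraMap K k (η v)) * (α.map (gs γ)).prod := by
  intro n
  induction n using Nat.strong_induction_on with
  | _ n IH =>
    intro V _ _ _ a b hn hI hd v η hv hη
    by_cases h1 : Module.finrank K V ≤ 1
    · obtain ⟨x, hx⟩ := gi2_scalar h1 a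
      obtain ⟨y, hy⟩ := gi2_scalar h1 (-b)
      refine ⟨[], [], rfl, rfl, ?_⟩
      intro k _ _ γ Z hT
      rw [hx, hy, hT.tws V 0 0 v η x y, gi2_FV_zero v η Z hT.one]
    · obtain ⟨hv0, q, hq⟩ := hv
      obtain ⟨hη0, q', hq'⟩ := hη
      obtain ⟨x0, hx0, hm0⟩ := h_chs K V a q (by omega)
        (by rw [hq]; exact finrank_span_singleton hv0)
      obtain ⟨x1, hx1, hm1⟩ := h_chs K V b q' (by omega) (gi2_rank _ η hη0 hq')
      obtain ⟨U0, U1, W, L, e0, e1, hlt, hIb, hdb⟩ :=
        h_kac K V a b hI hd (by omega) x0 x1 hm0 hm1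
      obtain ⟨u, lam, hpu, hlam, hEV⟩ := h_evb K V U0 U1 W L v
        (q.comp (Polynomial.X - Polynomial.C x0)) hv0
        (by rw [e0, gi2_aeval]; exact hq) (gi2_eval q x0 hx0)
      obtain ⟨ζ, nu, hζ, hnu, hEF⟩ := h_efb K V U0 U1 W L η
        (q'.comp (Polynomial.X - Polynomial.C x1)) hη0
        (by rw [e1, gi2_aeval]; exact hq') (gi2_eval q' x1 hx1)
      obtain ⟨α, β, hlen, hsum, hprod⟩ := IH (Module.finrank K W) (by omega) W L.b0 L.b1 rfl
        hIb hdb (L.be (LinearMap.inl K U0 U1 u)) (ζ ∘ₗ LinearMap.snd K U0 U1 ∘ₗ L.al) hEV hEF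
      have hval : (ζ ∘ₗ LinearMap.snd K U0 U1 ∘ₗ L.al) (L.be (LinearMap.inl K U0 U1 u)) =
          η v := by
        have h2 := LinearMap.congr_fun L.eq (LinearMap.inl K U0 U1 u)
        have h3 : (L.al (L.be (LinearMap.inl K U0 U1 u))).2 = L.r1 (L.p0 u) := by
          have h4 := congrArg Prod.snd h2
          simpa using h4
        have h5 : (ζ ∘ₗ LinearMap.snd K U0 U1 ∘ₗ L.al) (L.be (LinearMap.inl K U0 U1 u)) =
            ζ ((L.al (L.be (LinearMap.inl K U0 U1 u))).2) := rfl
        rw [h5, h3, hpu, ← hζ]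
        rfl
      refine ⟨(lam + L.x) :: (-(nu + L.x)) :: α, lam :: (-nu) :: β, ?_, ?_, ?_⟩
      · simp [hlen]
      · simp only [List.sum_cons, hsum]
        ring
      · intro k _ _ γ Z hT
        have hA : FV a (-b) v η Z = FV L.a0 (-L.a1) (L.p0 u) (ζ ∘ₗ L.r1) Z := by
          rw [hpu, hζ, e0, e1, ← hT.tws V a (-b) v η x0 (-x1)]
          congr 1
          rw [map_neg, neg_add]
        have hB := hT.trf V U0 U1 W L u ζ lam nu hlam hnu
        have hC := hprod k γ Z hT
        rw [hval] at hC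
        rw [List.map_cons, List.map_cons, List.map_cons, List.map_cons, List.prod_cons,
          List.prod_cons, List.prod_cons, List.prod_cons, hA]
        calc FV L.a0 (-L.a1) (L.p0 u) (ζ ∘ₗ L.r1) Z *
              (gs γ lam * (gs γ (-nu) * (β.map (gs γ)).prod))
            = (FV L.a0 (-L.a1) (L.p0 u) (ζ ∘ₗ L.r1) Z * (gs γ lam * gs γ (-nu))) *
              (β.map (gs γ)).prod := by ring
          _ = (FV L.b0 (-L.b1) (L.be (LinearMap.inl K U0 U1 u))
              (ζ ∘ₗ LinearMap.snd K U0 U1 ∘ₗ L.al) Z * (β.map (gs γ)).prod) *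
              (gs γ (lam + L.x) * gs γ (-(nu + L.x))) := by rw [hB]; ring
          _ = _ := by rw [hC]; ring

/-- [gi2] -/
theorem p_gi2 (h_kac : S_kac) (h_chs : S_chs) (h_evb : S_evb) (h_efb : S_efb) : S_gi2 := by
  intro K _ _ V _ _ _ a b hI hd v η hv hη
  exact gi2_aux h_kac h_chs h_evb h_efb K (Module.finrank K V) V a b rfl hI hd v η hv hη

end Pool.Agent.MP_a57f33_nt.RG
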