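import Pool.Agent.Lib.MP_a57f33_nt.RG.Stm4

/-!
Project RG (MP_a57f33_nt): piece [gm3], the Gamma product formula, translation to matrices.
-/

namespace Pool.Agent.MP_a57f33_nt.RG

open Pool.Agent.MP_a57f33_nt
open Matrix

private lemma gm3_zd {K S S' : Type} [Field K] [Ring S] [Algebra K S] [Ring S'] [Algebra K S']
    (f : S ≃ₐ[K] S') (x : S) : zd (K := K) (f x) = zd (K := K) x := by
  unfold zd
  rw [← Subalgebra.finrank_toSubmodule, ← Subalgebra.finrank_toSubmodule]
  refine (LinearEquiv.finrank_eq (f.toLinearEquiv.ofSubmodules _ _ ?_)).symm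
  ext y
  simp only [Submodule.mem_map, Subalgebra.mem_toSubmodule, Subalgebra.mem_centralizer_iff,
    Set.mem_singleton_iff, forall_eq]
  constructor
  · rintro ⟨z, hz, rfl⟩
    change f x * f z = f z * f x
    rw [← map_mul, hz, map_mul]
  · intro hy
    refine ⟨f.symm y, ?_, ?_⟩
    · apply f.injective
      rw [map_mul, map_mul, f.apply_symm_apply, hy]
    · exact f.apply_symm_apply y

private lemma gm3_ev {K S S' : Type} [Field K] [Ring S] [Algebra K S] [Ring S'] [Algebra K S']
    (f : S ≃ₐ[K] S') (A B : S) (w : List Bool) : f (BZ.ev A B w) = BZ.ev (f A) (f B) w := by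
  unfold BZ.ev
  rw [map_list_prod, List.map_map]
  congr 2
  funext b
  cases b <;> rfl

private lemma gm3_tr {K : Type} [Field K] {n : ℕ} (B : Matrix (Fin n) (Fin n) K)
    (q : Polynomial K) : Polynomial.aeval Bᵀ q = (Polynomial.aeval B q)ᵀ := by
  induction q using Polynomial.induction_on' with
  | add p q hp hq => rw [map_add, map_add, transpose_add, hp, hq]
  | monomial m a =>
    rw [Polynomial.aeval_monomial, Polynomial.aeval_monomial, transpose_mul, transpose_pow,
      algebraMap_eq_diagonal, diagonal_transpose, ← algebraMap_eq_diagonal]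
    exact (Algebra.commutes a (Bᵀ ^ m))

theorem p_gm3 (h_gi2 : S_gi2) : S_gm3 := by
  intro K _ _ n A B hirr hzd v f hA hB
  let e : Matrix (Fin n) (Fin n) K ≃ₐ[K] ((Fin n → K) →ₗ[K] (Fin n → K)) :=
    Matrix.toLinAlgEquiv'
  have he : ∀ (M : Matrix (Fin n) (Fin n) K) (x : Fin n → K), e M x = Matrix.mulVec M x :=
    fun M x => Matrix.toLinAlgEquiv'_apply M x
  have he' : ∀ (M : Matrix (Fin n) (Fin n) K), Matrix.toLin' M = e M := by
    intro M
    apply LinearMap.ext
    intro x
    rw [he, Matrix.toLin'_apply]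
  have hae : ∀ (M : Matrix (Fin n) (Fin n) K) (q : Polynomial K),
      Polynomial.aeval (e M) q = e (Polynomial.aeval M q) := fun M q =>
    Polynomial.aeval_algHom_apply e.toAlgHom M q
  have hI : Irr (e A) (e B) := by
    intro U h1 h2
    exact hirr U (fun x hx => by rw [← he]; exact h1 x hx) (fun x hx => by rw [← he]; exact h2 x hx)
  have hz : Module.finrank K (Fin n → K) ^ 2 + 2 ≤
      zd (K := K) (e A) + zd (K := K) (e B) + zd (K := K) (e A + e B) := by
    rw [Module.finrank_fin_fun, ← map_add, gm3_zd e A, gm3_zd e B, gm3_zd e (A + B)]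
    exact hzd
  let η : (Fin n → K) →ₗ[K] K :=
    { toFun := fun x => f ⬝ᵥ x
      map_add' := fun x y => dotProduct_add f x y
      map_smul' := fun c x => dotProduct_smul c f x }
  have hη : ∀ x, η x = f ⬝ᵥ x := fun _ => rfl
  have hEV : EV (e A) v := by
    obtain ⟨h0, q, hq⟩ := hA
    refine ⟨h0, q, ?_⟩
    rw [hae, ← he', hq]
  have hEF : EF (e B) η := by
    obtain ⟨h0, q, hq⟩ := hB
    refine ⟨?_, q, ?_⟩
    · intro h
      apply h0
      apply dotProduct_eq_zero
      intro w
      rw [← hη, h, LinearMap.zero_apply]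
    · rw [hae]
      rw [gm3_tr] at hq
      set Q := Polynomial.aeval B q with hQ
      have hdot : ∀ g x, g ⬝ᵥ (Q *ᵥ x) = (Qᵀ *ᵥ g) ⬝ᵥ x := by
        intro g x
        rw [dotProduct_mulVec, mulVec_transpose]
      ext x
      rw [LinearMap.mem_ker, LinearMap.mem_ker, he, hη]
      constructor
      · intro hx
        have hf : f ∈ LinearMap.range (Matrix.toLin' Qᵀ) := by
          rw [hq]
          exact Submodule.mem_span_singleton_self f
        obtain ⟨g, hg⟩ := hf
        rw [Matrix.toLin'_apply] at hg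
        rw [← hg, ← hdot, hx, dotProduct_zero]
      · intro hx
        have hall : ∀ g, g ⬝ᵥ (Q *ᵥ x) = 0 := by
          intro g
          rw [hdot]
          have hg : Qᵀ *ᵥ g ∈ Submodule.span K {f} := by
            rw [← hq, ← Matrix.toLin'_apply]
            exact LinearMap.mem_range_self _ g
          obtain ⟨c, hc⟩ := Submodule.mem_span_singleton.1 hg
          rw [← hc, smul_dotProduct, hx, smul_zero]
        apply dotProduct_eq_zero
        intro w
        rw [dotProduct_comm]
        exact hall w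
  obtain ⟨α, β, h1, h2, h3⟩ := h_gi2 K (Fin n → K) (e A) (e B) hI hz v η hEV hEF
  refine ⟨α, β, h1, h2, ?_⟩
  intro k _ _ γ Z hTR
  have h4 := h3 k γ Z hTR
  have hFM : FM A (-B) v f Z = FV (e A) (-(e B)) v η Z := by
    unfold FM FV
    congr 1
    funext N
    congr 1
    funext w
    rw [hη, ← map_neg, ← gm3_ev, he]
  rw [hFM, h4, hη]

end Pool.Agent.MP_a57f33_nt.RG
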