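import Pool.Agent.Lib.MP_a57f33_nt.RG.Stm

/-!
# Project RG (MP_a57f33_nt): irreducible pairs
-/

set_option autoImplicit false

namespace Pool.Agent.MP_a57f33_nt.RG

open Pool.Agent.MP_a57f33_nt

/-- [ir] Irreducible pairs: four elementary consequences. -/
theorem p_ir : S_ir := by
  intro K V _ _ _ _ a b hirr hdim
  -- common eigenvectors vanish
  have h3 : ∀ (x y : K) (v : V), a v = x • v → b v = y • v → v = 0 := by
    intro x y v ha hb
    rcases hirr (Submodule.span K {v})
      (by
        intro u hu
        obtain ⟨c, rfl⟩ := Submodule.mem_span_singleton.1 hu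
        rw [map_smul, ha]
        exact Submodule.smul_mem _ _ (Submodule.smul_mem _ _ (Submodule.mem_span_singleton_self v)))
      (by
        intro u hu
        obtain ⟨c, rfl⟩ := Submodule.mem_span_singleton.1 hu
        rw [map_smul, hb]
        exact Submodule.smul_mem _ _ (Submodule.smul_mem _ _ (Submodule.mem_span_singleton_self v)))
      with h | h
    · exact Submodule.span_singleton_eq_bot.1 h
    · exfalso
      have h1 : Module.finrank K (Submodule.span K ({v} : Set V)) ≤ 1 := by
        refine (finrank_span_le_card ({v} : Set V)).trans ?_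
        rw [Set.toFinset_card, Fintype.card_eq_nat_card, Nat.card_unique]
      rw [h, finrank_top] at h1
      omega
  have hne : ¬ ∀ v : V, v = 0 := by
    intro h
    haveI : Subsingleton V := ⟨fun u v => (h u).trans (h v).symm⟩
    have h0 : Module.finrank K V = 0 := Module.finrank_zero_of_subsingleton
    omega
  refine ⟨?_, ?_, h3, ?_⟩
  · rcases hirr (LinearMap.range a ⊔ LinearMap.range b)
      (fun u _ => Submodule.mem_sup_left (LinearMap.mem_range_self a u))
      (fun u _ => Submodule.mem_sup_right (LinearMap.mem_range_self b u)) with h | h
    · exfalso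
      apply hne
      intro v
      have ha : a v = 0 := by
        have h1 : a v ∈ LinearMap.range a ⊔ LinearMap.range b :=
          Submodule.mem_sup_left (LinearMap.mem_range_self a v)
        rw [h] at h1
        exact (Submodule.mem_bot K).1 h1
      have hb : b v = 0 := by
        have h1 : b v ∈ LinearMap.range a ⊔ LinearMap.range b :=
          Submodule.mem_sup_right (LinearMap.mem_range_self b v)
        rw [h] at h1
        exact (Submodule.mem_bot K).1 h1
      exact h3 0 0 v (by rw [ha, zero_smul]) (by rw [hb, zero_smul])
    · exact h
  · rw [Submodule.eq_bot_iff]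
    intro v hv
    have ha : a v = 0 := LinearMap.mem_ker.1 hv.1
    have hb : b v = 0 := LinearMap.mem_ker.1 hv.2
    exact h3 0 0 v (by rw [ha, zero_smul]) (by rw [hb, zero_smul])
  · intro x y η ha hb
    have ha' : ∀ v, η (a v) = x • η v := fun v => LinearMap.congr_fun ha v
    have hb' : ∀ v, η (b v) = y • η v := fun v => LinearMap.congr_fun hb v
    rcases hirr (LinearMap.ker η)
      (by
        intro u hu
        have h0 : η u = 0 := LinearMap.mem_ker.1 hu
        rw [LinearMap.mem_ker, ha', h0, smul_zero])
      (by
        intro u hu
        have h0 : η u = 0 := LinearMap.mem_ker.1 hu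
        rw [LinearMap.mem_ker, hb', h0, smul_zero]) with h | h
    · exfalso
      have h1 := LinearMap.finrank_le_finrank_of_injective (LinearMap.ker_eq_bot.1 h)
      rw [Module.finrank_self] at h1
      omega
    · exact LinearMap.ker_eq_top.1 h

end Pool.Agent.MP_a57f33_nt.RG
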