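import Pool.Agent.Lib.MP_a57f33_nt.RG.Stm

/-!
# Project RG (MP_a57f33_nt), piece irb: irreducibility of the new pair
-/

set_option autoImplicit false

namespace Pool.Agent.MP_a57f33_nt.RG

open Pool.Agent.MP_a57f33_nt

/-- [irb] -/
theorem p_irb : S_irb := by
  intro K V U0 U1 W _ _ _ _ _ _ _ _ _ L hirr Y hY0 hY1
  obtain ⟨E0, hE0⟩ : ∃ E0 : Submodule K U0, E0 = Y.map (LinearMap.fst K U0 U1 ∘ₗ L.al) := ⟨_, rfl⟩
  obtain ⟨E1, hE1⟩ : ∃ E1 : Submodule K U1, E1 = Y.map (LinearMap.snd K U0 U1 ∘ₗ L.al) := ⟨_, rfl⟩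
  have m0 : ∀ y ∈ Y, (L.al y).1 ∈ E0 := by
    intro y hy
    rw [hE0]
    exact ⟨y, hy, rfl⟩
  have m1 : ∀ y ∈ Y, (L.al y).2 ∈ E1 := by
    intro y hy
    rw [hE1]
    exact ⟨y, hy, rfl⟩
  have hbe : ∀ e0 ∈ E0, ∀ e1 ∈ E1, L.be (e0, e1) ∈ Y := by
    intro e0 he0 e1 he1
    rw [hE0] at he0
    rw [hE1] at he1
    obtain ⟨y, hy, hy'⟩ := he0
    obtain ⟨z, hz, hz'⟩ := he1
    have h1 : L.be (e0, (0 : U1)) = L.b0 y := by
      rw [← hy']; rfl
    have h2 : L.be ((0 : U0), e1) = L.b1 z := by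
      rw [← hz']; rfl
    have h3 : L.be (e0, e1) = L.be (e0, (0 : U1)) + L.be ((0 : U0), e1) := by
      rw [← map_add]
      congr 1
      rw [Prod.mk_add_mk, add_zero, zero_add]
    rw [h3, h1, h2]
    exact Y.add_mem (hY0 y hy) (hY1 z hz)
  have key : ∀ e0 ∈ E0, ∀ e1 ∈ E1,
      L.r0 (L.p0 e0 + L.p1 e1) ∈ E0 ∧ L.r1 (L.p0 e0 + L.p1 e1) ∈ E1 := by
    intro e0 he0 e1 he1
    have h1 : L.al (L.be (e0, e1)) =
        (L.r0 (L.p0 e0 + L.p1 e1), L.r1 (L.p0 e0 + L.p1 e1)) + L.x • (e0, e1) := by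
      have h2 := LinearMap.congr_fun L.eq (e0, e1)
      have h3 : ((L.r0.prod L.r1) ∘ₗ (L.p0.coprod L.p1) + L.x • LinearMap.id :
          U0 × U1 →ₗ[K] U0 × U1) (e0, e1) =
          (L.r0 (L.p0 e0 + L.p1 e1), L.r1 (L.p0 e0 + L.p1 e1)) + L.x • (e0, e1) := by
        rw [LinearMap.add_apply, LinearMap.comp_apply, LinearMap.coprod_apply, LinearMap.smul_apply]
        rfl
      rw [← h3]
      exact h2
    have h4 := hbe e0 he0 e1 he1
    constructor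
    · have h5 : L.r0 (L.p0 e0 + L.p1 e1) = (L.al (L.be (e0, e1))).1 - L.x • e0 := by
        rw [h1]
        exact (add_sub_cancel_right _ _).symm
      rw [h5]
      exact E0.sub_mem (m0 _ h4) (E0.smul_mem _ he0)
    · have h5 : L.r1 (L.p0 e0 + L.p1 e1) = (L.al (L.be (e0, e1))).2 - L.x • e1 := by
        rw [h1]
        exact (add_sub_cancel_right _ _).symm
      rw [h5]
      exact E1.sub_mem (m1 _ h4) (E1.smul_mem _ he1)
  have hX : ∀ v ∈ E0.map L.p0 ⊔ E1.map L.p1, L.r0 v ∈ E0 ∧ L.r1 v ∈ E1 := by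
    intro v hv
    obtain ⟨s, ⟨e0, he0, hs⟩, t, ⟨e1, he1, ht⟩, hst⟩ := Submodule.mem_sup.1 hv
    rw [← hst, ← hs, ← ht]
    exact key e0 he0 e1 he1
  have hI := hirr (E0.map L.p0 ⊔ E1.map L.p1)
    (by
      intro v hv
      exact Submodule.mem_sup_left ⟨L.r0 v, (hX v hv).1, rfl⟩)
    (by
      intro v hv
      exact Submodule.mem_sup_right ⟨L.r1 v, (hX v hv).2, rfl⟩)
  rcases hI with hI | hI
  · left
    rw [eq_bot_iff]
    intro y hy
    have h0 : (L.al y).1 = 0 := by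
      have h1 : L.p0 (L.al y).1 ∈ E0.map L.p0 ⊔ E1.map L.p1 :=
        Submodule.mem_sup_left ⟨_, m0 y hy, rfl⟩
      rw [hI, Submodule.mem_bot] at h1
      exact L.hp0 (by rw [h1, map_zero])
    have h1 : (L.al y).2 = 0 := by
      have h1 : L.p1 (L.al y).2 ∈ E0.map L.p0 ⊔ E1.map L.p1 :=
        Submodule.mem_sup_right ⟨_, m1 y hy, rfl⟩
      rw [hI, Submodule.mem_bot] at h1
      exact L.hp1 (by rw [h1, map_zero])
    have h2 : L.al y = L.al 0 := by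
      rw [map_zero]
      exact Prod.ext h0 h1
    rw [Submodule.mem_bot]
    exact L.hal h2
  · right
    rw [eq_top_iff]
    intro w _
    obtain ⟨⟨u0, u1⟩, hw⟩ := L.hbe w
    obtain ⟨v, hv⟩ := L.hr0 u0
    obtain ⟨v', hv'⟩ := L.hr1 u1
    have e0 : u0 ∈ E0 := by
      rw [← hv]
      exact (hX v (by rw [hI]; exact Submodule.mem_top)).1
    have e1 : u1 ∈ E1 := by
      rw [← hv']
      exact (hX v' (by rw [hI]; exact Submodule.mem_top)).2
    rw [← hw]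
    exact hbe u0 e0 u1 e1

end Pool.Agent.MP_a57f33_nt.RG
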