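import Pool.Agent.Lib.MP_a57f33_nt.RG.Stm3

/-!
# Project RG (MP_a57f33_nt): one step of the algorithm of Katz for given eigenvalues
-/

namespace Pool.Agent.MP_a57f33_nt.RG

open Pool.Agent.MP_a57f33_nt

private lemma kac_max {α : Type} [Nonempty α] (f : α → ℕ) (n : ℕ) (h : ∀ x, f x ≤ n) :
    ∃ y, ∀ x, f x ≤ f y := by
  classical
  have hex : ∃ k, ∃ y, n - f y = k := ⟨_, Classical.arbitrary α, rfl⟩
  obtain ⟨y, hy⟩ := Nat.find_spec hex
  refine ⟨y, fun x => ?_⟩
  have h1 := Nat.find_min' hex ⟨x, rfl⟩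
  have h2 := h x
  have h3 := h y
  omega

private lemma kac_irr {K V : Type} [Field K] [AddCommGroup V] [Module K V]
    (a b : Module.End K V) (x y : K) (h : Irr a b) :
    Irr (a + algebraMap K (Module.End K V) x) (b + algebraMap K (Module.End K V) y) := by
  intro U hU hV
  refine h U (fun u hu => ?_) (fun u hu => ?_)
  · have h1 := hU u hu
    rw [LinearMap.add_apply, Module.algebraMap_end_apply] at h1
    have h2 := U.sub_mem h1 (U.smul_mem x hu)
    rwa [add_sub_cancel_right] at h2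
  · have h1 := hV u hu
    rw [LinearMap.add_apply, Module.algebraMap_end_apply] at h1
    have h2 := U.sub_mem h1 (U.smul_mem y hu)
    rwa [add_sub_cancel_right] at h2

private lemma kac_num (n w u0 u1 r : ℕ) (za0 za1 za2 zb0 zb1 zb2 : ℕ)
    (hs : w + n = u0 + u1 + r) (h1 : u0 ≤ n) (h2 : u1 ≤ n) (h3 : u0 ≤ w) (h4 : u1 ≤ w)
    (h5 : r ≤ n) (h6 : r ≤ w)
    (e0 : zb0 + (n - u0) ^ 2 = za0 + (w - u0) ^ 2)
    (e1 : zb1 + (n - u1) ^ 2 = za1 + (w - u1) ^ 2)
    (e2 : zb2 + (n - r) ^ 2 = za2 + (w - r) ^ 2)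
    (hz : n ^ 2 + 2 ≤ za0 + za1 + za2) : w ^ 2 + 2 ≤ zb0 + zb1 + zb2 := by
  have hs' : (w : ℤ) + n = u0 + u1 + r := by exact_mod_cast hs
  zify [h1, h3] at e0
  zify [h2, h4] at e1
  zify [h5, h6] at e2
  have key : (zb0 : ℤ) + zb1 + zb2 = za0 + za1 + za2 + ((w : ℤ) ^ 2 - n ^ 2) := by
    linear_combination e0 + e1 + e2 + 2 * ((w : ℤ) - n) * hs'
  zify at hz ⊢
  linarith

/-- One step of the algorithm of Katz for given eigenvalues with maximal eigenspaces. -/
theorem p_kac (h_zsh : S_zsh) (h_mx : S_mx) (h_sco : S_sco) (h_lk : S_lk) (h_irb : S_irb)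
    (h_dmw : S_dmw) (h_zdb : S_zdb) : S_kac := by
  intro K _ _ V _ _ _ a b hirr hz h2 ya yb hya hyb
  have hmax : ∀ c : Module.End K V, ∃ y : K, ∀ z : K,
      Module.finrank K (LinearMap.ker (c + algebraMap K (Module.End K V) z)) ≤
        Module.finrank K (LinearMap.ker (c + algebraMap K (Module.End K V) y)) := fun c =>
    kac_max (fun z : K => Module.finrank K (LinearMap.ker (c + algebraMap K (Module.End K V) z)))
      (Module.finrank K V) (fun z => Submodule.finrank_le _)
  obtain ⟨yc, hyc⟩ := hmax (a + b)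
  have ma := h_mx K _ V a hya
  have mb := h_mx K _ V b hyb
  have mc := h_mx K _ V (a + b) hyc
  have ra := LinearMap.finrank_range_add_finrank_ker (a + algebraMap K (Module.End K V) ya)
  have rb := LinearMap.finrank_range_add_finrank_ker (b + algebraMap K (Module.End K V) yb)
  have rc := LinearMap.finrank_range_add_finrank_ker (a + b + algebraMap K (Module.End K V) yc)
  have hS : Module.finrank K V + 1 ≤
      Module.finrank K (LinearMap.ker (a + algebraMap K (Module.End K V) ya)) +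
      Module.finrank K (LinearMap.ker (b + algebraMap K (Module.End K V) yb)) +
      Module.finrank K (LinearMap.ker (a + b + algebraMap K (Module.End K V) yc)) := by
    by_contra hcon
    push Not at hcon
    have h3 := Nat.mul_le_mul_right (Module.finrank K V) (Nat.lt_succ_iff.1 hcon)
    nlinarith
  have hirr' := kac_irr a b ya yb hirr
  have hsum : a + algebraMap K (Module.End K V) ya + (b + algebraMap K (Module.End K V) yb) +
      algebraMap K (Module.End K V) (yc - ya - yb) =
        a + b + algebraMap K (Module.End K V) yc := by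
    rw [map_sub, map_sub]
    abel
  have hx : yc - ya - yb ≠ 0 := by
    intro hx
    have h3 := h_sco K V _ _ hirr' h2
    rw [hx, map_zero, add_zero] at hsum
    rw [hsum] at h3
    omega
  obtain ⟨W, L, hL0, hL1, hLx⟩ := h_lk K V _ _ (yc - ya - yb) hirr' h2
  have hsum' : L.a0 + L.a1 + algebraMap K (Module.End K V) L.x =
      a + b + algebraMap K (Module.End K V) yc := by
    rw [hL0, hL1, hLx]
    exact hsum
  obtain ⟨d0, d1, d2, d3, d4, d5, d6⟩ := h_dmw K V _ _ W L (by rw [hLx]; exact hx)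
  obtain ⟨e0, e1, e2⟩ := h_zdb K V _ _ W L
  have z0 : zd (K := K) L.a0 = zd (K := K) a := by
    rw [hL0]
    exact h_zsh K _ a ya
  have z1 : zd (K := K) L.a1 = zd (K := K) b := by
    rw [hL1]
    exact h_zsh K _ b yb
  have z2 : zd (K := K) (L.a0 + L.a1) = zd (K := K) (a + b) := by
    rw [hL0, hL1]
    have h3 := h_zsh K _ (a + b) (ya + yb)
    rw [map_add] at h3
    rw [← h3]
    congr 1
    abel
  rw [z0] at e0
  rw [z1] at e1
  rw [z2] at e2
  refine ⟨_, _, W, L, hL0, hL1, ?_, ?_, ?_⟩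
  · rw [hsum'] at d0
    omega
  · exact h_irb K V _ _ W L (by rw [hL0, hL1]; exact hirr')
  · exact kac_num _ _ _ _ _ _ _ _ _ _ _ d0 d1 d2 d3 d4 d5 d6 e0 e1 e2 hz

end Pool.Agent.MP_a57f33_nt.RG
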