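import Pool.Agent.Lib.MP_a57f33_nt.RG.Stm

/-!
# Project RG, piece [lk]: existence of the link
-/

set_option autoImplicit false

namespace Pool.Agent.MP_a57f33_nt.RG

section

variable {K V : Type} [Field K] [AddCommGroup V] [Module K V] (a0 a1 : Module.End K V) (x : K)

/-- the endomorphism `β α + x` -/
private noncomputable def lk_N :
    Module.End K (LinearMap.range a0 × LinearMap.range a1) :=
  (a0.rangeRestrict.prod a1.rangeRestrict) ∘ₗ
    ((LinearMap.range a0).subtype.coprod (LinearMap.range a1).subtype) + x • LinearMap.id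

private lemma lk_N_fst (z : LinearMap.range a0 × LinearMap.range a1) :
    ((lk_N a0 a1 x z).1 : V) = a0 ((z.1 : V) + (z.2 : V)) + x • (z.1 : V) := by
  simp [lk_N]

private lemma lk_N_snd (z : LinearMap.range a0 × LinearMap.range a1) :
    ((lk_N a0 a1 x z).2 : V) = a1 ((z.1 : V) + (z.2 : V)) + x • (z.2 : V) := by
  simp [lk_N]

variable {a0 a1 x}

private lemma lk_fst_surj (h4 : ∀ (x y : K) (η : V →ₗ[K] K), η ∘ₗ a0 = x • η → η ∘ₗ a1 = y • η →
    η = 0) (u : LinearMap.range a0) :
    ∃ z, (lk_N a0 a1 x z).1 = u := by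
  have key : LinearMap.range (LinearMap.fst K (LinearMap.range a0) (LinearMap.range a1) ∘ₗ
      lk_N a0 a1 x) = ⊤ := by
    by_contra hne
    obtain ⟨ξ, hξ, hle⟩ := Submodule.exists_le_ker_of_lt_top _ (lt_top_iff_ne_top.2 hne)
    have hz : ∀ z, ξ (lk_N a0 a1 x z).1 = 0 := fun z => hle ⟨z, rfl⟩
    apply hξ
    have h := h4 (-x) 0 (ξ ∘ₗ a0.rangeRestrict) ?_ ?_
    · ext ⟨_, v, rfl⟩
      exact LinearMap.congr_fun h v
    · ext v
      have h1 := hz (a0.rangeRestrict v, 0)
      have h2 : (lk_N a0 a1 x (a0.rangeRestrict v, 0)).1 =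
          a0.rangeRestrict (a0 v) + x • a0.rangeRestrict v := by
        apply Subtype.ext
        rw [lk_N_fst]
        simp
      rw [h2, map_add, map_smul] at h1
      simp only [LinearMap.comp_apply, LinearMap.smul_apply, smul_eq_mul] at h1 ⊢
      linear_combination h1
    · ext v
      have h1 := hz (0, a1.rangeRestrict v)
      have h2 : (lk_N a0 a1 x (0, a1.rangeRestrict v)).1 = a0.rangeRestrict (a1 v) := by
        apply Subtype.ext
        rw [lk_N_fst]
        simp
      rw [h2] at h1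
      simp only [LinearMap.comp_apply, LinearMap.smul_apply, zero_smul] at h1 ⊢
      exact h1
  have h : u ∈ LinearMap.range (LinearMap.fst K (LinearMap.range a0) (LinearMap.range a1) ∘ₗ
      lk_N a0 a1 x) := by
    rw [key]
    trivial
  exact h

private lemma lk_snd_surj (h4 : ∀ (x y : K) (η : V →ₗ[K] K), η ∘ₗ a0 = x • η → η ∘ₗ a1 = y • η →
    η = 0) (u : LinearMap.range a1) :
    ∃ z, (lk_N a0 a1 x z).2 = u := by
  have key : LinearMap.range (LinearMap.snd K (LinearMap.range a0) (LinearMap.range a1) ∘ₗ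
      lk_N a0 a1 x) = ⊤ := by
    by_contra hne
    obtain ⟨ξ, hξ, hle⟩ := Submodule.exists_le_ker_of_lt_top _ (lt_top_iff_ne_top.2 hne)
    have hz : ∀ z, ξ (lk_N a0 a1 x z).2 = 0 := fun z => hle ⟨z, rfl⟩
    apply hξ
    have h := h4 0 (-x) (ξ ∘ₗ a1.rangeRestrict) ?_ ?_
    · ext ⟨_, v, rfl⟩
      exact LinearMap.congr_fun h v
    · ext v
      have h1 := hz (a0.rangeRestrict v, 0)
      have h2 : (lk_N a0 a1 x (a0.rangeRestrict v, 0)).2 = a1.rangeRestrict (a0 v) := by
        apply Subtype.ext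
        rw [lk_N_snd]
        simp
      rw [h2] at h1
      simp only [LinearMap.comp_apply, LinearMap.smul_apply, zero_smul] at h1 ⊢
      exact h1
    · ext v
      have h1 := hz (0, a1.rangeRestrict v)
      have h2 : (lk_N a0 a1 x (0, a1.rangeRestrict v)).2 =
          a1.rangeRestrict (a1 v) + x • a1.rangeRestrict v := by
        apply Subtype.ext
        rw [lk_N_snd]
        simp
      rw [h2, map_add, map_smul] at h1
      simp only [LinearMap.comp_apply, LinearMap.smul_apply, smul_eq_mul] at h1 ⊢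
      linear_combination h1
  have h : u ∈ LinearMap.range (LinearMap.snd K (LinearMap.range a0) (LinearMap.range a1) ∘ₗ
      lk_N a0 a1 x) := by
    rw [key]
    trivial
  exact h

private lemma lk_inl_inj (h3 : ∀ (x y : K) (v : V), a0 v = x • v → a1 v = y • v → v = 0)
    (u : LinearMap.range a0) (hu : lk_N a0 a1 x (u, 0) = 0) : u = 0 := by
  have h1 := lk_N_fst a0 a1 x (u, 0)
  have h2 := lk_N_snd a0 a1 x (u, 0)
  rw [hu] at h1 h2
  simp only [Prod.fst_zero, Prod.snd_zero, ZeroMemClass.coe_zero, add_zero, smul_zero] at h1 h2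
  apply Subtype.ext
  refine h3 (-x) 0 (u : V) ?_ ?_
  · rw [neg_smul]
    exact eq_neg_of_add_eq_zero_left h1.symm
  · rw [zero_smul]
    exact h2.symm

private lemma lk_inr_inj (h3 : ∀ (x y : K) (v : V), a0 v = x • v → a1 v = y • v → v = 0)
    (u : LinearMap.range a1) (hu : lk_N a0 a1 x (0, u) = 0) : u = 0 := by
  have h1 := lk_N_fst a0 a1 x (0, u)
  have h2 := lk_N_snd a0 a1 x (0, u)
  rw [hu] at h1 h2
  simp only [Prod.fst_zero, Prod.snd_zero, ZeroMemClass.coe_zero, zero_add, smul_zero,
    add_zero] at h1 h2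
  apply Subtype.ext
  refine h3 0 (-x) (u : V) ?_ ?_
  · rw [zero_smul]
    exact h1.symm
  · rw [neg_smul]
    exact eq_neg_of_add_eq_zero_left h2.symm

end

theorem p_lk (h_ir : S_ir) : S_lk := by
  intro K V _ _ _ _ a0 a1 x hirr hdim
  obtain ⟨h1, h2, h3, h4⟩ := h_ir K V a0 a1 hirr hdim
  refine ⟨LinearMap.range (lk_N a0 a1 x),
    { p0 := (LinearMap.range a0).subtype
      p1 := (LinearMap.range a1).subtype
      r0 := a0.rangeRestrict
      r1 := a1.rangeRestrict
      al := (LinearMap.range (lk_N a0 a1 x)).subtype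
      be := (lk_N a0 a1 x).rangeRestrict
      x := x
      hp0 := Subtype.val_injective
      hp1 := Subtype.val_injective
      hr0 := LinearMap.surjective_rangeRestrict a0
      hr1 := LinearMap.surjective_rangeRestrict a1
      hal := Subtype.val_injective
      hbe := LinearMap.surjective_rangeRestrict _
      hp := ?_
      hr := ?_
      hj0 := ?_
      hj1 := ?_
      hs0 := ?_
      hs1 := ?_
      eq := rfl }, rfl, rfl, rfl⟩
  · rw [← LinearMap.range_eq_top, LinearMap.range_coprod, Submodule.range_subtype,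
      Submodule.range_subtype]
    exact h1
  · rw [← LinearMap.ker_eq_bot, LinearMap.ker_prod, LinearMap.ker_rangeRestrict,
      LinearMap.ker_rangeRestrict]
    exact h2
  · rw [← LinearMap.ker_eq_bot, LinearMap.ker_eq_bot']
    intro u hu
    exact lk_inl_inj h3 u (congrArg Subtype.val hu)
  · rw [← LinearMap.ker_eq_bot, LinearMap.ker_eq_bot']
    intro u hu
    exact lk_inr_inj h3 u (congrArg Subtype.val hu)
  · intro u
    obtain ⟨z, hz⟩ := lk_fst_surj (x := x) h4 u
    exact ⟨⟨_, z, rfl⟩, hz⟩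
  · intro u
    obtain ⟨z, hz⟩ := lk_snd_surj (x := x) h4 u
    exact ⟨⟨_, z, rfl⟩, hz⟩

end Pool.Agent.MP_a57f33_nt.RG
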