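import Pool.Agent.Lib.MP_a57f33_nt.RG.Stm4

/-!
# Project RG (MP_a57f33_nt): simple eigenvectors of matrices are marked
-/

namespace Pool.Agent.MP_a57f33_nt.RG

open Pool.Agent.MP_a57f33_nt

private lemma mkd_aeval {K : Type} [Field K] {n : ℕ} (A : Matrix (Fin n) (Fin n) K)
    (q : Polynomial K) :
    Matrix.toLin' (Polynomial.aeval A q) = Polynomial.aeval (Matrix.toLin' A) q :=
  (Polynomial.aeval_algHom_apply
    (Matrix.toLinAlgEquiv' : Matrix (Fin n) (Fin n) K ≃ₐ[K] _).toAlgHom A q).symm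

/-- Simple eigenvectors of matrices are marked. -/
theorem p_mkd (h_sev : S_sev) : S_mkd := by
  intro K _ n A e x he hA hx
  obtain ⟨-, q, hq⟩ := (h_sev K (Fin n → K) (Matrix.toLin' A) x
    (by rw [Matrix.charpoly_toLin']; exact hx)).1 e he
    (by rw [Matrix.toLin'_apply]; exact hA)
  refine ⟨he, q, ?_⟩
  rw [mkd_aeval]
  exact hq

end Pool.Agent.MP_a57f33_nt.RG
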