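import Pool.Agent.Lib.MP_a57f33_nt.RG.Stm

/-!
# Project RG (MP_a57f33_nt), piece mx
-/

namespace Pool.Agent.MP_a57f33_nt.RG

theorem p_mx (h_zd : S_zd) (h_zsh : S_zsh) : S_mx := by
  intro K _ _ m
  suffices H : ∀ (n : ℕ) (V : Type) [AddCommGroup V] [Module K V] [FiniteDimensional K V]
      (a : Module.End K V), Module.finrank K V = n →
      (∀ x : K, Module.finrank K
        (LinearMap.ker (a + algebraMap K (Module.End K V) x)) ≤ m) →
      zd (K := K) a ≤ m * n by
    intro V _ _ _ a ha
    exact H _ V a rfl ha
  intro n
  induction n using Nat.strong_induction_on with
  | _ n ih =>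
    intro V _ _ _ a hn ha
    rcases Nat.eq_zero_or_pos n with h0 | hpos
    · subst h0
      have hsub : Subsingleton V := Module.finrank_zero_iff.mp hn
      have hsub2 : Subsingleton (Module.End K V) := by
        constructor
        intro f g
        apply LinearMap.ext
        intro v
        exact Subsingleton.elim _ _
      have : zd (K := K) a = 0 := by
        unfold zd
        exact Module.finrank_zero_of_subsingleton
      omega
    · have hp : 0 < Module.finrank K V := by omega
      have : Nontrivial V := (Module.finrank_pos_iff (R := K)).mp hp
      obtain ⟨x, hx⟩ := Module.End.exists_eigenvalue a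
      obtain ⟨v, hv⟩ := hx.exists_hasEigenvector
      have hvm : a v = x • v := hv.apply_eq_smul
      have hv0 : v ≠ 0 := hv.2
      obtain ⟨h, hh⟩ : ∃ h : Module.End K V, h = a + algebraMap K (Module.End K V) (-x) := ⟨_, rfl⟩
      have hzh : zd (K := K) h = zd (K := K) a := by
        rw [hh]; exact h_zsh K (Module.End K V) a (-x)
      have hkerm : Module.finrank K (LinearMap.ker h) ≤ m := by
        rw [hh]; exact ha (-x)
      have hvker : v ∈ LinearMap.ker h := by
        rw [LinearMap.mem_ker, hh, LinearMap.add_apply, hvm, Module.algebraMap_end_apply]
        rw [neg_smul, add_neg_cancel]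
      have hkerpos : 0 < Module.finrank K (LinearMap.ker h) := by
        rw [Module.finrank_pos_iff_exists_ne_zero]
        refine ⟨⟨v, hvker⟩, ?_⟩
        intro hc
        exact hv0 (congrArg Subtype.val hc)
      have hrn : Module.finrank K (LinearMap.range h) + Module.finrank K (LinearMap.ker h) = n := by
        rw [← hn]; exact LinearMap.finrank_range_add_finrank_ker h
      have hcomp : (LinearMap.range h).subtype ∘ₗ h.rangeRestrict = h :=
        LinearMap.subtype_comp_codRestrict _ _ _
      have h1 := h_zd K V (LinearMap.range h) (LinearMap.range h).subtype h.rangeRestrict
        (Submodule.injective_subtype _) (LinearMap.surjective_rangeRestrict h)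
      rw [hcomp] at h1
      have h2 : zd (K := K) (S := Module.End K (LinearMap.range h))
          (h.rangeRestrict ∘ₗ (LinearMap.range h).subtype) ≤
          m * Module.finrank K (LinearMap.range h) := by
        refine ih _ (by omega) (LinearMap.range h) _ rfl ?_
        intro y
        refine le_trans ?_ (ha (-x + y))
        -- the kernel embeds
        let F : LinearMap.ker ((h.rangeRestrict ∘ₗ (LinearMap.range h).subtype :
            Module.End K (LinearMap.range h)) +
            algebraMap K (Module.End K (LinearMap.range h)) y) →ₗ[K]
            LinearMap.ker (a + algebraMap K (Module.End K V) (-x + y)) :=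
          LinearMap.codRestrict _ ((LinearMap.range h).subtype ∘ₗ Submodule.subtype _) (by
            rintro ⟨u, hu⟩
            rw [LinearMap.mem_ker] at hu ⊢
            have hu2 := congrArg (fun t : LinearMap.range h => (t : V)) hu
            simp only [LinearMap.add_apply, Module.algebraMap_end_apply, Submodule.coe_add,
              LinearMap.comp_apply, Submodule.coe_smul, Submodule.coe_subtype,
              ZeroMemClass.coe_zero] at hu2
            rw [map_add, ← add_assoc, ← hh, LinearMap.add_apply, Module.algebraMap_end_apply]
            exact hu2)
        have hF : Function.Injective F := by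
          intro p q hpq
          have := congrArg Subtype.val hpq
          apply Subtype.ext
          apply Subtype.ext
          exact this
        exact LinearMap.finrank_le_finrank_of_injective hF
      have h3 : Module.finrank K V - Module.finrank K (LinearMap.range h) =
          Module.finrank K (LinearMap.ker h) := by omega
      rw [h3, hzh] at h1
      rw [h1]
      calc zd (K := K) (S := Module.End K (LinearMap.range h))
            (h.rangeRestrict ∘ₗ (LinearMap.range h).subtype) +
            Module.finrank K (LinearMap.ker h) ^ 2
          ≤ m * Module.finrank K (LinearMap.range h) +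
            m * Module.finrank K (LinearMap.ker h) := by
            refine Nat.add_le_add h2 ?_
            rw [pow_two]
            exact Nat.mul_le_mul_right _ hkerm
        _ = m * n := by rw [← Nat.mul_add, hrn]

end Pool.Agent.MP_a57f33_nt.RG
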