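import Pool.Agent.Lib.MP_a57f33_nt.RG.Stm

/-!
# Project RG (MP_a57f33_nt), piece sco: Scott's lemma for three maps
-/

namespace Pool.Agent.MP_a57f33_nt.RG

theorem p_sco (h_ir : S_ir) : S_sco := by
  intro K V _ _ _ _ a b hirr h2
  obtain ⟨hsup, hinf, -, -⟩ := h_ir K V a b hirr h2
  let α : (LinearMap.range a × LinearMap.range b) →ₗ[K] V :=
    (LinearMap.range a).subtype.coprod (LinearMap.range b).subtype
  let β : V →ₗ[K] (LinearMap.range a × LinearMap.range b) :=
    a.rangeRestrict.prod b.rangeRestrict
  have hα : LinearMap.range α = ⊤ := by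
    rw [LinearMap.range_coprod, Submodule.range_subtype, Submodule.range_subtype, hsup]
  have hβ : ∀ v : V, β v = 0 → v = 0 := by
    intro v hv
    have h1 : a v = 0 := congrArg (fun t => ((Prod.fst t : LinearMap.range a) : V)) hv
    have h3 : b v = 0 := congrArg (fun t => ((Prod.snd t : LinearMap.range b) : V)) hv
    have : v ∈ LinearMap.ker a ⊓ LinearMap.ker b := ⟨h1, h3⟩
    rw [hinf] at this
    exact (Submodule.mem_bot K).mp this
  have hαβ : ∀ v : V, α (β v) = a v + b v := fun v => rfl
  -- `β` maps the kernel of `a + b` to the kernel of `α`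
  let γ : LinearMap.ker (a + b) →ₗ[K] LinearMap.ker α :=
    (β.domRestrict (LinearMap.ker (a + b))).codRestrict (LinearMap.ker α) (fun v => by
      have hv : (a + b) (v : V) = 0 := v.2
      exact hv)
  have hγ : Function.Injective γ := by
    rw [← LinearMap.ker_eq_bot, Submodule.eq_bot_iff]
    intro v hv
    have h1 : γ v = 0 := hv
    have h3 : β (v : V) = 0 := congrArg Subtype.val h1
    exact Subtype.ext (hβ v h3)
  have e1 := LinearMap.finrank_le_finrank_of_injective hγ
  have e2 := LinearMap.finrank_range_add_finrank_ker (a + b)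
  have e3 := LinearMap.finrank_range_add_finrank_ker α
  rw [hα, finrank_top, Module.finrank_prod] at e3
  omega

end Pool.Agent.MP_a57f33_nt.RG
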