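import Pool.Agent.Lib.MP_a57f33_nt.RG.Stm3

/-!
# Project RG (MP_a57f33_nt), piece [sev]: simple eigenvalues give marked vectors
-/

namespace Pool.Agent.MP_a57f33_nt.RG

open Pool.Agent.MP_a57f33_nt

private theorem sev_aeval {K V : Type} [Field K] [AddCommGroup V] [Module K V]
    (a : Module.End K V) (x : K) (v : V) (hv : a v = x • v) (q : Polynomial K) :
    Polynomial.aeval a q v = q.eval x • v := by
  induction q using Polynomial.induction_on' with
  | add p q hp hq => rw [map_add, LinearMap.add_apply, hp, hq, Polynomial.eval_add, add_smul]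
  | monomial n r =>
    rw [Polynomial.aeval_monomial, Polynomial.eval_monomial, Module.End.mul_apply,
      Module.algebraMap_end_apply, mul_smul]
    congr 1
    induction n with
    | zero => simp
    | succ n ih => rw [pow_succ', Module.End.mul_apply, ih, map_smul, hv, smul_smul, pow_succ]

theorem p_sev : S_sev := by
  intro K _ V _ _ _ a x hx
  set c : Module.End K V := a - algebraMap K (Module.End K V) x with hcdef
  have hcv : ∀ v, c v = a v - x • v := by
    intro v
    simp [hcdef, Module.algebraMap_end_apply]
  have hE : Module.finrank K (Module.End.maxGenEigenspace a x) = 1 := by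
    rw [LinearMap.finrank_maxGenEigenspace_eq, hx]
  have hker : LinearMap.ker c = Module.End.eigenspace a x := by
    ext v
    rw [LinearMap.mem_ker, Module.End.mem_eigenspace_iff, hcv, sub_eq_zero]
  have hroot : (LinearMap.charpoly a).IsRoot x := by
    have : 0 < (LinearMap.charpoly a).rootMultiplicity x := by rw [hx]; exact one_pos
    exact (Polynomial.rootMultiplicity_pos (LinearMap.charpoly_monic a).ne_zero).1 this
  have hev : Module.End.HasEigenvalue a x :=
    (Module.End.hasEigenvalue_iff_isRoot_charpoly a x).2 hroot
  have hle : LinearMap.ker c ≤ Module.End.maxGenEigenspace a x := by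
    rw [hker]
    exact (Module.End.genEigenspace a x).mono le_top
  have hkne : LinearMap.ker c ≠ ⊥ := by
    rw [hker]; exact hev
  have hk1 : Module.finrank K (LinearMap.ker c) = 1 := by
    have h1 : Module.finrank K (LinearMap.ker c) ≤ 1 := by
      rw [← hE]; exact Submodule.finrank_mono hle
    have h2 : 0 < Module.finrank K (LinearMap.ker c) := by
      rw [Nat.pos_iff_ne_zero]
      intro h0
      exact hkne (Submodule.finrank_eq_zero.1 h0)
    omega
  -- the cofactor
  obtain ⟨q, hq, hqd⟩ := Polynomial.exists_eq_pow_rootMultiplicity_mul_and_not_dvd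
    (LinearMap.charpoly a) (LinearMap.charpoly_monic a).ne_zero x
  rw [hx, pow_one] at hq
  have hqx : q.eval x ≠ 0 := by
    intro h
    exact hqd (Polynomial.dvd_iff_isRoot.2 h)
  have hca : (Polynomial.aeval a (Polynomial.X - Polynomial.C x) : Module.End K V) = c := by
    rw [map_sub, Polynomial.aeval_X, Polynomial.aeval_C]
  have hcq : c * Polynomial.aeval a q = 0 := by
    rw [← hca, ← map_mul, ← hq]
    exact LinearMap.aeval_self_charpoly a
  have hqc : Polynomial.aeval a q * c = 0 := by
    rw [← hca, ← map_mul, mul_comm q, ← hq]
    exact LinearMap.aeval_self_charpoly a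
  have hrk : LinearMap.range (Polynomial.aeval a q) ≤ LinearMap.ker c := by
    rintro v ⟨u, rfl⟩
    rw [LinearMap.mem_ker]
    exact congrArg (fun g : Module.End K V => g u) hcq
  refine ⟨?_, ?_⟩
  · intro v hv0 hv
    refine ⟨hv0, q, ?_⟩
    have hvk : v ∈ LinearMap.ker c := by
      rw [LinearMap.mem_ker, hcv, hv, sub_self]
    have h1 : Submodule.span K {v} ≤ LinearMap.range (Polynomial.aeval a q) := by
      rw [Submodule.span_singleton_le_iff_mem]
      refine ⟨(q.eval x)⁻¹ • v, ?_⟩
      rw [map_smul, sev_aeval a x v hv q, smul_smul, inv_mul_cancel₀ hqx, one_smul]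
    have h2 : Submodule.span K {v} = LinearMap.ker c := by
      apply Submodule.eq_of_le_of_finrank_eq
      · rw [Submodule.span_singleton_le_iff_mem]
        exact hvk
      · rw [hk1, finrank_span_singleton hv0]
    exact le_antisymm (hrk.trans h2.ge) h1
  · intro η hη0 hη
    refine ⟨hη0, q, ?_⟩
    have hηr : LinearMap.range c ≤ LinearMap.ker η := by
      rintro v ⟨u, rfl⟩
      rw [LinearMap.mem_ker, hcv, map_sub, map_smul]
      have := congrArg (fun g : V →ₗ[K] K => g u) hη
      simp only [LinearMap.comp_apply, LinearMap.smul_apply] at this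
      rw [this, sub_self]
    have hqr : LinearMap.range c ≤ LinearMap.ker (Polynomial.aeval a q) := by
      rintro v ⟨u, rfl⟩
      rw [LinearMap.mem_ker]
      exact congrArg (fun g : Module.End K V => g u) hqc
    have hsum : Module.finrank K (LinearMap.range c) + 1 = Module.finrank K V := by
      rw [← LinearMap.finrank_range_add_finrank_ker c, hk1]
    have hηk : LinearMap.ker η ≠ ⊤ := by
      intro h
      exact hη0 (LinearMap.ker_eq_top.1 h)
    have hqk : LinearMap.ker (Polynomial.aeval a q) ≠ ⊤ := by
      intro h
      obtain ⟨v, hv, hv0⟩ := hev.exists_hasEigenvector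
      have hv' : a v = x • v := Module.End.mem_eigenspace_iff.1 hv
      have h1 := sev_aeval a x v hv' q
      have h2 : v ∈ LinearMap.ker (Polynomial.aeval a q) := by rw [h]; exact Submodule.mem_top
      rw [LinearMap.mem_ker.1 h2] at h1
      rcases smul_eq_zero.1 h1.symm with h3 | h3
      · exact hqx h3
      · exact hv0 h3
    have e1 : LinearMap.range c = LinearMap.ker η := by
      apply Submodule.eq_of_le_of_finrank_eq hηr
      have h1 := Submodule.finrank_mono hηr
      have h2 := Submodule.finrank_lt hηk
      omega
    have e2 : LinearMap.range c = LinearMap.ker (Polynomial.aeval a q) := by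
      apply Submodule.eq_of_le_of_finrank_eq hqr
      have h1 := Submodule.finrank_mono hqr
      have h2 := Submodule.finrank_lt hqk
      omega
    rw [← e2, e1]

end Pool.Agent.MP_a57f33_nt.RG
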