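import Pool.Agent.Lib.MP_a57f33_nt.RG.Stm3

/-!
Project RG (MP_a57f33_nt), piece [stf]: the stuffle product with `(1 - t y₁)^(-1)`.
-/

namespace Pool.Agent.MP_a57f33_nt.RG

open Pool.Agent.MP_a57f33_nt

private lemma stf_SY_zero {M : Type} [AddCommMonoid M] (F : List ℕ+ → M) : SY 0 F = F [] := by
  rw [SY]

private lemma stf_SY_succ {M : Type} [AddCommMonoid M] (n : ℕ) (F : List ℕ+ → M) :
    SY (n + 1) F = ∑ a ∈ Finset.range (n + 1), SY (n - a) (fun u => F (Nat.succPNat a :: u)) := by
  rw [SY]
  exact Fin.sum_univ_eq_sum_range (fun a => SY (n - a) (fun u => F (Nat.succPNat a :: u))) (n + 1)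

private lemma stf_SY_map {M M' : Type} [AddCommMonoid M] [AddCommMonoid M'] (φ : M →+ M') (n : ℕ) :
    ∀ F : List ℕ+ → M, SY n (fun u => φ (F u)) = φ (SY n F) := by
  induction n using Nat.strong_induction_on with
  | _ n ih =>
    intro F
    rcases n with _ | n
    · rw [stf_SY_zero, stf_SY_zero]
    · rw [stf_SY_succ, stf_SY_succ, map_sum]
      refine Finset.sum_congr rfl fun a _ => ?_
      exact ih (n - a) (by omega) _

private lemma stf_SY_add {M : Type} [AddCommMonoid M] (n : ℕ) :
    ∀ F G : List ℕ+ → M, SY n (fun u => F u + G u) = SY n F + SY n G := by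
  induction n using Nat.strong_induction_on with
  | _ n ih =>
    intro F G
    rcases n with _ | n
    · rw [stf_SY_zero, stf_SY_zero, stf_SY_zero]
    · rw [stf_SY_succ, stf_SY_succ, stf_SY_succ, ← Finset.sum_add_distrib]
      refine Finset.sum_congr rfl fun a _ => ?_
      exact ih (n - a) (by omega) _ _

section main

variable {K k V : Type} [Field K] [CommRing k] [Algebra K k] [AddCommGroup V] [Module K V]

private lemma stf_SY_smul (t : K) (n : ℕ) (F : List ℕ+ → k) :
    SY n (fun u => t • F u) = t • SY n F :=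
  stf_SY_map (DistribSMul.toAddMonoidHom k t) n F

private lemma stf_hv (h : ℕ → Module.End K V) (y : V) (η : V →ₗ[K] K) (a : ℕ) (u : List ℕ+) :
    η (hv h y (Nat.succPNat a :: u)) = (η ∘ₗ h a) (hv h y u) := by
  rw [hv, Nat.succPNat_coe, Nat.succ_sub_one]
  rfl

/-- sum over `u` of weight `M` of the product of `u` and `1^j` -/
private def stf_A (h : ℕ → Module.End K V) (y : V) (j M : ℕ) (η : V →ₗ[K] K)
    (G : List ℕ+ → k) : k :=
  SY M (fun u => (η (hv h y u)) • ((Cyc.stuffle u (List.replicate j 1)).map G).sum)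

/-- the sum over the words of weight `M` -/
private def stf_B (h : ℕ → Module.End K V) (y : V) (M : ℕ) (η : V →ₗ[K] K)
    (G : List ℕ+ → k) : k :=
  SY M (fun u => (η (hv h y u)) • G u)

private lemma stf_A_zero (h : ℕ → Module.End K V) (y : V) (M : ℕ) (η : V →ₗ[K] K)
    (G : List ℕ+ → k) : stf_A h y 0 M η G = stf_B h y M η G := by
  unfold stf_A stf_B
  congr 1
  funext u
  rcases u with _ | ⟨a, u⟩
  · simp [Cyc.stuffle]
  · simp [Cyc.stuffle]

private lemma stf_B_succ (h : ℕ → Module.End K V) (y : V) (M : ℕ) (η : V →ₗ[K] K)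
    (G : List ℕ+ → k) : stf_B h y (M + 1) η G =
      ∑ a ∈ Finset.range (M + 1), stf_B h y (M - a) (η ∘ₗ h a) (fun u => G (Nat.succPNat a :: u)) := by
  unfold stf_B
  rw [stf_SY_succ]
  refine Finset.sum_congr rfl fun a _ => ?_
  simp only [stf_hv]

private lemma stf_one_add (a : ℕ) : Nat.succPNat a + 1 = Nat.succPNat (a + 1) := rfl

private lemma stf_A_succ (h : ℕ → Module.End K V) (y : V) (j M : ℕ) (η : V →ₗ[K] K)
    (G : List ℕ+ → k) : stf_A h y (j + 1) M η G =
      ∑ a ∈ Finset.range M, stf_A h y (j + 1) (M - 1 - a) (η ∘ₗ h a)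
        (fun u => G (Nat.succPNat a :: u)) +
      stf_A h y j M η (fun u => G (1 :: u)) +
      ∑ a ∈ Finset.range M, stf_A h y j (M - 1 - a) (η ∘ₗ h a)
        (fun u => G (Nat.succPNat (a + 1) :: u)) := by
  rcases M with _ | M
  · unfold stf_A
    rw [stf_SY_zero, stf_SY_zero]
    simp [Cyc.stuffle, List.replicate_succ]
  · unfold stf_A
    rw [stf_SY_succ, stf_SY_succ, ← Finset.sum_add_distrib, ← Finset.sum_add_distrib]
    refine Finset.sum_congr rfl fun a _ => ?_
    rw [Nat.add_sub_cancel, ← stf_SY_add, ← stf_SY_add]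
    congr 1
    funext u
    rw [stf_hv, List.replicate_succ, Cyc.stuffle, List.map_append, List.map_append, List.sum_append,
      List.sum_append, smul_add, smul_add, stf_one_add]
    simp only [List.map_map]
    rfl

/-- the left side -/
private def stf_C (h : ℕ → Module.End K V) (y : V) (t : K) (N : ℕ) (η : V →ₗ[K] K)
    (G : List ℕ+ → k) : k :=
  ∑ j ∈ Finset.range (N + 1), t ^ j • stf_A h y j (N - j) η G

private lemma stf_C_succ (h : ℕ → Module.End K V) (y : V) (t : K) (N : ℕ) (η : V →ₗ[K] K)
    (G : List ℕ+ → k) : stf_C h y t (N + 1) η G =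
      ∑ a ∈ Finset.range (N + 1), stf_C h y t (N - a) (η ∘ₗ h a)
        (fun u => G (Nat.succPNat a :: u)) +
      t • stf_C h y t N η (fun u => G (1 :: u)) +
      t • ∑ a ∈ Finset.range N, stf_C h y t (N - 1 - a) (η ∘ₗ h a)
        (fun u => G (Nat.succPNat (a + 1) :: u)) := by
  have h1 : stf_C h y t (N + 1) η G =
      ∑ j ∈ Finset.range (N + 1), ∑ a ∈ Finset.range (N + 1 - j),
        t ^ j • stf_A h y j (N - j - a) (η ∘ₗ h a) (fun u => G (Nat.succPNat a :: u)) +
      ∑ j ∈ Finset.range (N + 1), t ^ (j + 1) • stf_A h y j (N - j) η (fun u => G (1 :: u)) +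
      ∑ j ∈ Finset.range (N + 1), ∑ a ∈ Finset.range (N - j),
        t ^ (j + 1) • stf_A h y j (N - j - 1 - a) (η ∘ₗ h a)
          (fun u => G (Nat.succPNat (a + 1) :: u)) := by
    unfold stf_C
    rw [Finset.sum_range_succ']
    have e0 : t ^ 0 • stf_A h y 0 (N + 1 - 0) η G = ∑ a ∈ Finset.range (N + 1),
        t ^ 0 • stf_A h y 0 (N - 0 - a) (η ∘ₗ h a) (fun u => G (Nat.succPNat a :: u)) := by
      rw [pow_zero, one_smul, stf_A_zero, Nat.sub_zero, stf_B_succ]
      refine Finset.sum_congr rfl fun a _ => ?_
      rw [one_smul, stf_A_zero, Nat.sub_zero]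
    have e1 : ∀ j ∈ Finset.range (N + 1), t ^ (j + 1) • stf_A h y (j + 1) (N + 1 - (j + 1)) η G =
        ∑ a ∈ Finset.range (N - j), t ^ (j + 1) • stf_A h y (j + 1) (N - (j + 1) - a) (η ∘ₗ h a)
          (fun u => G (Nat.succPNat a :: u)) +
        t ^ (j + 1) • stf_A h y j (N - j) η (fun u => G (1 :: u)) +
        ∑ a ∈ Finset.range (N - j), t ^ (j + 1) • stf_A h y j (N - j - 1 - a) (η ∘ₗ h a)
          (fun u => G (Nat.succPNat (a + 1) :: u)) := by
      intro j hj
      rw [show N + 1 - (j + 1) = N - j from by omega, stf_A_succ, smul_add, smul_add,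
        Finset.smul_sum, Finset.smul_sum]
      congr 2
    rw [Finset.sum_congr rfl e1, Finset.sum_add_distrib, Finset.sum_add_distrib, e0,
      Finset.sum_range_succ' (fun j => ∑ a ∈ Finset.range (N + 1 - j),
        t ^ j • stf_A h y j (N - j - a) (η ∘ₗ h a) (fun u => G (Nat.succPNat a :: u))) N]
    rw [Finset.sum_range_succ (fun j => ∑ a ∈ Finset.range (N - j), t ^ (j + 1) •
      stf_A h y (j + 1) (N - (j + 1) - a) (η ∘ₗ h a) (fun u => G (Nat.succPNat a :: u))) N]
    simp only [Nat.sub_self, Finset.range_zero, Finset.sum_empty, add_zero, Nat.sub_zero,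
      Nat.add_sub_add_right]
    abel
  rw [h1]
  congr 1
  · congr 1
    · unfold stf_C
      rw [Finset.sum_comm' (s := Finset.range (N + 1)) (t := fun j => Finset.range (N + 1 - j))
        (t' := Finset.range (N + 1)) (s' := fun a => Finset.range (N + 1 - a))]
      · refine Finset.sum_congr rfl fun a ha => ?_
        rw [Finset.mem_range] at ha
        rw [show N - a + 1 = N + 1 - a from by omega]
        refine Finset.sum_congr rfl fun j _ => ?_
        rw [show N - j - a = N - a - j from by omega]
      · intro x z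
        simp only [Finset.mem_range]
        omega
    · unfold stf_C
      rw [Finset.smul_sum]
      refine Finset.sum_congr rfl fun j _ => ?_
      rw [smul_smul, pow_succ']
  · unfold stf_C
    rw [Finset.sum_comm' (s := Finset.range (N + 1)) (t := fun j => Finset.range (N - j))
      (t' := Finset.range N) (s' := fun a => Finset.range (N - a))]
    · rw [Finset.smul_sum]
      refine Finset.sum_congr rfl fun a ha => ?_
      rw [Finset.mem_range] at ha
      rw [show N - 1 - a + 1 = N - a from by omega, Finset.smul_sum]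
      refine Finset.sum_congr rfl fun j _ => ?_
      rw [show N - j - 1 - a = N - 1 - a - j from by omega, smul_smul, pow_succ']
    · intro x z
      simp only [Finset.mem_range]
      omega

/-- the claim -/
private lemma stf_claim (h : ℕ → Module.End K V) (y : V) (t : K) (N : ℕ) :
    ∀ (η : V →ₗ[K] K) (G : List ℕ+ → k), stf_C h y t N η G =
      stf_B (fun j => h j + t • (if j = 0 then 1 else h (j - 1))) y N η G := by
  induction N using Nat.strong_induction_on with
  | _ N ih =>
    intro η G
    rcases N with _ | N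
    · unfold stf_C
      rw [Finset.sum_range_one, pow_zero, one_smul, stf_A_zero]
      unfold stf_B
      rw [stf_SY_zero, stf_SY_zero]
      rfl
    · rw [stf_C_succ, stf_B_succ]
      set h' : ℕ → Module.End K V := fun j => h j + t • (if j = 0 then 1 else h (j - 1)) with hh'
      have hlin : ∀ (M : ℕ) (η₁ η₂ : V →ₗ[K] K) (G : List ℕ+ → k),
          stf_B h' y M (η₁ + t • η₂) G = stf_B h' y M η₁ G + t • stf_B h' y M η₂ G := by
        intro M η₁ η₂ G
        unfold stf_B
        rw [← stf_SY_smul, ← stf_SY_add]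
        congr 1
        funext u
        rw [LinearMap.add_apply, LinearMap.smul_apply, add_smul, smul_smul, smul_eq_mul]
      have e1 : ∀ a ∈ Finset.range (N + 1), stf_B h' y (N - a) (η ∘ₗ h' a)
          (fun u => G (Nat.succPNat a :: u)) =
          stf_B h' y (N - a) (η ∘ₗ h a) (fun u => G (Nat.succPNat a :: u)) +
          t • stf_B h' y (N - a) (η ∘ₗ (if a = 0 then 1 else h (a - 1) : Module.End K V))
            (fun u => G (Nat.succPNat a :: u)) := by
        intro a _
        rw [← hlin]
        congr 1
        rw [hh']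
        ext x
        show η ((h a + t • (if a = 0 then 1 else h (a - 1))) x) = _
        rw [LinearMap.add_apply, LinearMap.smul_apply, map_add, map_smul]
        rfl
      rw [Finset.sum_congr rfl e1, Finset.sum_add_distrib, ← Finset.smul_sum, add_assoc, ← smul_add]
      congr 1
      · refine Finset.sum_congr rfl fun a _ => ?_
        exact ih (N - a) (by omega) _ _
      · congr 1
        rw [Finset.sum_range_succ', add_comm]
        congr 1
        · refine Finset.sum_congr rfl fun a ha => ?_
          rw [Finset.mem_range] at ha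
          rw [ih (N - 1 - a) (by omega), show N - 1 - a = N - (a + 1) from by omega]
          simp
        · rw [ih N (by omega), if_pos rfl, Nat.sub_zero]
          rfl

end main

private lemma stf_ins (j : ℕ) {k : Type} [CommRing k] : ∀ c : List Bool → k,
    Cyc.insK true (List.replicate j true) c = ((j : k) + 1) * c (List.replicate (j + 1) true) := by
  induction j with
  | zero =>
    intro c
    simp [Cyc.insK]
  | succ j ih =>
    intro c
    rw [List.replicate_succ, Cyc.insK, ih]
    simp only [List.replicate_succ]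
    push_cast
    ring

private lemma stf_toX (j : ℕ) : toX (List.replicate j 1) = List.replicate j true := by
  induction j with
  | zero => rfl
  | succ j ih =>
    rw [List.replicate_succ, toX, ih, List.replicate_succ]
    simp

theorem p_stf : S_stf := by
  intro K k V _ _ _ _ _ _ γ Z hZ h y η t
  have hz : ∀ j : ℕ, Z (List.replicate (j + 1) true) = 0 := by
    intro j
    have h1 := hZ.ins_one (List.replicate j true)
    rw [stf_ins] at h1
    have h2 : (algebraMap K k (((j : K) + 1)⁻¹)) * ((j : k) + 1) = 1 := by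
      have h3 : ((j : k) + 1) = algebraMap K k ((j : K) + 1) := by simp
      rw [h3, ← map_mul, inv_mul_cancel₀ (Nat.cast_add_one_ne_zero j), map_one]
    calc Z (List.replicate (j + 1) true) = ((algebraMap K k (((j : K) + 1)⁻¹)) * ((j : k) + 1)) *
          Z (List.replicate (j + 1) true) := by rw [h2, one_mul]
      _ = (algebraMap K k (((j : K) + 1)⁻¹)) * (((j : k) + 1) *
          Z (List.replicate (j + 1) true)) := by ring
      _ = 0 := by rw [h1, mul_zero]
  have hg : ∀ j : ℕ, Cyc.star γ Z (List.replicate j 1) = γ j := by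
    intro j
    unfold Cyc.star
    rw [List.length_replicate, Finset.sum_eq_single j]
    · rw [if_pos (by simp)]
      simp [toX, hZ.one]
    · intro i hi hij
      rw [Finset.mem_range] at hi
      have : j - i = (j - i - 1) + 1 := by omega
      rw [List.drop_replicate, stf_toX, this, hz, mul_zero, ite_self]
    · intro hj
      exact absurd (Finset.mem_range.2 (Nat.lt_succ_self j)) hj
  ext N
  rw [mul_comm, PowerSeries.coeff_mul, Finset.Nat.sum_antidiagonal_eq_sum_range_succ
    (fun i j => PowerSeries.coeff i (gs γ t) * PowerSeries.coeff j (YV h y η (Cyc.star γ Z)))]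
  have h2 := stf_claim (k := k) h y t N η (Cyc.star γ Z)
  unfold stf_C stf_B at h2
  unfold YV gs
  simp only [PowerSeries.coeff_mk]
  rw [← h2]
  refine Finset.sum_congr rfl fun j _ => ?_
  rw [smul_mul_assoc]
  congr 1
  unfold stf_A
  have h3 : γ j * SY (N - j) (fun u => (η (hv h y u)) • Cyc.star γ Z u) =
      SY (N - j) (fun u => γ j * ((η (hv h y u)) • Cyc.star γ Z u)) :=
    (stf_SY_map (AddMonoidHom.mulLeft (γ j)) (N - j) _).symm
  rw [h3]
  congr 1
  funext u
  rw [hZ.stuffle_rel, hg, mul_smul_comm, mul_comm]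

end Pool.Agent.MP_a57f33_nt.RG
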