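import Pool.Agent.Lib.MP_a57f33_nt.RG.Stm3

/-!
# Project RG (MP_a57f33_nt), piece [stz]: the star relation
-/

namespace Pool.Agent.MP_a57f33_nt.RG

open Pool.Agent.MP_a57f33_nt

private theorem stz_SY_zero {M : Type} [AddCommMonoid M] (F : List ℕ+ → M) : SY 0 F = F [] := by
  rw [SY]

private theorem stz_SY_succ {M : Type} [AddCommMonoid M] (n : ℕ) (F : List ℕ+ → M) :
    SY (n + 1) F = ∑ j : Fin (n + 1), SY (n - (j : ℕ)) (fun u => F (Nat.succPNat (j : ℕ) :: u)) := by
  rw [SY]

private theorem stz_SY_add {M : Type} [AddCommMonoid M] (n : ℕ) (F G : List ℕ+ → M) :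
    SY n (fun u => F u + G u) = SY n F + SY n G := by
  induction n using Nat.strong_induction_on generalizing F G with
  | _ n ih =>
    cases n with
    | zero => rw [stz_SY_zero, stz_SY_zero, stz_SY_zero]
    | succ n =>
      rw [stz_SY_succ, stz_SY_succ, stz_SY_succ, ← Finset.sum_add_distrib]
      apply Finset.sum_congr rfl
      intro j _
      exact ih _ (by omega) _ _

private theorem stz_SY_hom {M N : Type} [AddCommMonoid M] [AddCommMonoid N] (φ : M →+ N) (n : ℕ)
    (F : List ℕ+ → M) : φ (SY n F) = SY n (fun u => φ (F u)) := by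
  induction n using Nat.strong_induction_on generalizing F with
  | _ n ih =>
    cases n with
    | zero => rw [stz_SY_zero, stz_SY_zero]
    | succ n =>
      rw [stz_SY_succ, stz_SY_succ, map_sum]
      apply Finset.sum_congr rfl
      intro j _
      exact ih _ (by omega) _

private theorem stz_SY_nul {M : Type} [AddCommMonoid M] (n : ℕ) :
    SY n (fun _ => (0 : M)) = 0 := by
  have := stz_SY_hom (0 : M →+ M) n (fun _ => (0 : M))
  simpa using this.symm

/-- The sum over the initial segments of ones. -/
private noncomputable def stz_psi {M : Type} [AddCommMonoid M] (Φ : ℕ → List ℕ+ → M) (u : List ℕ+) : M :=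
  ∑ i ∈ Finset.range (u.length + 1), if u.take i = List.replicate i 1 then Φ i (u.drop i) else 0

private theorem stz_psi_nil {M : Type} [AddCommMonoid M] (Φ : ℕ → List ℕ+ → M) :
    stz_psi Φ [] = Φ 0 [] := by
  simp [stz_psi]

private theorem stz_psi_cons {M : Type} [AddCommMonoid M] (Φ : ℕ → List ℕ+ → M) (a : ℕ+)
    (u : List ℕ+) : stz_psi Φ (a :: u) =
      Φ 0 (a :: u) + if a = 1 then stz_psi (fun i => Φ (i + 1)) u else 0 := by
  unfold stz_psi
  rw [List.length_cons, Finset.sum_range_succ', add_comm]
  congr 1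
  split_ifs with h
  · apply Finset.sum_congr rfl
    intro i _
    rw [List.take_succ_cons, List.replicate_succ, List.drop_succ_cons, h]
    simp only [List.cons.injEq, true_and]
  · apply Finset.sum_eq_zero
    intro i _
    rw [List.take_succ_cons, List.replicate_succ, if_neg]
    intro h1
    exact h (List.cons.inj h1).1

private theorem stz_main {M : Type} [AddCommMonoid M] (N : ℕ) (Φ : ℕ → List ℕ+ → M) :
    SY N (stz_psi Φ) = ∑ i ∈ Finset.range (N + 1), SY (N - i) (Φ i) := by
  induction N generalizing Φ with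
  | zero => simp [stz_SY_zero, stz_psi_nil]
  | succ N ih =>
    rw [Finset.sum_range_succ', stz_SY_succ]
    have h1 : ∀ j : Fin (N + 1), SY (N - (j : ℕ)) (fun u => stz_psi Φ (Nat.succPNat (j : ℕ) :: u)) =
        SY (N - (j : ℕ)) (fun u => Φ 0 (Nat.succPNat (j : ℕ) :: u)) +
        (if j = 0 then SY N (stz_psi (fun i => Φ (i + 1))) else 0) := by
      intro j
      have h2 : (fun u => stz_psi Φ (Nat.succPNat (j : ℕ) :: u)) = fun u =>
          Φ 0 (Nat.succPNat (j : ℕ) :: u) +
          (if Nat.succPNat (j : ℕ) = 1 then stz_psi (fun i => Φ (i + 1)) u else 0) := by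
        funext u
        exact stz_psi_cons Φ _ u
      rw [h2, stz_SY_add]
      congr 1
      by_cases hj : j = 0
      · subst hj
        have h4 : Nat.succPNat ((0 : Fin (N + 1)) : ℕ) = 1 := rfl
        rw [if_pos rfl]
        simp only [h4, if_true]
        rfl
      · have hj' : Nat.succPNat (j : ℕ) ≠ 1 := by
          intro h
          apply hj
          have h3 : ((Nat.succPNat (j : ℕ) : ℕ+) : ℕ) = ((1 : ℕ+) : ℕ) := by rw [h]
          rw [Nat.succPNat_coe] at h3
          apply Fin.ext
          simpa using h3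
        simp only [if_neg hj', if_neg hj]
        exact stz_SY_nul _
    rw [Finset.sum_congr rfl (fun j _ => h1 j), Finset.sum_add_distrib, ← stz_SY_succ,
      Finset.sum_ite_eq' Finset.univ (0 : Fin (N + 1)), if_pos (Finset.mem_univ _), ih, add_comm]
    congr 1
    apply Finset.sum_congr rfl
    intro i _
    rw [Nat.add_sub_add_right]

section

variable {K V : Type} [Field K] [AddCommGroup V] [Module K V]

private theorem stz_ev_rep (a b : Module.End K V) (n : ℕ) (w : List Bool) :
    BZ.ev a b (List.replicate n false ++ true :: w) = a ^ n * b * BZ.ev a b w := by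
  unfold BZ.ev
  rw [List.map_append, List.prod_append, List.map_replicate, List.prod_replicate, List.map_cons,
    List.prod_cons, mul_assoc]
  rfl

private theorem stz_ev_toX (a b : Module.End K V) (v : V) (u : List ℕ+) :
    BZ.ev a b (toX u) v = hv (fun j => a ^ j * b) v u := by
  induction u with
  | nil => simp [toX, BZ.ev, hv]
  | cons n u ih =>
    rw [toX, stz_ev_rep, hv, ← ih]
    rfl

private theorem stz_hv_one (a b : Module.End K V) (v : V) (η : V →ₗ[K] K) (t : K)
    (hη : η ∘ₗ b = t • η) (i : ℕ) (u : List ℕ+) :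
    η (hv (fun j => a ^ j * b) v (List.replicate i 1 ++ u)) =
      t ^ i * η (hv (fun j => a ^ j * b) v u) := by
  induction i with
  | zero => simp
  | succ i ih =>
    rw [List.replicate_succ, List.cons_append, hv]
    have h1 : ((1 : ℕ+) : ℕ) - 1 = 0 := rfl
    rw [h1, pow_zero, one_mul]
    have h2 := congrArg (fun g : V →ₗ[K] K =>
      g (hv (fun j => a ^ j * b) v (List.replicate i 1 ++ u))) hη
    simp only [LinearMap.comp_apply, LinearMap.smul_apply, smul_eq_mul] at h2
    rw [h2, ih, pow_succ]
    ring

end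

theorem p_stz (h_swy : S_swy) : S_stz := by
  intro K k V _ _ _ _ _ γ Z a b v η t hv0 hη
  apply PowerSeries.ext
  intro N
  rw [PowerSeries.coeff_mul]
  have hF : ∀ m : ℕ, PowerSeries.coeff m (FV a b v η Z) =
      SY m (fun u => (η (hv (fun j => a ^ j * b) v u)) • Z (toX u)) := by
    intro m
    unfold FV
    rw [PowerSeries.coeff_mk, h_swy]
    · congr 1
      funext u
      rw [stz_ev_toX]
    · intro w
      have : BZ.ev a b (w ++ [false]) v = 0 := by
        unfold BZ.ev
        rw [List.map_append, List.prod_append]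
        simp [hv0]
      rw [this, map_zero, zero_smul]
  have hG : ∀ i : ℕ, PowerSeries.coeff i (gs γ t) = t ^ i • γ i := by
    intro i
    unfold gs
    rw [PowerSeries.coeff_mk]
  have hL : ∑ p ∈ Finset.HasAntidiagonal.antidiagonal N, PowerSeries.coeff p.1 (gs γ t) *
      PowerSeries.coeff p.2 (FV a b v η Z) = ∑ i ∈ Finset.range (N + 1),
      SY (N - i) (fun u => (t ^ i • γ i) * ((η (hv (fun j => a ^ j * b) v u)) • Z (toX u))) := by
    rw [Finset.Nat.sum_antidiagonal_eq_sum_range_succ_mk]
    apply Finset.sum_congr rfl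
    intro i _
    rw [hG, hF]
    exact stz_SY_hom (AddMonoidHom.mulLeft (t ^ i • γ i)) _ _
  rw [hL, ← stz_main N (fun i u => (t ^ i • γ i) *
    ((η (hv (fun j => a ^ j * b) v u)) • Z (toX u)))]
  unfold YV
  rw [PowerSeries.coeff_mk]
  congr 1
  funext u
  unfold stz_psi Cyc.star
  rw [Finset.smul_sum]
  apply Finset.sum_congr rfl
  intro i _
  split_ifs with h
  · have hu : u = List.replicate i 1 ++ u.drop i := by
      conv_lhs => rw [← List.take_append_drop i u, h]
    have h1 : η (hv (fun j => a ^ j * b) v u) =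
        t ^ i * η (hv (fun j => a ^ j * b) v (u.drop i)) := by
      conv_lhs => rw [hu]
      exact stz_hv_one a b v η t hη i _
    rw [h1, mul_smul]
    show (t ^ i • γ i) * (_ • _) = _
    rw [smul_mul_assoc, mul_smul_comm]
  · rw [smul_zero]

end Pool.Agent.MP_a57f33_nt.RG
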