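import Pool.Agent.Lib.MP_a57f33_nt.RG.Stm3

set_option autoImplicit false

/-!
# Project RG, piece [trf]: the transfer rule
-/

namespace Pool.Agent.MP_a57f33_nt.RG

open Pool.Agent.MP_a57f33_nt

section

variable {K k X U0 U1 : Type} [Field K] [CharZero K] [CommRing k] [Algebra K k]
  [AddCommGroup X] [Module K X] [AddCommGroup U0] [Module K U0] [AddCommGroup U1] [Module K U1]

/-- The operators after the two stuffle steps. -/
private noncomputable def trf_g (A00 : Module.End K U0) (A10 : U0 →ₗ[K] U1) (A01 : U1 →ₗ[K] U0)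
    (A11 : Module.End K U1) (lam : K) : ℕ → Module.End K U1
  | 0 => lam • 1 - A11
  | j + 1 => -(A10 ∘ₗ ((A00 - lam • 1) ^ j) ∘ₗ A01)

omit [CharZero K] in
private theorem trf_pow (i0 : U0 →ₗ[K] X) (rho0 : X →ₗ[K] U0) (lam : K) (m : ℕ) (z : U0) :
    ((i0 ∘ₗ rho0 + algebraMap K (Module.End K X) (-lam) : Module.End K X) ^ m) (i0 z) =
      i0 (((rho0 ∘ₗ i0 - lam • 1 : Module.End K U0) ^ m) z) := by
  induction m generalizing z with
  | zero => rfl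
  | succ m ih =>
    rw [pow_succ, pow_succ, Module.End.mul_apply, Module.End.mul_apply]
    have h1 : (i0 ∘ₗ rho0 + algebraMap K (Module.End K X) (-lam) : Module.End K X) (i0 z) =
        i0 ((rho0 ∘ₗ i0 - lam • 1 : Module.End K U0) z) := by
      rw [LinearMap.add_apply, LinearMap.sub_apply, LinearMap.comp_apply, LinearMap.comp_apply,
        Module.algebraMap_end_apply, LinearMap.smul_apply, Module.End.one_apply, map_sub, map_smul,
        neg_smul, sub_eq_add_neg]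
    rw [h1]
    exact ih _

omit [CharZero K] in
private theorem trf_hv (rho1 : X →ₗ[K] U1) (h : ℕ → Module.End K X) (g : ℕ → Module.End K U1)
    (hg : ∀ j z, rho1 (h j z) = g j (rho1 z)) (v : X) : ∀ w : List ℕ+,
    rho1 (hv h v w) = hv g (rho1 v) w
  | [] => rfl
  | n :: w => by
    have ih := trf_hv rho1 h g hg v w
    have e1 : hv h v (n :: w) = h ((n : ℕ) - 1) (hv h v w) := rfl
    have e2 : hv g (rho1 v) (n :: w) = g ((n : ℕ) - 1) (hv g (rho1 v) w) := rfl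
    rw [e1, e2, hg, ih]

private theorem trf_side (h_tws : S_tws) (h_stz : S_stz) (h_stf : S_stf)
    (i0 : U0 →ₗ[K] X) (rho0 : X →ₗ[K] U0) (i1 : U1 →ₗ[K] X) (rho1 : X →ₗ[K] U1)
    (γ : ℕ → k) (Z : List Bool → k) (hZ : Cyc.RegDS γ Z) (v : X) (ζ : U1 →ₗ[K] K) (lam nu : K)
    (h1 : i0 (rho0 v) = lam • v) (h2 : ζ ∘ₗ rho1 ∘ₗ i1 = nu • ζ) :
    FV (i0 ∘ₗ rho0) (-(i1 ∘ₗ rho1)) v (ζ ∘ₗ rho1) Z * (gs γ lam * gs γ (-nu)) =
      YV (trf_g (rho0 ∘ₗ i0) (rho1 ∘ₗ i0) (rho0 ∘ₗ i1) (rho1 ∘ₗ i1) lam) (rho1 v) ζ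
        (Cyc.star γ Z) := by
  set a' : Module.End K X := i0 ∘ₗ rho0 + algebraMap K (Module.End K X) (-lam) with ha'
  have e1 := h_tws K k X γ Z hZ (i0 ∘ₗ rho0) (-(i1 ∘ₗ rho1)) v (ζ ∘ₗ rho1) (-lam) 0
  rw [map_zero, add_zero, ← ha'] at e1
  have hav : a' v = 0 := by
    rw [ha', LinearMap.add_apply, LinearMap.comp_apply, Module.algebraMap_end_apply, h1, neg_smul,
      add_neg_cancel]
  have hη : (ζ ∘ₗ rho1) ∘ₗ (-(i1 ∘ₗ rho1)) = (-nu) • (ζ ∘ₗ rho1) := by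
    ext z
    have h3 := LinearMap.congr_fun h2 (rho1 z)
    simp only [LinearMap.comp_apply, LinearMap.smul_apply] at h3
    simp only [LinearMap.comp_apply, LinearMap.neg_apply, map_neg, LinearMap.smul_apply, neg_smul]
    rw [h3]
  have e2 := h_stz K k X γ Z a' (-(i1 ∘ₗ rho1)) v (ζ ∘ₗ rho1) (-nu) hav hη
  set g : ℕ → Module.End K U1 := fun j => -(rho1 ∘ₗ (a' ^ j) ∘ₗ i1) with hg
  have hgh : ∀ j z, rho1 ((a' ^ j * (-(i1 ∘ₗ rho1)) : Module.End K X) z) = g j (rho1 z) := by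
    intro j z
    rw [hg, Module.End.mul_apply]
    simp only [LinearMap.neg_apply, LinearMap.comp_apply, map_neg]
  have e3 : YV (fun j => a' ^ j * (-(i1 ∘ₗ rho1))) v (ζ ∘ₗ rho1) (Cyc.star γ Z) =
      YV g (rho1 v) ζ (Cyc.star γ Z) := by
    unfold YV
    congr 1
    funext N
    congr 1
    funext w
    rw [LinearMap.comp_apply, trf_hv rho1 (fun j => a' ^ j * (-(i1 ∘ₗ rho1))) g hgh v w]
  have e4 := h_stf K k U1 γ Z hZ g (rho1 v) ζ lam
  have e5 : (fun j => g j + lam • (if j = 0 then 1 else g (j - 1))) =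
      trf_g (rho0 ∘ₗ i0) (rho1 ∘ₗ i0) (rho0 ∘ₗ i1) (rho1 ∘ₗ i1) lam := by
    funext j
    rcases j with _ | j
    · rw [if_pos rfl]
      have e6 : trf_g (rho0 ∘ₗ i0) (rho1 ∘ₗ i0) (rho0 ∘ₗ i1) (rho1 ∘ₗ i1) lam 0 =
          lam • 1 - rho1 ∘ₗ i1 := rfl
      have e7 : g 0 = -(rho1 ∘ₗ i1) := by
        rw [hg]
        beta_reduce
        rw [pow_zero]
        rfl
      rw [e6, e7, neg_add_eq_sub]
    · rw [if_neg (Nat.succ_ne_zero j), Nat.add_sub_cancel]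
      have e6 : trf_g (rho0 ∘ₗ i0) (rho1 ∘ₗ i0) (rho0 ∘ₗ i1) (rho1 ∘ₗ i1) lam (j + 1) =
          -((rho1 ∘ₗ i0) ∘ₗ ((rho0 ∘ₗ i0 - lam • 1) ^ j) ∘ₗ (rho0 ∘ₗ i1)) := rfl
      rw [e6, hg]
      ext z
      simp only [LinearMap.add_apply, LinearMap.neg_apply, LinearMap.smul_apply,
        LinearMap.comp_apply]
      have e8 := trf_pow i0 rho0 lam j (rho0 (i1 z))
      rw [← ha'] at e8
      rw [← e8, pow_succ, Module.End.mul_apply]
      have e9 : a' (i1 z) = i0 (rho0 (i1 z)) - lam • (i1 z) := by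
        rw [ha', LinearMap.add_apply, LinearMap.comp_apply, Module.algebraMap_end_apply, neg_smul,
          sub_eq_add_neg]
      rw [e9, map_sub, map_sub, map_smul, map_smul, smul_neg]
      abel
  rw [e5] at e4
  rw [← e1, ← e4, ← e3, ← e2]
  ring

end

theorem p_trf (h_tws : S_tws) (h_stz : S_stz) (h_stf : S_stf) : S_trf := by
  intro K k V U0 U1 W _ _ _ _ _ _ _ _ _ _ _ _ L γ Z hZ u ζ lam nu hu hζ
  have heq : ∀ z : U0 × U1, L.al (L.be z) =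
      (L.r0 (L.p0 z.1 + L.p1 z.2) + L.x • z.1, L.r1 (L.p0 z.1 + L.p1 z.2) + L.x • z.2) := by
    intro z
    have h1 := LinearMap.congr_fun L.eq z
    simp only [LinearMap.comp_apply, LinearMap.add_apply, LinearMap.smul_apply, LinearMap.id_apply,
      LinearMap.coprod_apply, LinearMap.prod_apply] at h1
    rw [h1]
    rfl
  set j0 : U0 →ₗ[K] W := L.be ∘ₗ LinearMap.inl K U0 U1 with hj0
  set j1 : U1 →ₗ[K] W := L.be ∘ₗ LinearMap.inr K U0 U1 with hj1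
  set s0 : W →ₗ[K] U0 := LinearMap.fst K U0 U1 ∘ₗ L.al with hs0
  set s1 : W →ₗ[K] U1 := LinearMap.snd K U0 U1 ∘ₗ L.al with hs1
  have k00 : ∀ z, s0 (j0 z) = L.r0 (L.p0 z) + L.x • z := by
    intro z
    rw [hs0, hj0]
    simp only [LinearMap.comp_apply, LinearMap.inl_apply]
    rw [heq, LinearMap.fst_apply]
    simp only [map_zero, add_zero]
  have k01 : ∀ z, s0 (j1 z) = L.r0 (L.p1 z) := by
    intro z
    rw [hs0, hj1]
    simp only [LinearMap.comp_apply, LinearMap.inr_apply]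
    rw [heq, LinearMap.fst_apply]
    simp only [map_zero, zero_add, smul_zero, add_zero]
  have k10 : ∀ z, s1 (j0 z) = L.r1 (L.p0 z) := by
    intro z
    rw [hs1, hj0]
    simp only [LinearMap.comp_apply, LinearMap.inl_apply]
    rw [heq, LinearMap.snd_apply]
    simp only [map_zero, add_zero, smul_zero]
  have k11 : ∀ z, s1 (j1 z) = L.r1 (L.p1 z) + L.x • z := by
    intro z
    rw [hs1, hj1]
    simp only [LinearMap.comp_apply, LinearMap.inr_apply]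
    rw [heq, LinearMap.snd_apply]
    simp only [map_zero, zero_add]
  have hA := trf_side h_tws h_stz h_stf L.p0 L.r0 L.p1 L.r1 γ Z hZ (L.p0 u) ζ lam nu
    (by rw [hu, map_smul]) hζ
  have hB := trf_side h_tws h_stz h_stf j0 s0 j1 s1 γ Z hZ (j0 u) ζ (lam + L.x) (nu + L.x)
    (by rw [k00, hu, ← add_smul, map_smul]) (by
      ext z
      have h3 := LinearMap.congr_fun hζ z
      simp only [LinearMap.comp_apply, LinearMap.smul_apply, smul_eq_mul] at h3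
      simp only [LinearMap.comp_apply, LinearMap.smul_apply, smul_eq_mul]
      rw [k11, map_add, map_smul, h3, smul_eq_mul, add_mul])
  have e1 : FV L.a0 (-L.a1) (L.p0 u) (ζ ∘ₗ L.r1) Z =
      FV (L.p0 ∘ₗ L.r0) (-(L.p1 ∘ₗ L.r1)) (L.p0 u) (ζ ∘ₗ L.r1) Z := rfl
  have e2 : FV L.b0 (-L.b1) (L.be (LinearMap.inl K U0 U1 u))
        (ζ ∘ₗ LinearMap.snd K U0 U1 ∘ₗ L.al) Z =
      FV (j0 ∘ₗ s0) (-(j1 ∘ₗ s1)) (j0 u) (ζ ∘ₗ s1) Z := rfl
  rw [e1, e2, hA, hB]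
  have e3 : trf_g (L.r0 ∘ₗ L.p0) (L.r1 ∘ₗ L.p0) (L.r0 ∘ₗ L.p1) (L.r1 ∘ₗ L.p1) lam =
      trf_g (s0 ∘ₗ j0) (s1 ∘ₗ j0) (s0 ∘ₗ j1) (s1 ∘ₗ j1) (lam + L.x) := by
    have q10 : s1 ∘ₗ j0 = L.r1 ∘ₗ L.p0 := LinearMap.ext k10
    have q01 : s0 ∘ₗ j1 = L.r0 ∘ₗ L.p1 := LinearMap.ext k01
    have q00 : (s0 ∘ₗ j0 - (lam + L.x) • 1 : Module.End K U0) = L.r0 ∘ₗ L.p0 - lam • 1 := by
      ext z
      simp only [LinearMap.sub_apply, LinearMap.comp_apply, LinearMap.smul_apply,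
        Module.End.one_apply]
      rw [k00, add_smul]
      abel
    have q11 : ((lam + L.x) • 1 - s1 ∘ₗ j1 : Module.End K U1) = lam • 1 - L.r1 ∘ₗ L.p1 := by
      ext z
      simp only [LinearMap.sub_apply, LinearMap.comp_apply, LinearMap.smul_apply,
        Module.End.one_apply]
      rw [k11, add_smul]
      abel
    funext j
    rcases j with _ | j
    · exact q11.symm
    · have e4 : trf_g (s0 ∘ₗ j0) (s1 ∘ₗ j0) (s0 ∘ₗ j1) (s1 ∘ₗ j1) (lam + L.x) (j + 1) =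
          -((s1 ∘ₗ j0) ∘ₗ ((s0 ∘ₗ j0 - (lam + L.x) • 1) ^ j) ∘ₗ (s0 ∘ₗ j1)) := rfl
      rw [e4, q10, q01, q00]
      rfl
  rw [e3, k10]

end Pool.Agent.MP_a57f33_nt.RG
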