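import Pool.Agent.Lib.MP_a57f33_nt.RG.Stm3

/-!
Piece [tws]: twist invariance of the series.
-/

namespace Pool.Agent.MP_a57f33_nt.RG

open Pool.Agent.MP_a57f33_nt

section words

variable {M : Type} [AddCommMonoid M]

private theorem tws_SW_congr : ∀ (n : ℕ) {f g : List Bool → M}, (∀ w, w.length = n → f w = g w) →
    BZ.SW n f = BZ.SW n g
  | 0, f, g, h => h [] rfl
  | n + 1, f, g, h => by
    simp only [BZ.SW]
    rw [tws_SW_congr n (fun w hw => h (false :: w) (by simp [hw])),
      tws_SW_congr n (fun w hw => h (true :: w) (by simp [hw]))]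

private theorem tws_SW_map {M' : Type} [AddCommMonoid M'] (φ : M →+ M') :
    ∀ (n : ℕ) (f : List Bool → M), BZ.SW n (fun w => φ (f w)) = φ (BZ.SW n f)
  | 0, _ => rfl
  | n + 1, f => by
    simp only [BZ.SW, map_add]
    rw [tws_SW_map φ n, tws_SW_map φ n]

private theorem tws_SW_add : ∀ (n : ℕ) (f g : List Bool → M),
    BZ.SW n (fun w => f w + g w) = BZ.SW n f + BZ.SW n g
  | 0, _, _ => rfl
  | n + 1, f, g => by
    simp only [BZ.SW]
    rw [tws_SW_add n (fun w => f (false :: w)), tws_SW_add n (fun w => f (true :: w)),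
      add_add_add_comm]

private theorem tws_SW_zero : ∀ (n : ℕ), BZ.SW n (fun _ => (0 : M)) = 0
  | 0 => rfl
  | n + 1 => by
    simp only [BZ.SW]
    rw [tws_SW_zero n, add_zero]

end words

section alg

variable {K k S : Type} [Field K] [CommRing k] [Algebra K k] [Ring S] [Algebra K S]

/-- The coefficients of the powers of `x`. -/
private def twsC (E : Bool → S) (l : Bool) : List Bool → ℕ → S
  | [], 0 => 1
  | [], _ + 1 => 0
  | i :: w, 0 => E i * twsC E l w 0
  | i :: w, r + 1 => E i * twsC E l w (r + 1) + if i = l then twsC E l w r else 0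

/-- `∑_{|w| = N} f(c r w) G(w)`. -/
private def twsQ (E : Bool → S) (l : Bool) (f : S →ₗ[K] K) (G : List Bool → k) (N r : ℕ) : k :=
  BZ.SW N fun w => (f (twsC E l w r)) • G w

private theorem twsQ_add (E : Bool → S) (l : Bool) (f : S →ₗ[K] K) (G G' : List Bool → k)
    (N r : ℕ) : twsQ E l f (fun w => G w + G' w) N r = twsQ E l f G N r + twsQ E l f G' N r := by
  unfold twsQ
  rw [← tws_SW_add]
  exact tws_SW_congr N fun w _ => smul_add _ _ _

private theorem twsQ_zero (E : Bool → S) (l : Bool) (f : S →ₗ[K] K) (N r : ℕ) :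
    twsQ E l f (fun _ => (0 : k)) N r = 0 := by
  unfold twsQ
  simp only [smul_zero]
  exact tws_SW_zero N

/-- Multiplication by `s` on the left. -/
private def twsL (f : S →ₗ[K] K) (s : S) : S →ₗ[K] K := f ∘ₗ LinearMap.mulLeft K s

private theorem twsQ_succ_zero (E : Bool → S) (l : Bool) (f : S →ₗ[K] K) (G : List Bool → k)
    (N : ℕ) : twsQ E l f G (N + 1) 0 =
      twsQ E l (twsL f (E false)) (fun w => G (false :: w)) N 0 +
        twsQ E l (twsL f (E true)) (fun w => G (true :: w)) N 0 := by
  simp only [twsQ, BZ.SW, twsC, twsL, LinearMap.comp_apply, LinearMap.mulLeft_apply]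

private theorem twsQ_succ_succ (E : Bool → S) (l : Bool) (f : S →ₗ[K] K) (G : List Bool → k)
    (N r : ℕ) : twsQ E l f G (N + 1) (r + 1) =
      twsQ E l (twsL f (E false)) (fun w => G (false :: w)) N (r + 1) +
        twsQ E l (twsL f (E true)) (fun w => G (true :: w)) N (r + 1) +
        twsQ E l f (fun w => G (l :: w)) N r := by
  cases l <;>
    simp only [twsQ, BZ.SW, twsC, twsL, LinearMap.comp_apply, LinearMap.mulLeft_apply, map_add,
      add_smul, tws_SW_add, if_true, reduceCtorEq, if_false, map_zero, zero_smul, tws_SW_zero] <;>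
    abel

/-- The main identity. -/
private theorem tws_claim (E : Bool → S) (l : Bool) : ∀ (N r : ℕ) (f : S →ₗ[K] K)
    (G : List Bool → k), (r + 1) • twsQ E l f G (N + 1) (r + 1) =
      twsQ E l f (fun w => Cyc.insK l w G) N r
  | 0, r, f, G => by
    rw [twsQ_succ_succ]
    have h1 : ∀ (f : S →ₗ[K] K) (G : List Bool → k), twsQ E l f G 0 (r + 1) = 0 := by
      intro f G
      simp [twsQ, BZ.SW, twsC]
    rw [h1, h1]
    cases r with
    | zero => simp [twsQ, BZ.SW, twsC, Cyc.insK]
    | succ r => simp [twsQ, BZ.SW, twsC, Cyc.insK]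
  | N + 1, r, f, G => by
    have ih0 := tws_claim E l N r (twsL f (E false)) (fun w => G (false :: w))
    have ih1 := tws_claim E l N r (twsL f (E true)) (fun w => G (true :: w))
    rw [twsQ_succ_succ, smul_add, smul_add, ih0, ih1]
    have e1 : (r + 1) • twsQ E l f (fun w => G (l :: w)) (N + 1) r =
        r • twsQ E l f (fun w => G (l :: w)) (N + 1) r +
          twsQ E l f (fun w => G (l :: w)) (N + 1) r := by
      rw [add_smul, one_smul]
    rw [e1]
    cases r with
    | zero =>
      rw [zero_smul, zero_add, twsQ_succ_zero E l f (fun w => Cyc.insK l w G),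
        twsQ_succ_zero E l f (fun w => G (l :: w))]
      simp only [Cyc.insK, twsQ_add]
      abel
    | succ r =>
      have ih := tws_claim E l N r f (fun w => G (l :: w))
      rw [ih, twsQ_succ_succ E l f (fun w => Cyc.insK l w G),
        twsQ_succ_succ E l f (fun w => G (l :: w))]
      simp only [Cyc.insK, twsQ_add]
      abel

private theorem tws_ev_eq (E : Bool → S) (l : Bool) (x : K) : ∀ (w : List Bool) (n : ℕ),
    w.length < n → (w.map fun i => E i + if i = l then algebraMap K S x else 0).prod =
      ∑ r ∈ Finset.range n, x ^ r • twsC E l w r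
  | [], n, hn => by
    obtain ⟨n, rfl⟩ : ∃ n', n = n' + 1 := ⟨n - 1, by simp at hn; omega⟩
    rw [Finset.sum_range_succ']
    simp [twsC]
  | i :: w, n, hn => by
    obtain ⟨n, rfl⟩ : ∃ n', n = n' + 1 := ⟨n - 1, by simp at hn; omega⟩
    have hn' : w.length < n := by simpa using hn
    have ih1 := tws_ev_eq E l x w (n + 1) (by omega)
    have ih0 := tws_ev_eq E l x w n hn'
    rw [Finset.sum_range_succ'] at ih1
    rw [List.map_cons, List.prod_cons, add_mul, Finset.sum_range_succ']
    simp only [twsC, smul_add, Finset.sum_add_distrib]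
    have e2 : E i * (w.map fun i => E i + if i = l then algebraMap K S x else 0).prod =
        ∑ r ∈ Finset.range n, x ^ (r + 1) • (E i * twsC E l w (r + 1)) +
          x ^ 0 • (E i * twsC E l w 0) := by
      rw [ih1, mul_add, Finset.mul_sum]
      simp only [mul_smul_comm]
    have e3 : (if i = l then algebraMap K S x else 0) *
        (w.map fun i => E i + if i = l then algebraMap K S x else 0).prod =
        ∑ r ∈ Finset.range n, x ^ (r + 1) • (if i = l then twsC E l w r else 0) := by
      split_ifs
      · rw [ih0, ← Algebra.smul_def, Finset.smul_sum]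
        apply Finset.sum_congr rfl
        intro r _
        rw [smul_smul, pow_succ']
      · simp
    rw [e2, e3]
    abel

private theorem tws_one [CharZero K] (E : Bool → S) (l : Bool) (f : S →ₗ[K] K)
    (Z : List Bool → k) (hZ : ∀ w, Cyc.insK l w Z = 0) (x : K) (N : ℕ) :
    BZ.SW N (fun w => (f ((w.map fun i => E i + if i = l then algebraMap K S x else 0).prod)) •
      Z w) = twsQ E l f Z N 0 := by
  have g1 : BZ.SW N (fun w =>
      (f ((w.map fun i => E i + if i = l then algebraMap K S x else 0).prod)) • Z w) =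
      ∑ r ∈ Finset.range (N + 1), x ^ r • twsQ E l f Z N r := by
    have g2 : ∀ n, BZ.SW N (fun w => ∑ r ∈ Finset.range n, x ^ r • (f (twsC E l w r) • Z w)) =
        ∑ r ∈ Finset.range n, x ^ r • twsQ E l f Z N r := by
      intro n
      induction n with
      | zero => simp only [Finset.range_zero, Finset.sum_empty]; exact tws_SW_zero N
      | succ n ih =>
        simp only [Finset.sum_range_succ]
        rw [tws_SW_add, ih]
        congr 1
        exact tws_SW_map (DistribSMul.toAddMonoidHom k (x ^ n)) N _
    rw [← g2]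
    apply tws_SW_congr
    intro w hw
    rw [tws_ev_eq E l x w (N + 1) (by omega), map_sum, Finset.sum_smul]
    apply Finset.sum_congr rfl
    intro r _
    rw [map_smul, smul_assoc]
  rw [g1, Finset.sum_range_succ', pow_zero, one_smul]
  have g4 : ∀ r, twsQ E l f Z N (r + 1) = 0 := by
    intro r
    cases N with
    | zero => simp [twsQ, BZ.SW, twsC]
    | succ m =>
      have hc := tws_claim E l m r f Z
      have h0 : twsQ E l f (fun w => Cyc.insK l w Z) m r = 0 := by
        simp only [hZ]
        exact twsQ_zero E l f m r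
      rw [h0] at hc
      have hc' : ((r + 1 : ℕ) : K) • twsQ E l f Z (m + 1) (r + 1) = 0 := by
        rw [Nat.cast_smul_eq_nsmul]; exact hc
      have hne : ((r + 1 : ℕ) : K) ≠ 0 := Nat.cast_ne_zero.mpr (Nat.succ_ne_zero r)
      calc twsQ E l f Z (m + 1) (r + 1)
          = ((r + 1 : ℕ) : K)⁻¹ • (((r + 1 : ℕ) : K) • twsQ E l f Z (m + 1) (r + 1)) := by
            rw [smul_smul, inv_mul_cancel₀ hne, one_smul]
        _ = 0 := by rw [hc', smul_zero]
  simp only [g4, smul_zero, Finset.sum_const_zero, zero_add]

private theorem tws_two [CharZero K] (E : Bool → S) (l : Bool) (f : S →ₗ[K] K)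
    (Z : List Bool → k) (hZ : ∀ w, Cyc.insK l w Z = 0) (x : K) (N : ℕ) :
    BZ.SW N (fun w => (f ((w.map fun i => E i + if i = l then algebraMap K S x else 0).prod)) •
      Z w) = BZ.SW N (fun w => (f ((w.map E).prod)) • Z w) := by
  rw [tws_one E l f Z hZ x N, ← tws_one E l f Z hZ 0 N]
  apply tws_SW_congr
  intro w _
  simp

end alg

theorem p_tws : S_tws := by
  intro K k V _ _ _ _ _ _ γ Z hZ a b v η x y
  set f : Module.End K V →ₗ[K] K := η ∘ₗ LinearMap.applyₗ v with hf
  have hfa : ∀ s : Module.End K V, f s = η (s v) := by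
    intro s; simp [hf]
  have h0 : ∀ w, Cyc.insK false w Z = 0 := fun w => hZ.ins_zero w
  have h1 : ∀ w, Cyc.insK true w Z = 0 := fun w => hZ.ins_one w
  have key : ∀ (a b : Module.End K V) (N : ℕ),
      BZ.SW N (fun w => (η (BZ.ev a b w v)) • Z w) =
        BZ.SW N (fun w => (f ((w.map fun i => cond i b a).prod)) • Z w) := by
    intro a b N
    rfl
  ext N
  simp only [FV, PowerSeries.coeff_mk]
  rw [key, key]
  have s1 := tws_two (fun i => cond i (b + algebraMap K (Module.End K V) y) a) false f Z h0 x N
  have s2 := tws_two (fun i => cond i b a) true f Z h1 y N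
  have e1 : (fun i : Bool => cond i (b + algebraMap K (Module.End K V) y) a +
      if i = false then algebraMap K (Module.End K V) x else 0) =
      fun i => cond i (b + algebraMap K (Module.End K V) y)
        (a + algebraMap K (Module.End K V) x) := by
    funext i
    cases i <;> simp
  have e2 : (fun i : Bool => cond i b a +
      if i = true then algebraMap K (Module.End K V) y else 0) =
      fun i => cond i (b + algebraMap K (Module.End K V) y) a := by
    funext i
    cases i <;> simp
  rw [e1] at s1
  rw [e2] at s2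
  rw [s1, s2]

end Pool.Agent.MP_a57f33_nt.RG
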