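import Pool.Agent.Lib.MP_a57f33_nt.RG.Stm

/-!
# Project RG, piece [zdb]: centralisers of the new pair
-/

set_option autoImplicit false

namespace Pool.Agent.MP_a57f33_nt.RG

open Pool.Agent.MP_a57f33_nt

section

variable {K V U0 U1 W : Type} [Field K] [AddCommGroup V] [Module K V]
  [AddCommGroup U0] [Module K U0] [AddCommGroup U1] [Module K U1] [AddCommGroup W] [Module K W]
  (L : Lk K V U0 U1 W)

private lemma zdb_eq (z : U0 × U1) :
    L.al (L.be z) = (L.r0 (L.p0 z.1 + L.p1 z.2), L.r1 (L.p0 z.1 + L.p1 z.2)) + L.x • z := by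
  have h := LinearMap.congr_fun L.eq z
  simpa using h

private lemma zdb_s0 : (LinearMap.fst K U0 U1 ∘ₗ L.al) ∘ₗ (L.be ∘ₗ LinearMap.inl K U0 U1) =
    L.r0 ∘ₗ L.p0 + algebraMap K (Module.End K U0) L.x := by
  ext u
  have h := congrArg Prod.fst (zdb_eq L (u, 0))
  simpa [Module.algebraMap_end_apply] using h

private lemma zdb_s1 : (LinearMap.snd K U0 U1 ∘ₗ L.al) ∘ₗ (L.be ∘ₗ LinearMap.inr K U0 U1) =
    L.r1 ∘ₗ L.p1 + algebraMap K (Module.End K U1) L.x := by
  ext u
  have h := congrArg Prod.snd (zdb_eq L (0, u))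
  simpa [Module.algebraMap_end_apply] using h

private lemma zdb_a (v : V) : (L.a0 + L.a1) v = L.p0 (L.r0 v) + L.p1 (L.r1 v) := rfl

private lemma zdb_b (w : W) : (L.b0 + L.b1) w = L.be (L.al w) := by
  have h : (L.b0 + L.b1) w = L.be ((L.al w).1, 0) + L.be (0, (L.al w).2) := rfl
  rw [h, ← map_add]
  simp

end

theorem p_zdb (h_zd : S_zd) (h_zsh : S_zsh) : S_zdb := by
  intro K V U0 U1 W _ _ _ _ _ _ _ _ _ _ _ _ _ L
  refine ⟨?_, ?_, ?_⟩
  · have h1 := h_zd K W U0 (L.be ∘ₗ LinearMap.inl K U0 U1) (LinearMap.fst K U0 U1 ∘ₗ L.al)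
      L.hj0 L.hs0
    have h2 := h_zd K V U0 L.p0 L.r0 L.hp0 L.hr0
    rw [zdb_s0, h_zsh] at h1
    have e1 : zd (K := K) L.b0 = zd (K := K) (S := Module.End K W)
      ((L.be ∘ₗ LinearMap.inl K U0 U1) ∘ₗ (LinearMap.fst K U0 U1 ∘ₗ L.al)) := rfl
    have e2 : zd (K := K) L.a0 = zd (K := K) (S := Module.End K V) (L.p0 ∘ₗ L.r0) := rfl
    rw [e1, e2, h1, h2]
    ring
  · have h1 := h_zd K W U1 (L.be ∘ₗ LinearMap.inr K U0 U1) (LinearMap.snd K U0 U1 ∘ₗ L.al)
      L.hj1 L.hs1
    have h2 := h_zd K V U1 L.p1 L.r1 L.hp1 L.hr1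
    rw [zdb_s1, h_zsh] at h1
    have e1 : zd (K := K) L.b1 = zd (K := K) (S := Module.End K W)
      ((L.be ∘ₗ LinearMap.inr K U0 U1) ∘ₗ (LinearMap.snd K U0 U1 ∘ₗ L.al)) := rfl
    have e2 : zd (K := K) L.a1 = zd (K := K) (S := Module.End K V) (L.p1 ∘ₗ L.r1) := rfl
    rw [e1, e2, h1, h2]
    ring
  · set T : Module.End K V := L.a0 + L.a1 + algebraMap K (Module.End K V) L.x with hT
    have hTv : ∀ v, T v = L.p0 (L.r0 v) + L.p1 (L.r1 v) + L.x • v := by
      intro v
      rw [hT, LinearMap.add_apply, zdb_a, Module.algebraMap_end_apply]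
    have hα : ∀ z : U0 × U1, L.p0 (L.al (L.be z)).1 + L.p1 (L.al (L.be z)).2 =
        T (L.p0 z.1 + L.p1 z.2) := by
      intro z
      rw [zdb_eq, hTv]
      simp only [Prod.fst_add, Prod.snd_add, Prod.smul_fst, Prod.smul_snd, map_add, map_smul,
        smul_add]
      abel
    have hβ : ∀ v : V, (L.r0 (T v), L.r1 (T v)) = L.al (L.be (L.r0 v, L.r1 v)) := by
      intro v
      rw [zdb_eq, hTv]
      ext <;> simp
    -- the map `A`
    let A0 : W →ₗ[K] V := (L.p0.coprod L.p1) ∘ₗ L.al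
    have hA0 : ∀ w, A0 w = L.p0 (L.al w).1 + L.p1 (L.al w).2 := fun w => by
      simp [A0]
    have hA0m : ∀ w, A0 w ∈ LinearMap.range T := by
      intro w
      obtain ⟨z, rfl⟩ := L.hbe w
      rw [hA0, hα]
      exact ⟨_, rfl⟩
    let A : W →ₗ[K] LinearMap.range T := A0.codRestrict _ hA0m
    have hAv : ∀ w, (A w : V) = L.p0 (L.al w).1 + L.p1 (L.al w).2 := fun w => hA0 w
    have hAs : Function.Surjective A := by
      rintro ⟨_, v, rfl⟩
      obtain ⟨z, hz⟩ := L.hp v
      refine ⟨L.be z, Subtype.ext ?_⟩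
      rw [hAv, hα]
      have hz' : L.p0 z.1 + L.p1 z.2 = v := by simpa using hz
      rw [hz']
    -- the map `B`
    let B0 : LinearMap.range T →ₗ[K] U0 × U1 := (L.r0.prod L.r1) ∘ₗ (LinearMap.range T).subtype
    have hB0m : ∀ v, B0 v ∈ LinearMap.range L.al := by
      rintro ⟨_, v, rfl⟩
      exact ⟨L.be (L.r0 v, L.r1 v), (hβ v).symm⟩
    let B : LinearMap.range T →ₗ[K] W :=
      (LinearEquiv.ofInjective L.al L.hal).symm.toLinearMap ∘ₗ B0.codRestrict _ hB0m
    have hBv : ∀ v : LinearMap.range T, L.al (B v) = (L.r0 (v : V), L.r1 (v : V)) := by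
      intro v
      have h := LinearEquiv.apply_symm_apply (LinearEquiv.ofInjective L.al L.hal)
        (B0.codRestrict _ hB0m v)
      exact congrArg Subtype.val h
    have hBi : Function.Injective B := by
      intro v v' h
      have h1 : L.al (B v) = L.al (B v') := by rw [h]
      rw [hBv, hBv] at h1
      exact Subtype.ext (L.hr h1)
    have eBA : L.b0 + L.b1 = B ∘ₗ A + algebraMap K (Module.End K W) L.x := by
      ext w
      rw [zdb_b, LinearMap.add_apply, Module.algebraMap_end_apply, LinearMap.comp_apply]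
      apply L.hal
      rw [map_add, map_smul, hBv, hAv, zdb_eq]
    have eAB : T.rangeRestrict ∘ₗ (LinearMap.range T).subtype =
        A ∘ₗ B + algebraMap K (Module.End K (LinearMap.range T)) L.x := by
      ext v
      rw [LinearMap.add_apply, Module.algebraMap_end_apply, LinearMap.comp_apply,
        LinearMap.comp_apply, Submodule.coe_add, Submodule.coe_smul, hAv, hBv]
      exact hTv v
    have h1 := h_zd K W (LinearMap.range T) B A hBi hAs
    have h2 := h_zd K V (LinearMap.range T) (LinearMap.range T).subtype T.rangeRestrict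
      (Submodule.injective_subtype _) (LinearMap.surjective_rangeRestrict T)
    rw [eAB, h_zsh] at h2
    have e1 : zd (K := K) (L.b0 + L.b1) = zd (K := K) (S := Module.End K W) (B ∘ₗ A) := by
      rw [eBA]
      exact h_zsh K (Module.End K W) (B ∘ₗ A) L.x
    have e2 : zd (K := K) (L.a0 + L.a1) = zd (K := K) (S := Module.End K V)
        ((LinearMap.range T).subtype ∘ₗ T.rangeRestrict) := by
      have e3 : (LinearMap.range T).subtype ∘ₗ T.rangeRestrict = T := by
        ext v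
        rfl
      rw [e3, hT]
      exact (h_zsh K (Module.End K V) (L.a0 + L.a1) L.x).symm
    rw [e1, e2, h1, h2]
    ring

end Pool.Agent.MP_a57f33_nt.RG
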