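import Pool.Agent.Lib.MP_a57f33_nt.RG.Stm

/-!
# Project RG, piece `zsh`: centralisers of `a` and `a + x`
-/

namespace Pool.Agent.MP_a57f33_nt.RG

theorem p_zsh : S_zsh := by
  intro K S _ _ _ a x
  have h : Subalgebra.centralizer K ({a + algebraMap K S x} : Set S) =
      Subalgebra.centralizer K ({a} : Set S) := by
    ext z
    simp only [Subalgebra.mem_centralizer_iff, Set.mem_singleton_iff, forall_eq]
    have hc : algebraMap K S x * z = z * algebraMap K S x := Algebra.commutes x z
    constructor
    · intro hz
      rw [add_mul, mul_add, hc] at hz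
      exact add_right_cancel hz
    · intro hz
      rw [add_mul, mul_add, hc, hz]
  unfold zd
  rw [h]

end Pool.Agent.MP_a57f33_nt.RG
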