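import Pool.Agent.Lib.MP_a57f33_nt.RG.Stm2
import Pool.Agent.Lib.MP_a57f33_nt.RT.Fin
import Pool.Agent.Lib.MP_a57f33_nt.Codepth
import Pool.Agent.Lib.MP_a57f33_nt.Bridge

/-!
# Project RG (MP_a57f33_nt), piece add
-/

namespace Pool.Agent.MP_a57f33_nt.RG

open Pool.Agent.MP_a57f33_nt TensorProduct

section

attribute [local instance 100] LieRing.ofAssociativeRing

private lemma add_coeff {X : Type} (a b : FreeAlgebra ℚ X) (w : List X) :
    coeff (a + b) w = coeff a w + coeff b w := by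
  simp [coeff]

private lemma add_star (a b : QX) (u : List ℕ+) :
    starCoeff (a + b) u = starCoeff a u + starCoeff b u := by
  unfold starCoeff
  rw [add_coeff, add_coeff]
  split_ifs <;> ring

private lemma add_mem {ψ ψ' : QX} (h : ψ ∈ dm0) (h' : ψ' ∈ dm0) : ψ + ψ' ∈ dm0 := by
  obtain ⟨h1, h2, h3, h4, p, h5, h6⟩ := h
  obtain ⟨h1', h2', h3', h4', p', h5', h6'⟩ := h'
  refine ⟨LieX.add_mem h1 h1', ?_, ?_, ?_, p + p', ?_, ?_⟩
  · rw [add_coeff, h2, h2', add_zero]
  · rw [add_coeff, h3, h3', add_zero]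
  · rw [add_coeff, h4, h4', add_zero]
  · intro u
    rw [add_coeff, h5, h5', add_star]
  · rw [map_add, h6, h6', add_tmul, tmul_add]
    abel

end

/-- Piece add. -/
theorem p_add : S_add := by
  refine ⟨fun ψ ψ' h h' => add_mem h h', fun ψ d h hd he => ?_⟩
  rcases Nat.lt_or_ge d 2 with h2 | h2
  · have h0 : d - 1 = 0 := by omega
    rw [h0]
    exact h.2.2.1
  · obtain ⟨m, rfl⟩ : ∃ m, d = m + 2 := ⟨d - 2, by omega⟩
    have hm : Even m := by
      rcases he with ⟨r, hr⟩
      exact ⟨r - 1, by omega⟩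
    have := al_even (dm0_subset_DS1 h) hm hd
    exact this

end Pool.Agent.MP_a57f33_nt.RG
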