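import Pool.Agent.Lib.MP_a57f33_nt.RG.Stm4

/-!
# Project RG (MP_a57f33_nt), piece dul: the dual link and duality
-/

namespace Pool.Agent.MP_a57f33_nt.RG

open Pool.Agent.MP_a57f33_nt

private theorem dul_snoc {M : Type} [AddCommMonoid M] : ∀ (n : ℕ) (f : List Bool → M),
    BZ.SW (n + 1) f = BZ.SW n (fun w => f (w ++ [false])) + BZ.SW n (fun w => f (w ++ [true]))
  | 0, _ => rfl
  | n + 1, f => by
    have h0 := dul_snoc n (fun w => f (false :: w))
    have h1 := dul_snoc n (fun w => f (true :: w))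
    have e1 : BZ.SW (n + 1 + 1) f = BZ.SW (n + 1) (fun w => f (false :: w)) +
      BZ.SW (n + 1) (fun w => f (true :: w)) := rfl
    rw [e1, h0, h1]
    simp only [BZ.SW, List.cons_append]
    rw [add_add_add_comm]

private theorem dul_cons (i : Bool) (w : List Bool) : dualWord (i :: w) = dualWord w ++ [!i] := by
  simp [dualWord]

private theorem dul_inv (w : List Bool) : dualWord (dualWord w) = w := by
  simp [dualWord, Function.comp_def]

private theorem dul_SW {M : Type} [AddCommMonoid M] : ∀ (n : ℕ) (f : List Bool → M),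
    BZ.SW n (fun w => f (dualWord w)) = BZ.SW n f
  | 0, _ => rfl
  | n + 1, f => by
    have e1 : BZ.SW (n + 1) (fun w => f (dualWord w)) =
      BZ.SW n (fun w => f (dualWord (false :: w))) +
        BZ.SW n (fun w => f (dualWord (true :: w))) := rfl
    have e2 : (fun w => f (dualWord (false :: w))) = fun w => f (dualWord w ++ [true]) := by
      funext w; rw [dul_cons]; rfl
    have e3 : (fun w => f (dualWord (true :: w))) = fun w => f (dualWord w ++ [false]) := by
      funext w; rw [dul_cons]; rfl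
    rw [e1, e2, e3, dul_SW n (fun w => f (w ++ [true])), dul_SW n (fun w => f (w ++ [false])),
      dul_snoc n f, add_comm]

private theorem dul_ev_snoc {S : Type} [Monoid S] (A B : S) (w : List Bool) (i : Bool) :
    BZ.ev A B (w ++ [i]) = BZ.ev A B w * cond i B A := by
  simp [BZ.ev]

section

variable {K V : Type} [Field K] [AddCommGroup V] [Module K V]

private theorem dul_ev (a b : Module.End K V) (w : List Bool) (η : Module.Dual K V) :
    BZ.ev (S := Module.End K (Module.Dual K V)) b.dualMap a.dualMap w η =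
      η ∘ₗ BZ.ev a b (dualWord w) := by
  induction w with
  | nil => rfl
  | cons i w ih =>
    have e1 : BZ.ev (S := Module.End K (Module.Dual K V)) b.dualMap a.dualMap (i :: w) =
        (cond i a.dualMap b.dualMap : Module.End K (Module.Dual K V)) *
          BZ.ev (S := Module.End K (Module.Dual K V)) b.dualMap a.dualMap w := by
      simp [BZ.ev]
    rw [e1, Module.End.mul_apply, ih, dul_cons, dul_ev_snoc]
    cases i <;> rfl

private theorem dul_FV {k : Type} [CommRing k] [Algebra K k] (a b : Module.End K V) (v : V)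
    (η : V →ₗ[K] K) (Z : List Bool → k) :
    FV a b v η (fun w => Z (dualWord w)) =
      FV (V := Module.Dual K V) b.dualMap a.dualMap η (Module.Dual.eval K V v) Z := by
  unfold FV
  congr 1
  funext N
  have h := dul_SW N (fun w => (η (BZ.ev a b (dualWord w) v)) • Z w)
  have e1 : (fun w => (η (BZ.ev a b (dualWord (dualWord w)) v)) • Z (dualWord w)) =
      fun w => (η (BZ.ev a b w v)) • Z (dualWord w) := by
    funext w; rw [dul_inv]
  rw [e1] at h
  rw [h]
  congr 1
  funext w
  rw [dul_ev]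
  rfl

private theorem dul_alg (a : Module.End K V) (x : K) :
    LinearMap.dualMap (a + algebraMap K (Module.End K V) x) =
      LinearMap.dualMap a + algebraMap K (Module.End K (Module.Dual K V)) x := by
  ext φ v
  simp [Module.algebraMap_end_apply]

end

section

variable {K V U0 U1 W : Type} [Field K] [AddCommGroup V] [Module K V] [AddCommGroup U0]
    [Module K U0] [AddCommGroup U1] [Module K U1] [AddCommGroup W] [Module K W]

private theorem dul_inj {A B : Type} [AddCommGroup A] [Module K A] [AddCommGroup B] [Module K B]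
    (f : A →ₗ[K] B) (hf : Function.Surjective f) (φ : Module.Dual K B) (h : φ ∘ₗ f = 0) :
    φ = 0 := by
  ext b
  obtain ⟨a, rfl⟩ := hf b
  exact LinearMap.congr_fun h a

private theorem dul_injneg {A B : Type} [AddCommGroup A] [Module K A] [AddCommGroup B] [Module K B]
    (f : A →ₗ[K] B) (hf : Function.Surjective f) :
    Function.Injective (-f.dualMap) := by
  rw [← LinearMap.ker_eq_bot, Submodule.eq_bot_iff]
  intro φ hφ
  apply dul_inj f hf φ
  have h1 : -(φ ∘ₗ f) = 0 := hφ
  exact neg_eq_zero.mp h1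

/-- The dual link. -/
private noncomputable def dulL (L : Lk K V U0 U1 W) :
    Lk K (Module.Dual K V) (Module.Dual K U1) (Module.Dual K U0) (Module.Dual K W) where
  p0 := -L.r1.dualMap
  p1 := -L.r0.dualMap
  r0 := L.p1.dualMap
  r1 := L.p0.dualMap
  al := (L.be ∘ₗ LinearMap.inr K U0 U1).dualMap.prod (L.be ∘ₗ LinearMap.inl K U0 U1).dualMap
  be := -((LinearMap.snd K U0 U1 ∘ₗ L.al).dualMap.coprod (LinearMap.fst K U0 U1 ∘ₗ L.al).dualMap)
  x := -L.x
  hp0 := dul_injneg L.r1 L.hr1
  hp1 := dul_injneg L.r0 L.hr0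
  hr0 := LinearMap.dualMap_surjective_of_injective L.hp1
  hr1 := LinearMap.dualMap_surjective_of_injective L.hp0
  hal := by
    rw [← LinearMap.ker_eq_bot, Submodule.eq_bot_iff]
    intro ω hω
    apply dul_inj L.be L.hbe ω
    have h1 : ω ∘ₗ (L.be ∘ₗ LinearMap.inr K U0 U1) = 0 := congrArg Prod.fst hω
    have h2 : ω ∘ₗ (L.be ∘ₗ LinearMap.inl K U0 U1) = 0 := congrArg Prod.snd hω
    apply LinearMap.prod_ext
    · exact h2
    · exact h1
  hbe := by
    intro ω
    obtain ⟨φ, hφ⟩ := LinearMap.dualMap_surjective_of_injective L.hal ω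
    refine ⟨(-(φ ∘ₗ LinearMap.inr K U0 U1), -(φ ∘ₗ LinearMap.inl K U0 U1)), ?_⟩
    rw [← hφ]
    ext w
    have h1 : L.al w = LinearMap.inl K U0 U1 (L.al w).1 + LinearMap.inr K U0 U1 (L.al w).2 := by
      simp
    have h2 : φ (L.al w) = φ (LinearMap.inl K U0 U1 (L.al w).1) +
        φ (LinearMap.inr K U0 U1 (L.al w).2) := by
      rw [← map_add, ← h1]
    show -(-(φ (LinearMap.inr K U0 U1 (L.al w).2)) + -(φ (LinearMap.inl K U0 U1 (L.al w).1))) =
      φ (L.al w)
    rw [h2]; ring
  hp := by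
    intro ψ
    obtain ⟨φ, hφ⟩ := LinearMap.dualMap_surjective_of_injective L.hr ψ
    refine ⟨(-(φ ∘ₗ LinearMap.inr K U0 U1), -(φ ∘ₗ LinearMap.inl K U0 U1)), ?_⟩
    rw [← hφ]
    ext v
    have h1 : (L.r0 v, L.r1 v) = LinearMap.inl K U0 U1 (L.r0 v) +
        LinearMap.inr K U0 U1 (L.r1 v) := by simp
    have h2 : φ (L.r0 v, L.r1 v) = φ (LinearMap.inl K U0 U1 (L.r0 v)) +
        φ (LinearMap.inr K U0 U1 (L.r1 v)) := by
      rw [← map_add, ← h1]
    show -(-(φ (LinearMap.inr K U0 U1 (L.r1 v)))) + -(-(φ (LinearMap.inl K U0 U1 (L.r0 v)))) =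
      φ (L.r0 v, L.r1 v)
    rw [h2]; ring
  hr := by
    rw [← LinearMap.ker_eq_bot, Submodule.eq_bot_iff]
    intro ψ hψ
    apply dul_inj (L.p0.coprod L.p1) L.hp ψ
    have h1 : ψ ∘ₗ L.p1 = 0 := congrArg Prod.fst hψ
    have h2 : ψ ∘ₗ L.p0 = 0 := congrArg Prod.snd hψ
    apply LinearMap.prod_ext
    · ext u
      have := LinearMap.congr_fun h2 u
      simpa using this
    · ext u
      have := LinearMap.congr_fun h1 u
      simpa using this
  hj0 := by
    have h := dul_injneg (LinearMap.snd K U0 U1 ∘ₗ L.al) L.hs1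
    have e : (-((LinearMap.snd K U0 U1 ∘ₗ L.al).dualMap.coprod
        (LinearMap.fst K U0 U1 ∘ₗ L.al).dualMap)) ∘ₗ
          LinearMap.inl K (Module.Dual K U1) (Module.Dual K U0) =
        -(LinearMap.snd K U0 U1 ∘ₗ L.al).dualMap := by
      ext φ w; simp
    rw [e]; exact h
  hj1 := by
    have h := dul_injneg (LinearMap.fst K U0 U1 ∘ₗ L.al) L.hs0
    have e : (-((LinearMap.snd K U0 U1 ∘ₗ L.al).dualMap.coprod
        (LinearMap.fst K U0 U1 ∘ₗ L.al).dualMap)) ∘ₗ
          LinearMap.inr K (Module.Dual K U1) (Module.Dual K U0) =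
        -(LinearMap.fst K U0 U1 ∘ₗ L.al).dualMap := by
      ext φ w; simp
    rw [e]; exact h
  hs0 := by
    have e : LinearMap.fst K (Module.Dual K U1) (Module.Dual K U0) ∘ₗ
        ((L.be ∘ₗ LinearMap.inr K U0 U1).dualMap.prod
          (L.be ∘ₗ LinearMap.inl K U0 U1).dualMap) =
        (L.be ∘ₗ LinearMap.inr K U0 U1).dualMap := rfl
    rw [e]; exact LinearMap.dualMap_surjective_of_injective L.hj1
  hs1 := by
    have e : LinearMap.snd K (Module.Dual K U1) (Module.Dual K U0) ∘ₗ
        ((L.be ∘ₗ LinearMap.inr K U0 U1).dualMap.prod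
          (L.be ∘ₗ LinearMap.inl K U0 U1).dualMap) =
        (L.be ∘ₗ LinearMap.inl K U0 U1).dualMap := rfl
    rw [e]; exact LinearMap.dualMap_surjective_of_injective L.hj0
  eq := by
    have key : ∀ q : U0 × U1, L.al (L.be q) =
        (L.r0 (L.p0 q.1 + L.p1 q.2) + L.x • q.1, L.r1 (L.p0 q.1 + L.p1 q.2) + L.x • q.2) := by
      intro q
      have := LinearMap.congr_fun L.eq q
      exact this
    apply LinearMap.ext
    rintro ⟨ξ1, ξ0⟩
    apply Prod.ext
    · apply LinearMap.ext
      intro u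
      have h := key (0, u)
      show -(ξ1 (L.al (L.be (0, u))).2 + ξ0 (L.al (L.be (0, u))).1) =
        (-(ξ1 (L.r1 (L.p1 u))) + -(ξ0 (L.r0 (L.p1 u)))) + (-L.x) • ξ1 u
      rw [h]
      simp only [map_zero, zero_add, smul_zero, add_zero, map_add, map_smul, smul_eq_mul]
      ring
    · apply LinearMap.ext
      intro u
      have h := key (u, 0)
      show -(ξ1 (L.al (L.be (u, 0))).2 + ξ0 (L.al (L.be (u, 0))).1) =
        (-(ξ1 (L.r1 (L.p0 u))) + -(ξ0 (L.r0 (L.p0 u)))) + (-L.x) • ξ0 u
      rw [h]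
      simp only [map_zero, zero_add, smul_zero, add_zero, map_add, map_smul, smul_eq_mul]
      ring

end

theorem p_dul : S_dul := by
  intro K k _ _ _ γ Z h
  refine ⟨?_, ?_, ?_⟩
  · exact h.one
  · intro V _ _ a b v η x y
    rw [dul_FV, dul_FV, dul_alg, dul_alg]
    exact h.tws _ _ _ _ _ _ _
  · intro V U0 U1 W _ _ _ _ _ _ _ _ L u ζ lam nu hl hn
    have key := h.trf _ _ _ _ (dulL L) (-ζ : Module.Dual K U1) (Module.Dual.eval K U0 u)
      (-nu) (-lam) ?_ ?_
    · rw [dul_FV, dul_FV]
      have a0 : (dulL L).a0 = (-L.a1).dualMap := by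
        ext φ v
        show -(φ (L.p1 (L.r1 v))) = φ (-(L.p1 (L.r1 v)))
        rw [map_neg]
      have a1 : -(dulL L).a1 = L.a0.dualMap := by
        ext φ v
        show -(-(φ (L.a0 v))) = φ (L.a0 v)
        ring
      have b0 : (dulL L).b0 = (-L.b1).dualMap := by
        ext φ w
        have e1 : (dulL L).b0 φ w = -(φ (L.b1 w) + 0) := by
          rfl
        rw [e1]
        simp
      have b1 : -(dulL L).b1 = L.b0.dualMap := by
        ext φ w
        have e1 : (-(dulL L).b1) φ w = -(-(0 + φ (L.b0 w))) := by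
          rfl
        rw [e1]
        simp
      have v1 : (dulL L).p0 (-ζ : Module.Dual K U1) = ζ ∘ₗ L.r1 := by
        ext v
        show -((-ζ) (L.r1 v)) = ζ (L.r1 v)
        simp
      have v2 : (Module.Dual.eval K U0 u) ∘ₗ (dulL L).r1 =
          Module.Dual.eval K V (L.p0 u) := rfl
      have v3 : (dulL L).be (LinearMap.inl K (Module.Dual K U1) (Module.Dual K U0) (-ζ)) =
          ζ ∘ₗ LinearMap.snd K U0 U1 ∘ₗ L.al := by
        ext w
        show -((-ζ) (L.al w).2 + 0) = ζ (L.al w).2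
        simp
      have v4 : (Module.Dual.eval K U0 u) ∘ₗ
          LinearMap.snd K (Module.Dual K U1) (Module.Dual K U0) ∘ₗ (dulL L).al =
          Module.Dual.eval K W (L.be (LinearMap.inl K U0 U1 u)) := rfl
      have x1 : (dulL L).x = -L.x := rfl
      rw [a0, a1, b0, b1, v1, v2, v3, v4, x1] at key
      have g1 : -(-lam) = lam := neg_neg lam
      have g2 : -nu + -L.x = -(nu + L.x) := by ring
      have g3 : -(-lam + -L.x) = lam + L.x := by ring
      rw [g1, g2, g3] at key
      rw [mul_comm (gs γ lam) (gs γ (-nu)), mul_comm (gs γ (lam + L.x)) (gs γ (-(nu + L.x)))]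
      exact key
    · have v0 : (dulL L).r0 ((dulL L).p0 (-ζ : Module.Dual K U1)) = ζ ∘ₗ L.r1 ∘ₗ L.p1 := by
        ext w
        show -((-ζ) (L.r1 (L.p1 w))) = ζ (L.r1 (L.p1 w))
        simp
      rw [v0, hn]
      simp
    · ext φ
      show -((φ) (L.r0 (L.p0 u))) = (-lam) • (φ u)
      rw [hl, map_smul]
      simp

end Pool.Agent.MP_a57f33_nt.RG
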