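import Pool.Agent.Lib.MP_a57f33_nt.RG.Stm2

/-!
# Project RG (MP_a57f33_nt), piece [ex]: infinitesimal rigidity
-/

namespace Pool.Agent.MP_a57f33_nt.RG

open Pool.Agent.MP_a57f33_nt

section

variable {K : Type} [Field K] {V : Type} [AddCommGroup V] [Module K V]

/-- The trace pairing. -/
private noncomputable def ex_tau : Module.End K V →ₗ[K] Module.Dual K (Module.End K V) where
  toFun Y := (LinearMap.trace K V) ∘ₗ (LinearMap.mulLeft K Y)
  map_add' Y Z := by
    apply LinearMap.ext
    intro X
    simp [add_mul]
  map_smul' c Y := by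
    apply LinearMap.ext
    intro X
    simp

private theorem ex_tau_apply (Y X : Module.End K V) :
    ex_tau Y X = LinearMap.trace K V (Y * X) := rfl

private theorem ex_tau_inj [FiniteDimensional K V] (Y : Module.End K V)
    (h : ∀ X : Module.End K V, LinearMap.trace K V (Y * X) = 0) : Y = 0 := by
  apply LinearMap.ext
  intro w
  rw [LinearMap.zero_apply]
  apply (Module.forall_dual_apply_eq_zero_iff K (Y w)).1
  intro φ
  have h1 := h (dualTensorHom K V V (φ ⊗ₜ[K] w))
  have h2 : Y * dualTensorHom K V V (φ ⊗ₜ[K] w) = dualTensorHom K V V (φ ⊗ₜ[K] (Y w)) := by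
    apply LinearMap.ext
    intro v
    simp [dualTensorHom_apply]
  rw [h2, LinearMap.trace_eq_contract_apply, contractLeft_apply] at h1
  exact h1

/-- The commutator map. -/
private noncomputable def ex_th (a b : Module.End K V) :
    (Module.End K V × Module.End K V) →ₗ[K] Module.End K V :=
  LinearMap.coprod (LinearMap.mulLeft K a - LinearMap.mulRight K a)
    (LinearMap.mulLeft K b - LinearMap.mulRight K b)

private theorem ex_th_apply (a b : Module.End K V) (p q : Module.End K V) :
    ex_th a b (p, q) = (a * p - p * a) + (b * q - q * b) := by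
  simp [ex_th]

/-- The map from the centralisers. -/
private noncomputable def ex_ph (a b : Module.End K V) :
    (Subalgebra.centralizer K ({a} : Set (Module.End K V)) ×
      Subalgebra.centralizer K ({b} : Set (Module.End K V)) ×
      Subalgebra.centralizer K ({a + b} : Set (Module.End K V))) →ₗ[K]
    (Module.End K V × Module.End K V) where
  toFun z := ((z.1 : Module.End K V) - (z.2.2 : Module.End K V),
    (z.2.1 : Module.End K V) - (z.2.2 : Module.End K V))
  map_add' x y := by
    ext v
    · simp only [Prod.fst_add, Prod.snd_add, Subalgebra.coe_add]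
      simp only [LinearMap.sub_apply, LinearMap.add_apply]
      abel
    · simp only [Prod.fst_add, Prod.snd_add, Subalgebra.coe_add]
      simp only [LinearMap.sub_apply, LinearMap.add_apply]
      abel
  map_smul' c x := by
    ext v
    · simp [smul_sub]
    · simp [smul_sub]

private theorem ex_cen (a x : Module.End K V) :
    x ∈ Subalgebra.centralizer K ({a} : Set (Module.End K V)) ↔ a * x = x * a := by
  rw [Subalgebra.mem_centralizer_iff]
  simp

end

theorem p_ex (h_sch : S_sch) : S_ex := by
  intro K _ _ V _ _ _ a b hirr hdim p q hpq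
  set n := Module.finrank K V with hn
  have hE : Module.finrank K (Module.End K V) = n ^ 2 := by
    rw [Module.finrank_linearMap, pow_two]
  -- range of ex_th
  set R := LinearMap.range (ex_th a b) with hR
  have hcomm : ∀ Y : Module.End K V, (∀ P Q, LinearMap.trace K V (Y * ex_th a b (P, Q)) = 0) →
      ∃ x : K, Y = algebraMap K (Module.End K V) x := by
    intro Y hY
    apply h_sch K V a b Y hirr
    · have h1 : Y * a - a * Y = 0 := by
        apply ex_tau_inj
        intro X
        have h2 := hY X 0
        rw [ex_th_apply] at h2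
        have h3 : LinearMap.trace K V ((Y * a - a * Y) * X) =
            LinearMap.trace K V (Y * (a * X - X * a)) := by
          rw [sub_mul, mul_sub, map_sub, map_sub, mul_assoc, mul_assoc a Y X,
            LinearMap.trace_mul_comm K a (Y * X), mul_assoc]
        rw [h3]
        simpa using h2
      exact sub_eq_zero.1 h1
    · have h1 : Y * b - b * Y = 0 := by
        apply ex_tau_inj
        intro X
        have h2 := hY 0 X
        rw [ex_th_apply] at h2
        have h3 : LinearMap.trace K V ((Y * b - b * Y) * X) =
            LinearMap.trace K V (Y * (b * X - X * b)) := by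
          rw [sub_mul, mul_sub, map_sub, map_sub, mul_assoc, mul_assoc b Y X,
            LinearMap.trace_mul_comm K b (Y * X), mul_assoc]
        rw [h3]
        simpa using h2
      exact sub_eq_zero.1 h1
  have hsurj : Function.Surjective (ex_tau (K := K) (V := V)) := by
    have hinj : Function.Injective (ex_tau (K := K) (V := V)) := by
      rw [injective_iff_map_eq_zero]
      intro Y hY
      apply ex_tau_inj
      intro X
      rw [← ex_tau_apply, hY, LinearMap.zero_apply]
    exact (LinearMap.injective_iff_surjective_of_finrank_eq_finrank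
      (Subspace.dual_finrank_eq).symm).1 hinj
  have h1mem : ex_tau (1 : Module.End K V) ∈ Submodule.dualAnnihilator R := by
    rw [Submodule.mem_dualAnnihilator]
    rintro _ ⟨⟨P, Q⟩, rfl⟩
    rw [ex_tau_apply, one_mul, ex_th_apply, map_add, map_sub, map_sub,
      LinearMap.trace_mul_comm K a P, LinearMap.trace_mul_comm K b Q, sub_self, sub_self, add_zero]
  have hann : Module.finrank K (Submodule.dualAnnihilator R) ≤ 1 := by
    apply finrank_le_one ⟨ex_tau (1 : Module.End K V), h1mem⟩
    rintro ⟨w, hw⟩
    obtain ⟨Y, rfl⟩ := hsurj w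
    obtain ⟨x, hx⟩ := hcomm Y (fun P Q => by
      rw [Submodule.mem_dualAnnihilator] at hw
      exact hw _ ⟨(P, Q), rfl⟩)
    refine ⟨x, ?_⟩
    apply Subtype.ext
    simp only [SetLike.mk_smul_mk]
    rw [hx, Algebra.algebraMap_eq_smul_one, map_smul]
  have hRdim : n ^ 2 ≤ Module.finrank K R + 1 := by
    have h := Subspace.finrank_add_finrank_dualAnnihilator_eq R
    rw [hE] at h
    omega
  have hker : Module.finrank K (LinearMap.ker (ex_th a b)) ≤ n ^ 2 + 1 := by
    have h := LinearMap.finrank_range_add_finrank_ker (ex_th a b)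
    rw [Module.finrank_prod, hE] at h
    have : Module.finrank K (LinearMap.range (ex_th a b)) = Module.finrank K R := rfl
    omega
  -- the centralisers
  have hphker : Module.finrank K (LinearMap.ker (ex_ph a b)) ≤ 1 := by
    have h1 : ((1 : Subalgebra.centralizer K ({a} : Set (Module.End K V))),
        (1 : Subalgebra.centralizer K ({b} : Set (Module.End K V))),
        (1 : Subalgebra.centralizer K ({a + b} : Set (Module.End K V)))) ∈
        LinearMap.ker (ex_ph a b) := by
      rw [LinearMap.mem_ker]
      simp [ex_ph]
    apply finrank_le_one ⟨_, h1⟩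
    rintro ⟨⟨z0, z1, z2⟩, hz⟩
    rw [LinearMap.mem_ker] at hz
    have hz1 : (z0 : Module.End K V) = z2 := by
      have := congrArg Prod.fst hz
      exact sub_eq_zero.1 this
    have hz2 : (z1 : Module.End K V) = z2 := by
      have := congrArg Prod.snd hz
      exact sub_eq_zero.1 this
    obtain ⟨x, hx⟩ := h_sch K V a b (z0 : Module.End K V) hirr
      ((ex_cen a _).1 z0.2).symm (by rw [hz1, ← hz2]; exact ((ex_cen b _).1 z1.2).symm)
    refine ⟨x, ?_⟩
    apply Subtype.ext
    simp only [SetLike.mk_smul_mk]
    have e0 : x • (1 : Subalgebra.centralizer K ({a} : Set (Module.End K V))) = z0 := by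
      apply Subtype.ext
      rw [hx, Algebra.algebraMap_eq_smul_one]
      rfl
    have e1 : x • (1 : Subalgebra.centralizer K ({b} : Set (Module.End K V))) = z1 := by
      apply Subtype.ext
      rw [hz2, ← hz1, hx, Algebra.algebraMap_eq_smul_one]
      rfl
    have e2 : x • (1 : Subalgebra.centralizer K ({a + b} : Set (Module.End K V))) = z2 := by
      apply Subtype.ext
      rw [← hz1, hx, Algebra.algebraMap_eq_smul_one]
      rfl
    rw [Prod.smul_mk, Prod.smul_mk, e0, e1, e2]
  have hle : LinearMap.range (ex_ph a b) ≤ LinearMap.ker (ex_th a b) := by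
    rintro _ ⟨⟨z0, z1, z2⟩, rfl⟩
    rw [LinearMap.mem_ker]
    have h0 := (ex_cen a _).1 z0.2
    have h1 := (ex_cen b _).1 z1.2
    have h2 := (ex_cen (a + b) _).1 z2.2
    change ex_th a b ((z0 : Module.End K V) - (z2 : Module.End K V),
      (z1 : Module.End K V) - (z2 : Module.End K V)) = 0
    rw [ex_th_apply, mul_sub, mul_sub, sub_mul, sub_mul, h0, h1]
    rw [add_mul, mul_add] at h2
    have h3 : a * (z2 : Module.End K V) + b * (z2 : Module.End K V) -
      ((z2 : Module.End K V) * a + (z2 : Module.End K V) * b) = 0 := sub_eq_zero.2 h2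
    calc _ = -(a * (z2 : Module.End K V) + b * (z2 : Module.End K V) -
      ((z2 : Module.End K V) * a + (z2 : Module.End K V) * b)) := by abel
      _ = 0 := by rw [h3, neg_zero]
  have hrg : n ^ 2 + 1 ≤ Module.finrank K (LinearMap.range (ex_ph a b)) := by
    have h := LinearMap.finrank_range_add_finrank_ker (ex_ph a b)
    rw [Module.finrank_prod, Module.finrank_prod] at h
    unfold zd at hdim
    omega
  have heq : LinearMap.range (ex_ph a b) = LinearMap.ker (ex_th a b) :=
    Submodule.eq_of_le_of_finrank_le hle (hker.trans hrg)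
  have hmem : (p, q) ∈ LinearMap.range (ex_ph a b) := by
    rw [heq, LinearMap.mem_ker, ex_th_apply]
    exact hpq
  obtain ⟨⟨z0, z1, z2⟩, hz⟩ := hmem
  refine ⟨z0, z1, z2, ((ex_cen a _).1 z0.2).symm, ((ex_cen b _).1 z1.2).symm,
    ((ex_cen (a + b) _).1 z2.2).symm, ?_, ?_⟩
  · exact (congrArg Prod.fst hz).symm
  · exact (congrArg Prod.snd hz).symm

end Pool.Agent.MP_a57f33_nt.RG
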