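import Pool.Agent.Lib.MP_a57f33_nt.RG.Stm2

set_option autoImplicit false

/-!
# Project RG, piece exs: the exponential of power series
-/

namespace Pool.Agent.MP_a57f33_nt.RG

open Finset

section exs

variable {k : Type} [CommRing k] [Algebra ℚ k]

omit [Algebra ℚ k] in
private lemma exs_van {g h : PowerSeries k} (hg : PowerSeries.constantCoeff g = 0)
    (hh : PowerSeries.constantCoeff h = 0) {i l N : ℕ} (hN : N < i + l) :
    PowerSeries.coeff N (g ^ i * h ^ l) = 0 := by
  have h1 : (PowerSeries.X : PowerSeries k) ^ (i + l) ∣ g ^ i * h ^ l := by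
    rw [pow_add]
    exact mul_dvd_mul (pow_dvd_pow_of_dvd (PowerSeries.X_dvd_iff.2 hg) i)
      (pow_dvd_pow_of_dvd (PowerSeries.X_dvd_iff.2 hh) l)
  exact (PowerSeries.X_pow_dvd_iff.1 h1) N hN

private lemma exs_coeff {g : PowerSeries k} (hg : PowerSeries.constantCoeff g = 0) {N D : ℕ}
    (hD : N ≤ D) : PowerSeries.coeff N (expS g) =
      PowerSeries.coeff N (∑ j ∈ range (D + 1), ((j.factorial : ℚ)⁻¹) • g ^ j) := by
  rw [map_sum, expS, PowerSeries.coeff_mk]
  have h1 : ∀ j ∈ range (D + 1), PowerSeries.coeff N (((j.factorial : ℚ)⁻¹) • g ^ j) =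
      ((j.factorial : ℚ)⁻¹) • PowerSeries.coeff N (g ^ j) := by
    intro j _
    rfl
  rw [Finset.sum_congr rfl h1]
  refine Finset.sum_subset ?_ ?_
  · intro j hj
    rw [mem_range] at hj ⊢
    omega
  · intro j _ hj
    rw [mem_range, not_lt] at hj
    have h2 := exs_van hg (show PowerSeries.constantCoeff (0 : PowerSeries k) = 0 from map_zero _)
      (i := j) (l := 0) (N := N) (by omega)
    rw [pow_zero, mul_one] at h2
    rw [h2, smul_zero]

private lemma exs_add {g h : PowerSeries k} (hg : PowerSeries.constantCoeff g = 0)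
    (hh : PowerSeries.constantCoeff h = 0) : expS (g + h) = expS g * expS h := by
  ext N
  have hgh : PowerSeries.constantCoeff (g + h) = 0 := by rw [map_add, hg, hh, add_zero]
  set f : ℕ × ℕ → PowerSeries k := fun p =>
    (((p.1.factorial : ℚ)⁻¹) * ((p.2.factorial : ℚ)⁻¹)) • (g ^ p.1 * h ^ p.2) with hf
  have h1 : PowerSeries.coeff N (expS g * expS h) =
      PowerSeries.coeff N ((∑ j ∈ range (N + 1), ((j.factorial : ℚ)⁻¹) • g ^ j) *
        ∑ j ∈ range (N + 1), ((j.factorial : ℚ)⁻¹) • h ^ j) := by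
    rw [PowerSeries.coeff_mul, PowerSeries.coeff_mul]
    refine Finset.sum_congr rfl fun p hp => ?_
    rw [Finset.HasAntidiagonal.mem_antidiagonal] at hp
    rw [exs_coeff hg (show p.1 ≤ N by omega), exs_coeff hh (show p.2 ≤ N by omega)]
  have h2 : (∑ j ∈ range (N + 1), ((j.factorial : ℚ)⁻¹) • g ^ j) *
        ∑ j ∈ range (N + 1), ((j.factorial : ℚ)⁻¹) • h ^ j
      = ∑ p ∈ range (N + 1) ×ˢ range (N + 1), f p := by
    rw [Finset.sum_mul_sum, Finset.sum_product]
    refine Finset.sum_congr rfl fun i _ => Finset.sum_congr rfl fun j _ => ?_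
    rw [hf, smul_mul_smul_comm]
  have h3 : PowerSeries.coeff N (∑ p ∈ range (N + 1) ×ˢ range (N + 1), f p) =
      PowerSeries.coeff N (∑ p ∈ (range (N + 1) ×ˢ range (N + 1)).filter
        (fun p => p.1 + p.2 ≤ N), f p) := by
    rw [map_sum, map_sum, Finset.sum_filter_of_ne]
    intro p _ hp
    by_contra hlt
    rw [not_le] at hlt
    refine hp ?_
    have h4 : PowerSeries.coeff N (f p) = (((p.1.factorial : ℚ)⁻¹) * ((p.2.factorial : ℚ)⁻¹)) •
        PowerSeries.coeff N (g ^ p.1 * h ^ p.2) := rfl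
    rw [h4, exs_van hg hh hlt, smul_zero]
  have h5 : ∑ j ∈ range (N + 1), ((j.factorial : ℚ)⁻¹) • (g + h) ^ j =
      ∑ p ∈ (range (N + 1) ×ˢ range (N + 1)).filter (fun p => p.1 + p.2 ≤ N), f p := by
    rw [← Finset.sum_fiberwise_of_maps_to (t := range (N + 1)) (g := fun p : ℕ × ℕ => p.1 + p.2)
      (fun p hp => by
        rw [mem_filter] at hp
        exact mem_range.2 (Nat.lt_succ_of_le hp.2))]
    refine Finset.sum_congr rfl fun j hj => ?_
    rw [mem_range] at hj
    have h6 : ((range (N + 1) ×ˢ range (N + 1)).filter (fun p => p.1 + p.2 ≤ N)).filter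
        (fun p => p.1 + p.2 = j) = antidiagonal j := by
      ext p
      simp only [mem_filter, mem_product, mem_range, Finset.HasAntidiagonal.mem_antidiagonal]
      constructor
      · exact fun h => h.2
      · intro h
        refine ⟨⟨⟨?_, ?_⟩, ?_⟩, h⟩ <;> omega
    rw [h6, (Commute.all g h).add_pow' j, Finset.smul_sum]
    refine Finset.sum_congr rfl fun p hp => ?_
    rw [Finset.HasAntidiagonal.mem_antidiagonal] at hp
    rw [hf]
    beta_reduce
    rw [← Nat.cast_smul_eq_nsmul ℚ, smul_smul]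
    congr 1
    subst hp
    have e0 := Nat.choose_mul_factorial_mul_factorial (Nat.le_add_right p.1 p.2)
    rw [Nat.add_sub_cancel_left] at e0
    have e1 : ((p.1 + p.2).factorial : ℚ) ≠ 0 := by positivity
    have e2 : (p.1.factorial : ℚ) ≠ 0 := by positivity
    have e3 : (p.2.factorial : ℚ) ≠ 0 := by positivity
    have e4 : (((p.1 + p.2).choose p.1 : ℕ) : ℚ) * (p.1.factorial : ℚ) * (p.2.factorial : ℚ) =
        ((p.1 + p.2).factorial : ℚ) := by exact_mod_cast e0
    have e5 : (((p.1 + p.2).choose p.1 : ℕ) : ℚ) =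
        ((p.1 + p.2).factorial : ℚ) / ((p.1.factorial : ℚ) * (p.2.factorial : ℚ)) := by
      rw [← e4]
      field_simp
    rw [e5]
    field_simp
  rw [h1, h2, h3, ← h5, ← exs_coeff hgh le_rfl]

omit [Algebra ℚ k] in
private lemma exs_mon (d : ℕ) (c : k) (j : ℕ) :
    (PowerSeries.monomial d c) ^ j = PowerSeries.monomial (j * d) (c ^ j) := by
  induction j with
  | zero =>
    rw [pow_zero, pow_zero, zero_mul, PowerSeries.monomial_zero_eq_C_apply, map_one]
  | succ j ih =>
    rw [pow_succ, ih, PowerSeries.monomial_mul_monomial, pow_succ, Nat.succ_mul]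

theorem p_exs : S_exs := by
  intro k _ _
  refine ⟨fun g h hg hh => exs_add hg hh, ?_, ?_, ?_⟩
  · ext N
    rw [expS, PowerSeries.coeff_mk, Finset.sum_range_succ']
    have h1 : ∀ j ∈ range N, (((j + 1).factorial : ℚ)⁻¹) •
        PowerSeries.coeff N ((0 : PowerSeries k) ^ (j + 1)) = 0 := by
      intro j _
      rw [zero_pow (Nat.succ_ne_zero j), map_zero, smul_zero]
    rw [Finset.sum_eq_zero h1, pow_zero, Nat.factorial_zero, Nat.cast_one, inv_one, one_smul,
      zero_add]
  · intro d c hd
    ext N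
    rw [expS, PowerSeries.coeff_mk, PowerSeries.coeff_mk]
    have h1 : ∀ j ∈ range (N + 1), ((j.factorial : ℚ)⁻¹) •
        PowerSeries.coeff N ((PowerSeries.monomial d c) ^ j) =
        if N = j * d then ((j.factorial : ℚ)⁻¹) • c ^ j else 0 := by
      intro j _
      rw [exs_mon, PowerSeries.coeff_monomial]
      split_ifs
      · rfl
      · rw [smul_zero]
    rw [Finset.sum_congr rfl h1]
    by_cases hdN : d ∣ N
    · obtain ⟨m, rfl⟩ := hdN
      rw [if_pos (Dvd.intro m rfl), Nat.mul_div_cancel_left m (by omega)]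
      rw [Finset.sum_eq_single m]
      · rw [if_pos (Nat.mul_comm d m)]
      · intro j _ hj
        rw [if_neg]
        intro h
        rw [Nat.mul_comm] at h
        exact hj (Nat.eq_of_mul_eq_mul_right (by omega) h).symm
      · intro hm
        exfalso
        rw [mem_range, not_lt] at hm
        have : m ≤ d * m := Nat.le_mul_of_pos_left m (by omega)
        omega
    · rw [if_neg hdN]
      refine Finset.sum_eq_zero fun j _ => ?_
      rw [if_neg]
      intro h
      exact hdN ⟨j, by rw [h, Nat.mul_comm]⟩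
  · intro g
    ext N
    rw [PowerSeries.coeff_rescale, expS, expS, PowerSeries.coeff_mk, PowerSeries.coeff_mk,
      Finset.mul_sum]
    refine Finset.sum_congr rfl fun j _ => ?_
    rw [← map_pow, PowerSeries.coeff_rescale, mul_smul_comm]

end exs

end Pool.Agent.MP_a57f33_nt.RG
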