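import Pool.Agent.Lib.MP_a57f33_nt.RG.Stm

/-!
Piece [fac]: factorisation identities for the gradient `phi` and for `G`.
-/

namespace Pool.Agent.MP_a57f33_nt.RG

open Pool.Agent.MP_a57f33_nt

section words

variable {M : Type} [AddCommMonoid M]

private theorem fac_SW_congr : ∀ (n : ℕ) {f g : List Bool → M}, (∀ w, w.length = n → f w = g w) →
    BZ.SW n f = BZ.SW n g
  | 0, f, g, h => h [] rfl
  | n + 1, f, g, h => by
    simp only [BZ.SW]
    rw [fac_SW_congr n (fun w hw => h (false :: w) (by simp [hw])),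
      fac_SW_congr n (fun w hw => h (true :: w) (by simp [hw]))]

private theorem fac_SW_map {M' : Type} [AddCommMonoid M'] (φ : M →+ M') :
    ∀ (n : ℕ) (f : List Bool → M), BZ.SW n (fun w => φ (f w)) = φ (BZ.SW n f)
  | 0, _ => rfl
  | n + 1, f => by
    simp only [BZ.SW, map_add]
    rw [fac_SW_map φ n, fac_SW_map φ n]

private theorem fac_SW_snoc : ∀ (n : ℕ) (f : List Bool → M),
    BZ.SW (n + 1) f = BZ.SW n (fun w => f (w ++ [false])) + BZ.SW n (fun w => f (w ++ [true]))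
  | 0, _ => rfl
  | n + 1, f => by
    have h0 := fac_SW_snoc n (fun w => f (false :: w))
    have h1 := fac_SW_snoc n (fun w => f (true :: w))
    have e1 : BZ.SW (n + 1 + 1) f = BZ.SW (n + 1) (fun w => f (false :: w)) +
      BZ.SW (n + 1) (fun w => f (true :: w)) := rfl
    rw [e1, h0, h1]
    simp only [BZ.SW, List.cons_append]
    rw [add_add_add_comm]

end words

section alg

variable {K S : Type} [Field K] [Ring S] [Algebra K S]

/-- The product `e_i M e_j M ⋯`. -/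
private def facG (E : Bool → S) (M : S) : Bool → List Bool → S
  | i, [] => E i
  | i, j :: v => E i * M * facG E M j v

/-- The product `e_i M e_j M ⋯` as a function of the whole word. -/
private def facH (E : Bool → S) (M : S) : List Bool → S
  | [] => 0
  | a :: t => facG E M a t

private theorem fac_ev_cons (a b : S) (i : Bool) (w : List Bool) :
    BZ.ev a b (i :: w) = (bif i then b else a) * BZ.ev a b w := by
  cases i <;> simp [BZ.ev]

private theorem fac_left (E : Bool → S) (M : S) : ∀ (w : List Bool) (i : Bool),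
    E i * BZ.ev (M * E false) (M * E true) w = facG E M i w
  | [], i => by simp [BZ.ev, facG]
  | j :: v, i => by
    rw [fac_ev_cons, facG, ← fac_left E M v j]
    cases j <;> simp [mul_assoc]

private theorem fac_right (E : Bool → S) (M : S) : ∀ (w : List Bool) (i : Bool),
    BZ.ev (E false * M) (E true * M) w * E i = facH E M (w ++ [i])
  | [], i => by simp [BZ.ev, facH, facG]
  | j :: v, i => by
    have h := fac_right E M v i
    rw [fac_ev_cons, mul_assoc, h]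
    cases v with
    | nil => cases j <;> simp [facH, facG]
    | cons a t => cases j <;> simp [facH, facG]

private theorem fac_G (k : List Bool → K) (N : ℕ)
    (hk : ∀ (a : Bool) (w : List Bool), w.length = N → k (w ++ [a]) = k (a :: w))
    (e f M : S) :
    e * phi k N false (M * e) (M * f) + f * phi k N true (M * e) (M * f) = G k N e f M := by
  set E : Bool → S := fun i => bif i then f else e with hE
  have hEf : E false = e := rfl
  have hEt : E true = f := rfl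
  have hL : ∀ i, E i * phi k N i (M * e) (M * f) =
      BZ.SW N (fun w => k (i :: w) • facH E M (i :: w)) := by
    intro i
    unfold phi
    rw [show E i * BZ.SW N (fun w => k (i :: w) • BZ.ev (M * e) (M * f) w) =
      AddMonoidHom.mulLeft (E i) (BZ.SW N (fun w => k (i :: w) • BZ.ev (M * e) (M * f) w)) from rfl,
      ← fac_SW_map]
    apply fac_SW_congr
    intro w _
    show E i * (k (i :: w) • BZ.ev (M * e) (M * f) w) = _
    rw [mul_smul_comm]
    congr 1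
    exact fac_left E M w i
  have hR : ∀ i, phi k N i (e * M) (f * M) * E i =
      BZ.SW N (fun w => k (w ++ [i]) • facH E M (w ++ [i])) := by
    intro i
    unfold phi
    rw [show BZ.SW N (fun w => k (i :: w) • BZ.ev (e * M) (f * M) w) * E i =
      AddMonoidHom.mulRight (E i) (BZ.SW N (fun w => k (i :: w) • BZ.ev (e * M) (f * M) w)) from rfl,
      ← fac_SW_map]
    apply fac_SW_congr
    intro w hw
    show (k (i :: w) • BZ.ev (e * M) (f * M) w) * E i = _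
    rw [smul_mul_assoc, hk i w hw]
    congr 1
    exact fac_right E M w i
  have h1 : e * phi k N false (M * e) (M * f) + f * phi k N true (M * e) (M * f) =
      BZ.SW (N + 1) (fun u => k u • facH E M u) := by
    have a := hL false
    have b := hL true
    rw [hEf] at a
    rw [hEt] at b
    rw [a, b]
    rfl
  have h2 : G k N e f M = BZ.SW (N + 1) (fun u => k u • facH E M u) := by
    have a := hR false
    have b := hR true
    rw [hEf] at a
    rw [hEt] at b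
    unfold G
    rw [a, b, fac_SW_snoc]
  rw [h1, h2]

end alg

section lin

variable {K V W : Type} [Field K] [AddCommGroup V] [Module K V] [AddCommGroup W] [Module K W]

private def facPost (V₁ : Type) [AddCommGroup V₁] [Module K V₁] (α : W →ₗ[K] V) :
    (V₁ →ₗ[K] W) →+ (V₁ →ₗ[K] V) where
  toFun := fun g => α ∘ₗ g
  map_zero' := LinearMap.comp_zero α
  map_add' := fun a b => LinearMap.comp_add a b α

private def facPre (V₁ : Type) [AddCommGroup V₁] [Module K V₁] (α : W →ₗ[K] V) :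
    (V →ₗ[K] V₁) →+ (W →ₗ[K] V₁) where
  toFun := fun g => g ∘ₗ α
  map_zero' := LinearMap.zero_comp α
  map_add' := fun a b => LinearMap.add_comp α b a

private theorem fac_ev1 (α : W →ₗ[K] V) (β : V →ₗ[K] W) (e f : Module.End K W) :
    ∀ w : List Bool, (BZ.ev (α ∘ₗ e ∘ₗ β : Module.End K V) (α ∘ₗ f ∘ₗ β : Module.End K V) w) ∘ₗ α =
      α ∘ₗ (BZ.ev (e * (β ∘ₗ α)) (f * (β ∘ₗ α)) w)
  | [] => rfl
  | j :: v => by
    rw [fac_ev_cons, fac_ev_cons]
    have h := fac_ev1 α β e f v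
    cases j
    · show (α ∘ₗ e ∘ₗ β) ∘ₗ _ ∘ₗ α = α ∘ₗ (e ∘ₗ β ∘ₗ α) ∘ₗ _
      rw [h]
      rfl
    · show (α ∘ₗ f ∘ₗ β) ∘ₗ _ ∘ₗ α = α ∘ₗ (f ∘ₗ β ∘ₗ α) ∘ₗ _
      rw [h]
      rfl

private theorem fac_ev2 (α : W →ₗ[K] V) (β : V →ₗ[K] W) (e f : Module.End K W) :
    ∀ w : List Bool, β ∘ₗ (BZ.ev (α ∘ₗ e ∘ₗ β : Module.End K V) (α ∘ₗ f ∘ₗ β : Module.End K V) w) =
      (BZ.ev ((β ∘ₗ α : Module.End K W) * e) ((β ∘ₗ α : Module.End K W) * f) w) ∘ₗ β
  | [] => rfl
  | j :: v => by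
    rw [fac_ev_cons, fac_ev_cons]
    have h := fac_ev2 α β e f v
    cases j
    · show (β ∘ₗ α ∘ₗ e) ∘ₗ (β ∘ₗ _) = ((β ∘ₗ α ∘ₗ e) ∘ₗ _) ∘ₗ β
      rw [h]
      rfl
    · show (β ∘ₗ α ∘ₗ f) ∘ₗ (β ∘ₗ _) = ((β ∘ₗ α ∘ₗ f) ∘ₗ _) ∘ₗ β
      rw [h]
      rfl

private theorem fac_phi1 (k : List Bool → K) (N : ℕ) (i : Bool) (α : W →ₗ[K] V) (β : V →ₗ[K] W)
    (e f : Module.End K W) :
    phi k N i (α ∘ₗ e ∘ₗ β : Module.End K V) (α ∘ₗ f ∘ₗ β : Module.End K V) ∘ₗ α =
      α ∘ₗ phi k N i (e * (β ∘ₗ α)) (f * (β ∘ₗ α)) := by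
  unfold phi
  set F : List Bool → Module.End K V := fun w => k (i :: w) •
    BZ.ev (α ∘ₗ e ∘ₗ β : Module.End K V) (α ∘ₗ f ∘ₗ β : Module.End K V) w with hF
  set F' : List Bool → Module.End K W := fun w => k (i :: w) •
    BZ.ev (e * (β ∘ₗ α)) (f * (β ∘ₗ α)) w with hF'
  have h1 : (BZ.SW N F : Module.End K V) ∘ₗ α = BZ.SW N (fun w => F w ∘ₗ α) :=
    (fac_SW_map (facPre V α) N F).symm
  have h2 : α ∘ₗ (BZ.SW N F' : Module.End K W) = BZ.SW N (fun w => α ∘ₗ F' w) :=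
    (fac_SW_map (facPost W α) N F').symm
  rw [h1, h2]
  apply fac_SW_congr
  intro w _
  rw [hF, hF']
  simp only [LinearMap.smul_comp, LinearMap.comp_smul]
  rw [fac_ev1]

private theorem fac_phi2 (k : List Bool → K) (N : ℕ) (i : Bool) (α : W →ₗ[K] V) (β : V →ₗ[K] W)
    (e f : Module.End K W) :
    β ∘ₗ phi k N i (α ∘ₗ e ∘ₗ β : Module.End K V) (α ∘ₗ f ∘ₗ β : Module.End K V) =
      phi k N i ((β ∘ₗ α : Module.End K W) * e) ((β ∘ₗ α : Module.End K W) * f) ∘ₗ β := by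
  unfold phi
  set F : List Bool → Module.End K V := fun w => k (i :: w) •
    BZ.ev (α ∘ₗ e ∘ₗ β : Module.End K V) (α ∘ₗ f ∘ₗ β : Module.End K V) w with hF
  set F' : List Bool → Module.End K W := fun w => k (i :: w) •
    BZ.ev ((β ∘ₗ α : Module.End K W) * e) ((β ∘ₗ α : Module.End K W) * f) w with hF'
  have h1 : β ∘ₗ (BZ.SW N F : Module.End K V) = BZ.SW N (fun w => β ∘ₗ F w) :=
    (fac_SW_map (facPost V β) N F).symm
  have h2 : (BZ.SW N F' : Module.End K W) ∘ₗ β = BZ.SW N (fun w => F' w ∘ₗ β) :=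
    (fac_SW_map (facPre W β) N F').symm
  rw [h1, h2]
  apply fac_SW_congr
  intro w _
  rw [hF, hF']
  simp only [LinearMap.smul_comp, LinearMap.comp_smul]
  rw [fac_ev2]

end lin

theorem p_fac : S_fac := by
  intro K V W _ _ _ _ _ k N hk α β e f
  refine ⟨?_, ?_⟩
  · have h0 := fac_phi1 k N false α β e f
    have h1 := fac_phi1 k N true α β e f
    calc phi k N false (α ∘ₗ e ∘ₗ β) (α ∘ₗ f ∘ₗ β) ∘ₗ α ∘ₗ e +
          phi k N true (α ∘ₗ e ∘ₗ β) (α ∘ₗ f ∘ₗ β) ∘ₗ α ∘ₗ f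
        = (phi k N false (α ∘ₗ e ∘ₗ β) (α ∘ₗ f ∘ₗ β) ∘ₗ α) ∘ₗ e +
          (phi k N true (α ∘ₗ e ∘ₗ β) (α ∘ₗ f ∘ₗ β) ∘ₗ α) ∘ₗ f := rfl
      _ = (α ∘ₗ phi k N false (e * (β ∘ₗ α)) (f * (β ∘ₗ α))) ∘ₗ e +
          (α ∘ₗ phi k N true (e * (β ∘ₗ α)) (f * (β ∘ₗ α))) ∘ₗ f := by rw [h0, h1]
      _ = α ∘ₗ (phi k N false (e * (β ∘ₗ α)) (f * (β ∘ₗ α)) ∘ₗ e) +
          α ∘ₗ (phi k N true (e * (β ∘ₗ α)) (f * (β ∘ₗ α)) ∘ₗ f) := rfl
      _ = α ∘ₗ ((phi k N false (e * (β ∘ₗ α)) (f * (β ∘ₗ α)) ∘ₗ e) +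
          (phi k N true (e * (β ∘ₗ α)) (f * (β ∘ₗ α)) ∘ₗ f)) := by rw [LinearMap.comp_add]
      _ = α ∘ₗ G k N e f (β ∘ₗ α) := rfl
  · have h0 := fac_phi2 k N false α β e f
    have h1 := fac_phi2 k N true α β e f
    calc e ∘ₗ β ∘ₗ phi k N false (α ∘ₗ e ∘ₗ β) (α ∘ₗ f ∘ₗ β) +
          f ∘ₗ β ∘ₗ phi k N true (α ∘ₗ e ∘ₗ β) (α ∘ₗ f ∘ₗ β)
        = e ∘ₗ (phi k N false ((β ∘ₗ α : Module.End K W) * e)
            ((β ∘ₗ α : Module.End K W) * f) ∘ₗ β) +
          f ∘ₗ (phi k N true ((β ∘ₗ α : Module.End K W) * e)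
            ((β ∘ₗ α : Module.End K W) * f) ∘ₗ β) := by rw [h0, h1]
      _ = (e * phi k N false ((β ∘ₗ α : Module.End K W) * e) ((β ∘ₗ α : Module.End K W) * f)) ∘ₗ β +
          (f * phi k N true ((β ∘ₗ α : Module.End K W) * e)
            ((β ∘ₗ α : Module.End K W) * f)) ∘ₗ β := rfl
      _ = (e * phi k N false ((β ∘ₗ α : Module.End K W) * e) ((β ∘ₗ α : Module.End K W) * f) +
          f * phi k N true ((β ∘ₗ α : Module.End K W) * e)
            ((β ∘ₗ α : Module.End K W) * f)) ∘ₗ β := by rw [LinearMap.add_comp]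
      _ = G k N e f (β ∘ₗ α) ∘ₗ β := by rw [fac_G k N hk e f (β ∘ₗ α)]

end Pool.Agent.MP_a57f33_nt.RG
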