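import Mathlib
import Pool.Agent.Lib.MP_a57f33_nt.RG.Stm2
import Pool.Agent.Lib.MP_a57f33_nt.RT.P.adx
import Pool.Agent.Lib.MP_a57f33_nt.RT.P.expc
import Pool.Agent.Lib.MP_a57f33_nt.BZ.XLem
import Pool.Agent.Lib.MP_a57f33_nt.BZ.P_tw

/-!
# Project RG (MP_a57f33_nt): piece flg, the general flow formula
-/

namespace Pool.Agent.MP_a57f33_nt.RG

open Pool.Agent.MP_a57f33_nt

/-! ### adjoint operators -/

/-- the pairing, linear in both arguments -/
private noncomputable def flg_P : QX →ₗ[ℚ] QX →ₗ[ℚ] ℚ where
  toFun G := RT.pair (coeff G)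
  map_add' G H := by
    apply linear_ext
    intro w
    rw [LinearMap.add_apply, RT.pair_word, RT.pair_word, RT.pair_word, coeff_add]
  map_smul' r G := by
    apply linear_ext
    intro w
    rw [LinearMap.smul_apply, RT.pair_word, RT.pair_word, coeff_smul]
    rfl

private lemma flg_P_apply (G F : QX) : flg_P G F = RT.pair (coeff G) F := rfl

private lemma flg_P_word_right (G : QX) (a : List Bool) : flg_P G (word a) = coeff G a :=
  RT.pair_word _ _

private lemma flg_P_word_left (F : QX) (a : List Bool) : flg_P (word a) F = coeff F a := by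
  have h : flg_P (word a) = coeffL a := by
    apply linear_ext
    intro c
    rw [flg_P_word_right, coeffL_apply, coeff_word, coeff_word]
    by_cases hc : a = c
    · rw [if_pos hc, if_pos hc.symm]
    · rw [if_neg hc, if_neg (Ne.symm hc)]
  rw [h, coeffL_apply]

private lemma flg_adj_left {S T : QX →ₗ[ℚ] QX} (h : RT.IsAdj S T) (F : QX) (w : List Bool) :
    coeff (S F) w = flg_P (T (word w)) F := by
  have h1 : (coeffL w).comp S = flg_P (T (word w)) := by
    apply linear_ext
    intro a
    rw [LinearMap.comp_apply, coeffL_apply, flg_P_word_right]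
    exact h a w
  rw [← h1, LinearMap.comp_apply, coeffL_apply]

private lemma flg_adj_right {S T : QX →ₗ[ℚ] QX} (h : RT.IsAdj S T) (G : QX) (a : List Bool) :
    flg_P G (S (word a)) = coeff (T G) a := by
  have h1 : flg_P.flip (S (word a)) = (coeffL a).comp T := by
    apply linear_ext
    intro w
    rw [LinearMap.comp_apply, coeffL_apply, LinearMap.flip_apply, flg_P_word_left]
    exact h a w
  have h2 := LinearMap.congr_fun h1 G
  rw [LinearMap.comp_apply, coeffL_apply, LinearMap.flip_apply] at h2
  exact h2

private lemma flg_adj_pow {S T : Module.End ℚ QX} (h : RT.IsAdj S T) (m : ℕ) :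
    RT.IsAdj (S ^ m) (T ^ m) := by
  induction m with
  | zero =>
    intro a w
    rw [pow_zero, pow_zero, Module.End.one_apply, Module.End.one_apply, coeff_word, coeff_word]
    by_cases hc : a = w
    · rw [if_pos hc, if_pos hc.symm]
    · rw [if_neg hc, if_neg (Ne.symm hc)]
  | succ m ih =>
    intro a w
    rw [pow_succ', pow_succ, Module.End.mul_apply, Module.End.mul_apply, flg_adj_left h,
      flg_adj_right ih]

/-! ### expansion in words -/

private lemma flg_expand {M : ℕ} {h : QX} (hh : IsHom M h) :
    h = BZ.SW M fun a => coeff h a • word a := by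
  apply ext_coeff
  intro v
  have h1 : coeff (BZ.SW M fun a => coeff h a • word a) v =
      BZ.SW M fun a => coeff (coeff h a • word a) v := by
    rw [← coeffL_apply]
    exact (BZ.xl_SW_map (coeffL v).toAddMonoidHom M _).symm
  rw [h1]
  have h2 : (fun a : List Bool => coeff (coeff h a • (word a : QX)) v) =
      fun a => (if v = a then (1 : ℚ) else 0) • coeff h a := by
    funext a
    rw [coeff_smul, coeff_word]
    by_cases hc : a = v
    · rw [if_pos hc, if_pos hc.symm]; simp
    · rw [if_neg hc, if_neg (Ne.symm hc)]; simp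
  rw [h2, BZ.tw_SW_word]
  split_ifs with hv
  · rfl
  · exact hh v hv

private lemma flg_expand_map {M : ℕ} {h : QX} (hh : IsHom M h) {V : Type} [AddCommGroup V]
    [Module ℚ V] (F : QX →ₗ[ℚ] V) : F h = BZ.SW M fun a => coeff h a • F (word a) := by
  conv_lhs => rw [flg_expand hh]
  have h1 := BZ.xl_SW_map F.toAddMonoidHom M (fun a => coeff h a • (word a : QX))
  refine h1.symm.trans ?_
  congr 1
  funext a
  exact map_smul F _ _

private lemma flg_SW_sum {M : Type} [AddCommMonoid M] (s : Finset ℕ) (n : ℕ)
    (f : ℕ → List Bool → M) :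
    BZ.SW n (fun w => ∑ i ∈ s, f i w) = ∑ i ∈ s, BZ.SW n (f i) := by
  classical
  induction s using Finset.induction_on with
  | empty => simp only [Finset.sum_empty]; exact BZ.xl_SW_const_zero n
  | insert a s ha ih =>
    rw [Finset.sum_insert ha, ← ih, ← BZ.xl_SW_add]
    congr 1
    funext w
    rw [Finset.sum_insert ha]

/-! ### evaluation -/

section ev

variable {K : Type} [Field K] [CharZero K] {n : ℕ}

/-- the evaluation `x₀ ↦ A`, `x₁ ↦ B` -/
private noncomputable def flg_E (A B : Matrix (Fin n) (Fin n) K) :
    QX →ₐ[ℚ] Matrix (Fin n) (Fin n) K :=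
  FreeAlgebra.lift ℚ fun b : Bool => cond b B A

private lemma flg_E_iota (A B : Matrix (Fin n) (Fin n) K) (b : Bool) :
    flg_E A B (FreeAlgebra.ι ℚ b) = cond b B A := by
  simp [flg_E]

private lemma flg_E_word (A B : Matrix (Fin n) (Fin n) K) (w : List Bool) :
    flg_E A B (word w) = BZ.ev A B w := by
  induction w with
  | nil => simp [BZ.ev]
  | cons b w ih =>
    rw [word_cons, map_mul, ih, flg_E_iota]
    simp [BZ.ev]

private lemma flg_E_act {A B m0 m1 : Matrix (Fin n) (Fin n) K} {φ : QX}
    (h0 : m0 * A = A * m0) (h1 : m1 * B = B * m1) (hφ : flg_E A B φ = m1 - m0) (w : List Bool) :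
    flg_E A B (RT.actL φ (word w)) = m1 * flg_E A B (word w) - flg_E A B (word w) * m0 := by
  induction w with
  | nil =>
    rw [RT.actL_apply, FL.act, word_nil, mul_one, der_one, add_zero, hφ, map_one, mul_one, one_mul]
  | cons b w ih =>
    rw [RT.actL_apply, FL.act, map_add, map_mul, hφ] at ih
    rw [RT.actL_apply, FL.act, word_cons, der_mul, map_add, map_mul, map_add, map_mul, map_mul,
      map_mul, hφ]
    have hd : flg_E A B (der φ (word w)) =
        m0 * flg_E A B (word w) - flg_E A B (word w) * m0 := by
      have := ih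
      rw [sub_mul] at this
      rw [← sub_eq_zero] at this ⊢
      rw [← this]
      abel
    cases b with
    | false =>
      rw [der_false, flg_E_iota, map_zero, zero_mul, zero_add, hd]
      simp only [cond_false]
      rw [sub_mul, mul_sub, ← mul_assoc m0, ← mul_assoc A m0, h0]
      simp only [mul_assoc]
      abel
    | true =>
      rw [der_true, flg_E_iota, map_sub, map_mul, map_mul, flg_E_iota, hφ, hd]
      simp only [cond_true]
      have h1' : ∀ X : Matrix (Fin n) (Fin n) K, m1 * (B * X) = B * (m1 * X) := by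
        intro X
        rw [← mul_assoc, h1, mul_assoc]
      simp only [sub_mul, mul_sub, mul_assoc, h1']
      abel

end ev

theorem p_flg (h_exs : S_exs) : S_flg := by
  intro K k _ _ _ _ _ n A B m0 m1 e f s d φ hd hφ h0 h1 hE he hf T Z c hT
  classical
  have hE' : flg_E A B φ = m1 - m0 := hE
  -- the functional
  let Φ : QX →ₗ[ℚ] K :=
    { toFun := fun g => f ⬝ᵥ Matrix.mulVec (flg_E A B g) e
      map_add' := by
        intro x y
        rw [map_add, Matrix.add_mulVec, dotProduct_add]
      map_smul' := by
        intro r x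
        rw [map_smul, Matrix.smul_mulVec, dotProduct_smul]
        rfl }
  have hΦ : ∀ g, Φ g = f ⬝ᵥ Matrix.mulVec (flg_E A B g) e := fun _ => rfl
  have hΦw : ∀ w : List Bool, Φ (word w) = f ⬝ᵥ Matrix.mulVec (BZ.ev A B w) e := by
    intro w
    rw [hΦ, flg_E_word]
  have hΦact : ∀ g, Φ (RT.actL φ g) = s * Φ g := by
    have h2 : Φ.comp (RT.actL φ) = (LinearMap.mulLeft ℚ s).comp Φ := by
      apply linear_ext
      intro w
      rw [LinearMap.comp_apply, LinearMap.comp_apply, LinearMap.mulLeft_apply, hΦ, hΦ,
        flg_E_act h0 h1 hE', Matrix.sub_mulVec, dotProduct_sub, ← Matrix.mulVec_mulVec,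
        ← Matrix.mulVec_mulVec, he, Matrix.mulVec_zero, dotProduct_zero, sub_zero,
        Matrix.dotProduct_mulVec f m1, hf, smul_dotProduct, smul_eq_mul]
    intro g
    have := LinearMap.congr_fun h2 g
    simpa using this
  have hΦpow : ∀ (m : ℕ) (g : QX), Φ (((RT.actL φ : Module.End ℚ QX) ^ m) g) = s ^ m * Φ g := by
    intro m
    induction m with
    | zero => intro g; simp
    | succ m ih =>
      intro g
      rw [pow_succ', Module.End.mul_apply, hΦact, ih, pow_succ']
      ring
  have hlow : RT.Lowers List.length d T := (RT.p_adx d φ T hφ hT).1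
  have hadj : ∀ m, RT.IsAdj ((RT.actL φ : Module.End ℚ QX) ^ m) (T ^ m) :=
    fun m => flg_adj_pow hT m
  have hco : ∀ (m : ℕ) (w a : List Bool), coeff ((T ^ m) (word w)) a ≠ 0 →
      w.length = a.length + d * m := fun m w a h => RT.expc_pow List.length d T hlow w m a h
  -- coefficients
  ext N
  have hL : PowerSeries.coeff N (FS A B e f fun w => (RT.expP List.length T Z w).eval c) =
      ∑ m ∈ Finset.range (N + 1), BZ.SW N fun w => Φ (word w) •
        ((((m.factorial : ℚ)⁻¹) • RT.pair Z ((T ^ m) (word w))) * c ^ m) := by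
    rw [FS, PowerSeries.coeff_mk, ← flg_SW_sum]
    apply BZ.xl_SW_congr
    intro w hw
    rw [RT.expP, hw, Polynomial.eval_finsetSum, ← hΦw, Finset.smul_sum]
    apply Finset.sum_congr rfl
    intro m _
    rw [Polynomial.eval_monomial]
  have hterm : ∀ m : ℕ, d * m ≤ N → (BZ.SW N fun w => Φ (word w) •
        ((((m.factorial : ℚ)⁻¹) • RT.pair Z ((T ^ m) (word w))) * c ^ m)) =
      ((((m.factorial : ℚ)⁻¹) • (s • c) ^ m)) *
        PowerSeries.coeff (N - d * m) (FS A B e f Z) := by
    intro m hm
    have hp : ∀ w : List Bool, w.length = N → RT.pair Z ((T ^ m) (word w)) =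
        BZ.SW (N - d * m) fun a => coeff (((RT.actL φ : Module.End ℚ QX) ^ m) (word a)) w • Z a := by
      intro w hw
      have hh : IsHom (N - d * m) ((T ^ m) (word w)) := by
        intro a ha
        by_contra hne
        have := hco m w a hne
        omega
      rw [flg_expand_map hh (RT.pair Z)]
      congr 1
      funext a
      rw [RT.pair_word, hadj m a w]
    have hs : ∀ a : List Bool, a.length = N - d * m →
        (BZ.SW N fun w => coeff (((RT.actL φ : Module.End ℚ QX) ^ m) (word a)) w • Φ (word w)) =
          s ^ m * Φ (word a) := by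
      intro a ha
      have hh : IsHom N (((RT.actL φ : Module.End ℚ QX) ^ m) (word a)) := by
        intro w hw
        by_contra hne
        rw [hadj m a w] at hne
        have := hco m w a hne
        omega
      rw [← hΦpow, flg_expand_map hh Φ]
    have hz : ∀ (a : List Bool) (q : ℚ) (x : K),
        x • (((((m.factorial : ℚ)⁻¹) • (q • Z a))) * c ^ m) =
          (q • x) • (((((m.factorial : ℚ)⁻¹) • Z a)) * c ^ m) := by
      intro a q x
      have hq : algebraMap ℚ k q = algebraMap K k (algebraMap ℚ K q) :=
        IsScalarTower.algebraMap_apply ℚ K k q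
      rw [Algebra.smul_def q x, Algebra.smul_def q (Z a), hq]
      simp only [Algebra.smul_def, map_mul]
      ring
    calc (BZ.SW N fun w => Φ (word w) •
        ((((m.factorial : ℚ)⁻¹) • RT.pair Z ((T ^ m) (word w))) * c ^ m))
        = BZ.SW N fun w => BZ.SW (N - d * m) fun a =>
            (coeff (((RT.actL φ : Module.End ℚ QX) ^ m) (word a)) w • Φ (word w)) •
              (((((m.factorial : ℚ)⁻¹) • Z a)) * c ^ m) := by
          apply BZ.xl_SW_congr
          intro w hw
          rw [hp w hw]
          let g : k →+ k :=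
            { toFun := fun y => Φ (word w) • ((((m.factorial : ℚ)⁻¹) • y) * c ^ m)
              map_zero' := by simp
              map_add' := by
                intro y y'
                rw [smul_add, add_mul, smul_add] }
          have hg := BZ.xl_SW_map g (N - d * m) fun a =>
            coeff (((RT.actL φ : Module.End ℚ QX) ^ m) (word a)) w • Z a
          refine hg.symm.trans ?_
          congr 1
          funext a
          exact hz a _ _
      _ = BZ.SW (N - d * m) fun a => BZ.SW N fun w =>
            (coeff (((RT.actL φ : Module.End ℚ QX) ^ m) (word a)) w • Φ (word w)) •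
              (((((m.factorial : ℚ)⁻¹) • Z a)) * c ^ m) := BZ.xl_SW_comm _ _ _
      _ = BZ.SW (N - d * m) fun a => (s ^ m * Φ (word a)) •
              (((((m.factorial : ℚ)⁻¹) • Z a)) * c ^ m) := by
          apply BZ.xl_SW_congr
          intro a ha
          rw [← hs a ha]
          let g : K →+ k :=
            { toFun := fun y => y • (((((m.factorial : ℚ)⁻¹) • Z a)) * c ^ m)
              map_zero' := by simp
              map_add' := by
                intro y y'
                rw [add_smul] }
          exact BZ.xl_SW_map g N fun w =>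
            coeff (((RT.actL φ : Module.End ℚ QX) ^ m) (word a)) w • Φ (word w)
      _ = ((((m.factorial : ℚ)⁻¹) • (s • c) ^ m)) *
            PowerSeries.coeff (N - d * m) (FS A B e f Z) := by
          rw [FS, PowerSeries.coeff_mk]
          have hg := BZ.xl_SW_map (AddMonoidHom.mulLeft ((((m.factorial : ℚ)⁻¹) • (s • c) ^ m)))
            (N - d * m) fun a => (f ⬝ᵥ Matrix.mulVec (BZ.ev A B a) e) • Z a
          refine Eq.trans ?_ hg
          congr 1
          funext a
          rw [hΦw]
          simp only [AddMonoidHom.coe_mulLeft, Algebra.smul_def, map_mul, map_pow, mul_pow]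
          ring
  have hterm0 : ∀ m : ℕ, ¬ d * m ≤ N → (BZ.SW N fun w => Φ (word w) •
        ((((m.factorial : ℚ)⁻¹) • RT.pair Z ((T ^ m) (word w))) * c ^ m)) = 0 := by
    intro m hm
    have h3 : (BZ.SW N fun w => Φ (word w) •
        ((((m.factorial : ℚ)⁻¹) • RT.pair Z ((T ^ m) (word w))) * c ^ m)) =
        BZ.SW N fun _ => (0 : k) := by
      apply BZ.xl_SW_congr
      intro w hw
      have h4 : (T ^ m) (word w) = 0 := by
        apply ext_coeff
        intro a
        rw [coeff_zero]
        by_contra hne
        have := hco m w a hne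
        omega
      rw [h4, map_zero, smul_zero, zero_mul, smul_zero]
    rw [h3, BZ.xl_SW_const_zero]
  rw [hL, PowerSeries.coeff_mul, Finset.Nat.sum_antidiagonal_eq_sum_range_succ_mk,
    (h_exs k).2.2.1 d (s • c) hd]
  have hR : ∀ i ∈ Finset.range (N + 1),
      PowerSeries.coeff i (PowerSeries.mk fun N : ℕ =>
        if d ∣ N then (((N / d).factorial : ℚ)⁻¹) • (s • c) ^ (N / d) else 0) *
        PowerSeries.coeff (N - i) (FS A B e f Z) =
      if d ∣ i then ((((i / d).factorial : ℚ)⁻¹) • (s • c) ^ (i / d)) *
        PowerSeries.coeff (N - i) (FS A B e f Z) else 0 := by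
    intro i _
    rw [PowerSeries.coeff_mk]
    split_ifs
    · rfl
    · rw [zero_mul]
  have hLL : ∀ m ∈ Finset.range (N + 1), (BZ.SW N fun w => Φ (word w) •
        ((((m.factorial : ℚ)⁻¹) • RT.pair Z ((T ^ m) (word w))) * c ^ m)) =
      if d * m ≤ N then ((((m.factorial : ℚ)⁻¹) • (s • c) ^ m)) *
        PowerSeries.coeff (N - d * m) (FS A B e f Z) else 0 := by
    intro m _
    split_ifs with hm
    · exact hterm m hm
    · exact hterm0 m hm
  rw [Finset.sum_congr rfl hLL, ← Finset.sum_filter]
  refine Eq.trans ?_ (Finset.sum_congr rfl hR).symm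
  rw [← Finset.sum_filter]
  symm
  refine Finset.sum_nbij' (fun i => i / d) (fun m => d * m) ?_ ?_ ?_ ?_ ?_
  · intro i hi
    rw [Finset.mem_filter, Finset.mem_range] at hi ⊢
    obtain ⟨hi1, q, rfl⟩ := hi
    rw [Nat.mul_div_cancel_left _ hd]
    have : q ≤ d * q := Nat.le_mul_of_pos_left q hd
    omega
  · intro m hm
    rw [Finset.mem_filter, Finset.mem_range] at hm ⊢
    exact ⟨by omega, Dvd.intro m rfl⟩
  · intro i hi
    rw [Finset.mem_filter] at hi
    exact Nat.mul_div_cancel' hi.2
  · intro m _
    exact Nat.mul_div_cancel_left m hd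
  · intro i hi
    rw [Finset.mem_filter] at hi
    rw [Nat.mul_div_cancel' hi.2]

end Pool.Agent.MP_a57f33_nt.RG
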