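import Pool.Agent.Lib.MP_a57f33_nt.RG.Stm2
import Pool.Agent.Lib.MP_a57f33_nt.RG.Main
import Pool.Agent.Lib.MP_a57f33_nt.RT.Fin

/-!
# Project RG (MP_a57f33_nt): the constant `w_N`
-/

set_option autoImplicit false

namespace Pool.Agent.MP_a57f33_nt.RG

open Pool.Agent.MP_a57f33_nt

section gmx

variable {K : Type} [Field K] [CharZero K] {n : ℕ}

/-- Datum for `ψ`. -/
private structure gmxD (A B : Matrix (Fin n) (Fin n) K) (e f : Fin n → K) (ψ : QX)
    (m0 m1 : Matrix (Fin n) (Fin n) K) (s : K) : Prop where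
  c0 : m0 * A = A * m0
  c1 : m1 * B = B * m1
  ev : FreeAlgebra.lift ℚ (fun b : Bool => cond b (-B) A) ψ = m1 - m0
  h0 : Matrix.mulVec m0 e = 0
  h1 : Matrix.vecMul f m1 = s • f

private lemma gmx_ex (A B : Matrix (Fin n) (Fin n) K) (e f : Fin n → K) (ψ : QX)
    (m0 m1 : Matrix (Fin n) (Fin n) K) (s t : K) (c0 : m0 * A = A * m0) (c1 : m1 * B = B * m1)
    (ev : FreeAlgebra.lift ℚ (fun b : Bool => cond b (-B) A) ψ = m1 - m0)
    (h0 : Matrix.mulVec m0 e = s • e) (h1 : Matrix.vecMul f m1 = t • f) :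
    gmxD A B e f ψ (m0 - s • 1) (m1 - s • 1) (t - s) := by
  refine ⟨?_, ?_, ?_, ?_, ?_⟩
  · rw [sub_mul, mul_sub, c0, smul_mul_assoc, one_mul, mul_smul_comm, mul_one]
  · rw [sub_mul, mul_sub, c1, smul_mul_assoc, one_mul, mul_smul_comm, mul_one]
  · rw [ev]
    abel
  · rw [Matrix.sub_mulVec, h0, Matrix.smul_mulVec, Matrix.one_mulVec, sub_self]
  · rw [Matrix.vecMul_sub, h1, Matrix.vecMul_smul, Matrix.vecMul_one, sub_smul]

private lemma gmx_un [IsAlgClosed K] (h_sch : S_sch) (A B : Matrix (Fin n) (Fin n) K)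
    (hirr : ∀ U : Submodule K (Fin n → K), (∀ x ∈ U, Matrix.mulVec A x ∈ U) →
      (∀ x ∈ U, Matrix.mulVec B x ∈ U) → U = ⊥ ∨ U = ⊤)
    (e f : Fin n → K) (he : e ≠ 0) (hf : f ≠ 0) (ψ : QX)
    (m0 m1 m0' m1' : Matrix (Fin n) (Fin n) K) (s s' : K) (h : gmxD A B e f ψ m0 m1 s)
    (h' : gmxD A B e f ψ m0' m1' s') : s = s' := by
  have hX : m0 - m0' = m1 - m1' := by
    have h2 := h.ev.symm.trans h'.ev
    have h3 : m1 = m1' - m0' + m0 := by
      rw [← h2]
      abel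
    rw [h3]
    abel
  have hXA : (m0 - m0') * A = A * (m0 - m0') := by
    rw [sub_mul, mul_sub, h.c0, h'.c0]
  have hXB : (m0 - m0') * B = B * (m0 - m0') := by
    rw [hX, sub_mul, mul_sub, h.c1, h'.c1]
  have hI : Irr (Matrix.toLin' A) (Matrix.toLin' B) := by
    intro U hA hB
    refine hirr U (fun x hx => ?_) (fun x hx => ?_)
    · have := hA x hx
      rwa [Matrix.toLin'_apply] at this
    · have := hB x hx
      rwa [Matrix.toLin'_apply] at this
  obtain ⟨c, hc⟩ := h_sch K (Fin n → K) (Matrix.toLin' A) (Matrix.toLin' B)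
    (Matrix.toLin' (m0 - m0')) hI
    (by
      change Matrix.toLin' (m0 - m0') ∘ₗ Matrix.toLin' A =
        Matrix.toLin' A ∘ₗ Matrix.toLin' (m0 - m0')
      rw [← Matrix.toLin'_mul, ← Matrix.toLin'_mul, hXA])
    (by
      change Matrix.toLin' (m0 - m0') ∘ₗ Matrix.toLin' B =
        Matrix.toLin' B ∘ₗ Matrix.toLin' (m0 - m0')
      rw [← Matrix.toLin'_mul, ← Matrix.toLin'_mul, hXB])
  have h4 : c • e = 0 := by
    have h5 := LinearMap.congr_fun hc e
    rw [Matrix.toLin'_apply, Matrix.sub_mulVec, h.h0, h'.h0, sub_zero,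
      Module.algebraMap_end_apply] at h5
    exact h5.symm
  have h6 : c = 0 := (smul_eq_zero.1 h4).resolve_right he
  have h7 : m0 - m0' = 0 := by
    apply Matrix.toLin'.injective
    rw [hc, h6, map_zero, map_zero]
  rw [h7] at hX
  have h8 : m1 = m1' := (sub_eq_zero.1 hX.symm)
  have h9 : s • f = s' • f := by
    rw [← h.h1, ← h'.h1, h8]
  exact smul_left_injective K hf h9

private lemma gmx_rat (a : ℚ) (M : Matrix (Fin n) (Fin n) K) : a • M = (a : K) • M := by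
  ext i j
  rw [Matrix.smul_apply, Matrix.smul_apply, Rat.smul_def, smul_eq_mul]

private lemma gmx_lin (A B : Matrix (Fin n) (Fin n) K) (e f : Fin n → K) (ψ ψ' : QX)
    (m0 m1 m0' m1' : Matrix (Fin n) (Fin n) K) (s s' : K) (h : gmxD A B e f ψ m0 m1 s)
    (h' : gmxD A B e f ψ' m0' m1' s') (a b : ℚ) :
    gmxD A B e f (a • ψ + b • ψ') ((a : K) • m0 + (b : K) • m0') ((a : K) • m1 + (b : K) • m1')
      ((a : K) * s + (b : K) * s') := by
  refine ⟨?_, ?_, ?_, ?_, ?_⟩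
  · rw [add_mul, mul_add, smul_mul_assoc, smul_mul_assoc, mul_smul_comm, mul_smul_comm, h.c0,
      h'.c0]
  · rw [add_mul, mul_add, smul_mul_assoc, smul_mul_assoc, mul_smul_comm, mul_smul_comm, h.c1,
      h'.c1]
  · rw [map_add, map_smul, map_smul, h.ev, h'.ev, gmx_rat, gmx_rat, smul_sub, smul_sub]
    abel
  · rw [Matrix.add_mulVec, Matrix.smul_mulVec, Matrix.smul_mulVec, h.h0, h'.h0, smul_zero,
      smul_zero, add_zero]
  · rw [Matrix.vecMul_add, Matrix.vecMul_smul, Matrix.vecMul_smul, h.h1, h'.h1, smul_smul,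
      smul_smul, add_smul]

end gmx

/-- The constant `w_N`. -/
theorem p_gmx (h_mat : S_mat) (h_mxt : S_mxt) (h_smp : S_smp) (h_sch : S_sch) (h_sml : S_sml)
    (h_add : S_add) : S_gmx := by
  intro K _ _ _ n A B hirr hrig x y e f he hf hAe hfB hx hy d
  have hex : ∀ ψ ∈ dm0, ∃ (m0 m1 : Matrix (Fin n) (Fin n) K) (s : K), gmxD A B e f ψ m0 m1 s := by
    intro ψ hψ
    obtain ⟨m0, m1, m2, c0, c1, -, ev, -⟩ := h_mxt K n A B hirr hrig ψ hψ
    obtain ⟨s, hs⟩ := (h_sml K n A m0 x c0 hx).1 e he hAe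
    obtain ⟨t, ht⟩ := (h_sml K n B m1 y c1 hy).2 f hf hfB
    exact ⟨_, _, _, gmx_ex A B e f ψ m0 m1 s t c0 c1 ev hs ht⟩
  have hzero : ∀ ψ ∈ dm0, (∀ j : ℕ, coeff ψ (List.replicate j false ++ [true]) = 0) →
      ∃ m0 m1 : Matrix (Fin n) (Fin n) K, gmxD A B e f ψ m0 m1 0 := by
    intro ψ hψ hc
    obtain ⟨m0, m1, m2, h0, h1, -, h3, -⟩ := h_mat K n A B hirr hrig ψ hψ hc
    have c0 : m0 * A = A * m0 := by
      apply Matrix.toLin'.injective
      rw [Matrix.toLin'_mul, Matrix.toLin'_mul]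
      exact h0.1
    have c1 : m1 * B = B * m1 := by
      apply Matrix.toLin'.injective
      rw [Matrix.toLin'_mul, Matrix.toLin'_mul]
      exact h1.1
    refine ⟨m0, m1, c0, c1, h3, (main_kill h_smp h0 hx).1 e hAe, ?_⟩
    rw [(main_kill h_smp h1 hy).2 f hfB, zero_smul]
  have hcoef : ∀ ψ : QX, IsHom d ψ → coeff ψ (List.replicate (d - 1) false ++ [true]) = 0 →
      ∀ j : ℕ, coeff ψ (List.replicate j false ++ [true]) = 0 := by
    intro ψ hd h0 j
    by_cases hj : j + 1 = d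
    · have hj' : j = d - 1 := by omega
      rw [hj']
      exact h0
    · apply hd
      simpa using hj
  by_cases hcase : ∃ ψ₀ ∈ dm0, IsHom d ψ₀ ∧
      coeff ψ₀ (List.replicate (d - 1) false ++ [true]) ≠ 0
  · obtain ⟨ψ₀, hψ₀, hd₀, hc₀⟩ := hcase
    obtain ⟨m0', m1', s₀, hD₀⟩ := hex ψ₀ hψ₀
    refine ⟨s₀ / ((coeff ψ₀ (List.replicate (d - 1) false ++ [true]) : ℚ) : K), ?_⟩
    intro ψ hψ hd
    obtain ⟨m0, m1, s, hD⟩ := hex ψ hψ
    have hmem : coeff ψ₀ (List.replicate (d - 1) false ++ [true]) • ψ +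
        (-coeff ψ (List.replicate (d - 1) false ++ [true])) • ψ₀ ∈ dm0 :=
      h_add.1 _ _ (RT.dm0_smul _ hψ) (RT.dm0_smul _ hψ₀)
    have hhom : IsHom d (coeff ψ₀ (List.replicate (d - 1) false ++ [true]) • ψ +
        (-coeff ψ (List.replicate (d - 1) false ++ [true])) • ψ₀) :=
      (hd.smul _).add (hd₀.smul _)
    obtain ⟨m0'', m1'', hD'⟩ := hzero _ hmem (hcoef _ hhom (by
      rw [coeff_add, coeff_smul, coeff_smul]
      ring))
    have hlin := gmx_lin A B e f ψ ψ₀ m0 m1 m0' m1' s s₀ hD hD₀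
      (coeff ψ₀ (List.replicate (d - 1) false ++ [true]))
      (-coeff ψ (List.replicate (d - 1) false ++ [true]))
    have hs := gmx_un h_sch A B hirr e f he hf _ _ _ _ _ _ _ hlin hD'
    have hc₀' : ((coeff ψ₀ (List.replicate (d - 1) false ++ [true]) : ℚ) : K) ≠ 0 := by
      exact_mod_cast hc₀
    refine ⟨m0, m1, hD.c0, hD.c1, hD.ev, hD.h0, ?_⟩
    rw [hD.h1]
    congr 1
    push_cast at hs
    field_simp
    linear_combination hs
  · refine ⟨0, fun ψ hψ hd => ?_⟩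
    have h0 : coeff ψ (List.replicate (d - 1) false ++ [true]) = 0 := by
      by_contra hne
      exact hcase ⟨ψ, hψ, hd, hne⟩
    obtain ⟨m0, m1, hD⟩ := hzero ψ hψ (hcoef ψ hd h0)
    refine ⟨m0, m1, hD.c0, hD.c1, hD.ev, hD.h0, ?_⟩
    rw [hD.h1, zero_mul]

end Pool.Agent.MP_a57f33_nt.RG
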