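import Pool.Agent.Lib.MP_a57f33_nt.RG.Stm2
import Pool.Agent.Lib.MP_a57f33_nt.RT.Fin

/-!
# [gst] the Gamma structure of the connection coefficients of a rigid pair (assembly)
-/

namespace Pool.Agent.MP_a57f33_nt.RG

open Pool.Agent.MP_a57f33_nt

private lemma gst_SW_congr {M : Type} [AddCommMonoid M] (n : ℕ) :
    ∀ f g : List Bool → M, (∀ w : List Bool, w.length = n → f w = g w) →
      BZ.SW n f = BZ.SW n g := by
  induction n with
  | zero =>
    intro f g h
    exact h [] rfl
  | succ n ih =>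
    intro f g h
    simp only [BZ.SW]
    rw [ih (fun w => f (false :: w)) (fun w => g (false :: w)) (fun w hw => h _ (by simp [hw])),
      ih (fun w => f (true :: w)) (fun w => g (true :: w)) (fun w hw => h _ (by simp [hw]))]

private lemma gst_SW_mul {k : Type} [CommRing k] (c : k) (n : ℕ) :
    ∀ f : List Bool → k, BZ.SW n (fun w => c * f w) = c * BZ.SW n f := by
  induction n with
  | zero =>
    intro f
    rfl
  | succ n ih =>
    intro f
    simp only [BZ.SW]
    rw [ih (fun w => f (false :: w)), ih (fun w => f (true :: w)), mul_add]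

private lemma gst_coeff_mul {k : Type} [CommRing k] (N : ℕ) (g g' h h' : PowerSeries k)
    (hg : ∀ i ≤ N, PowerSeries.coeff i g = PowerSeries.coeff i g')
    (hh : ∀ i ≤ N, PowerSeries.coeff i h = PowerSeries.coeff i h') :
    ∀ i ≤ N, PowerSeries.coeff i (g * h) = PowerSeries.coeff i (g' * h') := by
  intro i hi
  rw [PowerSeries.coeff_mul, PowerSeries.coeff_mul]
  refine Finset.sum_congr rfl fun p hp => ?_
  rw [Finset.HasAntidiagonal.mem_antidiagonal] at hp
  rw [hg p.1 (by omega), hh p.2 (by omega)]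

private lemma gst_coeff_pow {k : Type} [CommRing k] (N : ℕ) (g g' : PowerSeries k)
    (hg : ∀ i ≤ N, PowerSeries.coeff i g = PowerSeries.coeff i g') (j : ℕ) :
    ∀ i ≤ N, PowerSeries.coeff i (g ^ j) = PowerSeries.coeff i (g' ^ j) := by
  induction j with
  | zero =>
    intro i _
    simp
  | succ j ih =>
    rw [pow_succ, pow_succ]
    exact gst_coeff_mul N _ _ _ _ ih hg

private lemma gst_coeff_expS {k : Type} [CommRing k] [Algebra ℚ k] (N : ℕ) (g g' : PowerSeries k)
    (hg : ∀ i ≤ N, PowerSeries.coeff i g = PowerSeries.coeff i g') :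
    ∀ i ≤ N, PowerSeries.coeff i (expS g) = PowerSeries.coeff i (expS g') := by
  intro i hi
  rw [expS, expS, PowerSeries.coeff_mk, PowerSeries.coeff_mk]
  refine Finset.sum_congr rfl fun j _ => ?_
  rw [gst_coeff_pow N g g' hg j i hi]

private lemma gst_const {K k : Type} [Field K] [CommRing k] [Algebra K k] (w : ℕ → K)
    (Z : List Bool → k) : PowerSeries.constantCoeff (-LL w Z) = 0 := by
  rw [map_neg, ← PowerSeries.coeff_zero_eq_constantCoeff_apply, LL, PowerSeries.coeff_mk]
  simp

private lemma gst_const_mon {k : Type} [CommRing k] (d : ℕ) (hd : 3 ≤ d) (c : k) :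
    PowerSeries.constantCoeff (PowerSeries.monomial d c) = 0 := by
  rw [← PowerSeries.coeff_zero_eq_constantCoeff_apply, PowerSeries.coeff_monomial, if_neg]
  omega

theorem p_gst (h_gmx : S_gmx) (h_flg : S_flg) (h_llf : S_llf) (h_exs : S_exs) (h_add : S_add) :
    S_gst := by
  intro K _ _ _ n A B hirr hrig x y e f he hf hAe hfB hrA hrB
  choose w0 hw0 using fun d => h_gmx K n A B hirr hrig x y e f he hf hAe hfB hrA hrB d
  obtain ⟨w, hwdef⟩ : ∃ w : ℕ → K, w = fun N => if Odd N ∧ 3 ≤ N then w0 N else 0 := ⟨_, rfl⟩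
  have hweven : ∀ N : ℕ, Even N → w N = 0 := by
    intro N hN
    rw [hwdef]
    simp only
    rw [if_neg]
    rintro ⟨h, -⟩
    exact (Nat.not_odd_iff_even.2 hN) h
  have hwodd : ∀ N : ℕ, Odd N → 3 ≤ N → w N = w0 N := by
    intro N h1 h2
    rw [hwdef]
    simp only
    rw [if_pos ⟨h1, h2⟩]
  -- the two products agree
  have hs : ∀ (d : ℕ) (φ : QX), φ ∈ dm0 → IsHom d φ → 3 ≤ d →
      w0 d * ((coeff φ (List.replicate (d - 1) false ++ [true]) : ℚ) : K) =
        w d * ((coeff φ (List.replicate (d - 1) false ++ [true]) : ℚ) : K) := by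
    intro d φ h1 h2 h3
    rcases Nat.even_or_odd d with hd | hd
    · rw [h_add.2 φ d h1 h2 hd]
      simp
    · rw [hwodd d hd h3]
  have main : ∀ (k : Type) [CommRing k] [Algebra K k] [Algebra ℚ k] (γ γ' : ℕ → k)
      (Z Z' : List Bool → k),
      Cyc.RegDS γ Z → Cyc.RegDS γ' Z' → Z [false, true] = Z' [false, true] →
      FS A (-B) e f Z * expS (-LL w Z) = FS A (-B) e f Z' * expS (-LL w Z') := by
    intro k _ _ _ γ γ' Z Z' hZ hZ' hZZ
    obtain ⟨e1, e2, e3, e4⟩ := h_exs k
    have hinv : RT.Invt (fun Y : List Bool → k =>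
        FS A (-B) e f Y * expS (-LL w Y) = FS A (-B) e f Z' * expS (-LL w Z')) := by
      intro γ1 Z1 φ d T c hZ1 hφ hφd hd hT hP
      obtain ⟨m0, m1, h1, h2, h3, h4, h5⟩ := hw0 d φ hφ hφd
      have h6 := h_flg K k n A (-B) m0 m1 e f _ d φ (by omega) hφd h1
        (by rw [mul_neg, neg_mul, h2]) h3 h4 h5 T Z1 c hT
      have h7 := h_llf K k d φ hd hφd hφ.1 T Z1 c w hT hZ1.one
      rw [h6, h7, hs d φ hφ hφd hd]
      obtain ⟨μ, hμ⟩ : ∃ μ : PowerSeries k, μ = PowerSeries.monomial d
        ((w d * ((coeff φ (List.replicate (d - 1) false ++ [true]) : ℚ) : K)) • c) := ⟨_, rfl⟩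
      rw [← hμ]
      have hμ0 : PowerSeries.constantCoeff μ = 0 := by
        rw [hμ]
        exact gst_const_mon d hd _
      have h8 : expS μ * expS (-μ) = 1 := by
        rw [← e1 μ (-μ) hμ0 (by rw [map_neg, hμ0, neg_zero]), add_neg_cancel, e2]
      have h9 : expS (-(LL w Z1 + μ)) = expS (-LL w Z1) * expS (-μ) := by
        rw [← e1 _ _ (gst_const w Z1) (by rw [map_neg, hμ0, neg_zero]), neg_add]
      rw [h9]
      calc expS μ * FS A (-B) e f Z1 * (expS (-LL w Z1) * expS (-μ))
          = (FS A (-B) e f Z1 * expS (-LL w Z1)) * (expS μ * expS (-μ)) := by ring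
        _ = FS A (-B) e f Z' * expS (-LL w Z') := by rw [h8, mul_one]; exact hP
    refine PowerSeries.ext fun N => ?_
    obtain ⟨γ2, Z2, -, h2, h3⟩ := RT.tor _ hinv γ γ' Z Z' hZ hZ' hZZ rfl N
    rw [← h2]
    refine gst_coeff_mul N _ _ _ _ ?_ ?_ N le_rfl
    · intro i hi
      rw [FS, FS, PowerSeries.coeff_mk, PowerSeries.coeff_mk]
      refine gst_SW_congr i _ _ fun v hv => ?_
      rw [h3 v (by omega)]
    · refine gst_coeff_expS N _ _ ?_
      intro i hi
      rw [map_neg, map_neg, LL, LL, PowerSeries.coeff_mk, PowerSeries.coeff_mk]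
      split_ifs with h4
      · rw [h3 _ (by simp only [List.length_append, List.length_replicate,
          List.length_singleton]; omega)]
      · rfl
  refine ⟨w, hweven, main, ?_, ?_⟩
  · intro k _ _ _ γ Z hZ N hN
    obtain ⟨e1, e2, e3, e4⟩ := h_exs k
    have h1 := main k _ _ _ _ (RT.b_sign hZ) hZ (by simp)
    have h2 : FS A (-B) e f (fun v => (-1) ^ v.length * Z v) =
        PowerSeries.rescale (-1 : k) (FS A (-B) e f Z) := by
      refine PowerSeries.ext fun M => ?_
      rw [PowerSeries.coeff_rescale, FS, FS, PowerSeries.coeff_mk, PowerSeries.coeff_mk,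
        ← gst_SW_mul]
      refine gst_SW_congr M _ _ fun v hv => ?_
      rw [hv, mul_smul_comm]
    have h3 : LL w (fun v => (-1) ^ v.length * Z v) = PowerSeries.rescale (-1 : k) (LL w Z) := by
      refine PowerSeries.ext fun M => ?_
      rw [PowerSeries.coeff_rescale, LL, LL, PowerSeries.coeff_mk, PowerSeries.coeff_mk]
      split_ifs with h4
      · have h5 : (List.replicate (M - 1) false ++ [true]).length = M := by
          simp only [List.length_append, List.length_replicate, List.length_singleton]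
          omega
        rw [h5, mul_smul_comm]
      · rw [mul_zero]
    rw [h2, h3, ← map_neg, e4, ← map_mul] at h1
    have h4 := congrArg (PowerSeries.coeff N) h1
    rw [PowerSeries.coeff_rescale, hN.neg_one_pow] at h4
    obtain ⟨c, hc⟩ : ∃ c : k, c = PowerSeries.coeff N (FS A (-B) e f Z * expS (-LL w Z)) :=
      ⟨_, rfl⟩
    rw [← hc] at h4 ⊢
    have h5 : (2 : ℚ) • c = 0 := by
      rw [two_smul]
      calc c + c = c - (-1 * c) := by ring
        _ = 0 := by rw [h4, sub_self]
    calc c = (1 / 2 : ℚ) • ((2 : ℚ) • c) := by rw [smul_smul]; norm_num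
      _ = 0 := by rw [h5, smul_zero]
  · intro N ψ hψ hN
    obtain ⟨m0, m1, h1, h2, h3, h4, h5⟩ := hw0 N ψ hψ hN
    rw [h3, Matrix.sub_mulVec, h4, sub_zero, Matrix.dotProduct_mulVec, h5, smul_dotProduct,
      smul_eq_mul]
    congr 1
    rcases Nat.even_or_odd N with hd | hd
    · rw [h_add.2 ψ N hψ hN hd]
      simp
    · by_cases h6 : 3 ≤ N
      · rw [hwodd N hd h6]
      · have h7 : N = 1 := by
          obtain ⟨c, hc⟩ := hd
          omega
        subst h7
        have h8 : coeff ψ (List.replicate (1 - 1) false ++ [true]) = 0 := hψ.2.2.1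
        rw [h8]
        simp

end Pool.Agent.MP_a57f33_nt.RG
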