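import Pool.Agent.Lib.MP_a57f33_nt.RG.Stm

/-!
# Project RG: piece im1
-/

namespace Pool.Agent.MP_a57f33_nt.RG

open Polynomial

private theorem im1_aeval {K V U : Type} [Field K] [AddCommGroup V] [Module K V]
    [AddCommGroup U] [Module K U] (ι : U →ₗ[K] V) (ρ : V →ₗ[K] U) (q : Polynomial K) (u : U) :
    Polynomial.aeval (R := K) (A := Module.End K V) (ι ∘ₗ ρ) q (ι u) =
      ι (Polynomial.aeval (R := K) (A := Module.End K U) (ρ ∘ₗ ι) q u) := by
  induction q using Polynomial.induction_on' generalizing u with
  | add p q hp hq => simp only [map_add, LinearMap.add_apply, hp, hq]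
  | monomial n c =>
    have hpow : ∀ (n : ℕ) (u : U), ((ι ∘ₗ ρ : Module.End K V) ^ n) (ι u) =
        ι (((ρ ∘ₗ ι : Module.End K U) ^ n) u) := by
      intro n
      induction n with
      | zero => intro u; simp
      | succ n ih =>
        intro u
        rw [pow_succ, pow_succ, Module.End.mul_apply, Module.End.mul_apply]
        simp only [LinearMap.comp_apply]
        exact ih (ρ (ι u))
    simp only [Polynomial.aeval_monomial, Module.End.mul_apply, hpow,
      Module.algebraMap_end_apply, map_smul]

theorem p_im1 : S_im1 := by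
  intro K V U _ _ _ _ _ _ _ ι ρ mV mU hι hρ h1 hC
  obtain ⟨hcomm, htr⟩ := hC
  have h2 : mU ∘ₗ ρ = ρ ∘ₗ mV := by
    ext v
    apply hι
    have e1 : mV ((ι ∘ₗ ρ) v) = (ι ∘ₗ ρ) (mV v) := by
      have := congrArg (fun f : Module.End K V => f v) hcomm
      simpa [Module.End.mul_apply] using this
    have e2 : mV (ι (ρ v)) = ι (mU (ρ v)) := by
      have := congrArg (fun f : U →ₗ[K] V => f (ρ v)) h1
      simpa using this
    simp only [LinearMap.comp_apply] at e1 ⊢
    rw [← e2, e1]
  refine ⟨⟨?_, ?_⟩, h2⟩
  · ext u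
    have e1 : mU (ρ (ι u)) = ρ (mV (ι u)) := by
      have := congrArg (fun f : V →ₗ[K] U => f (ι u)) h2
      simpa using this
    have e2 : mV (ι u) = ι (mU u) := by
      have := congrArg (fun f : U →ₗ[K] V => f u) h1
      simpa using this
    simp only [Module.End.mul_apply, LinearMap.comp_apply]
    rw [e1, e2]
  · intro q h
    have hR : (LinearMap.range (Polynomial.aeval (R := K) (A := Module.End K U) (ρ ∘ₗ ι) q)).map ι =
        LinearMap.range (Polynomial.aeval (R := K) (A := Module.End K V) (ι ∘ₗ ρ) (q * X)) := by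
      ext v
      simp only [Submodule.mem_map, LinearMap.mem_range]
      constructor
      · rintro ⟨u, ⟨w, rfl⟩, rfl⟩
        obtain ⟨x, rfl⟩ := hρ w
        refine ⟨x, ?_⟩
        rw [map_mul, Polynomial.aeval_X, Module.End.mul_apply]
        simp only [LinearMap.comp_apply]
        exact im1_aeval ι ρ q (ρ x)
      · rintro ⟨x, rfl⟩
        refine ⟨_, ⟨ρ x, rfl⟩, ?_⟩
        rw [map_mul, Polynomial.aeval_X, Module.End.mul_apply]
        simp only [LinearMap.comp_apply]
        exact (im1_aeval ι ρ q (ρ x)).symm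
    have hT := htr (q * X)
    rw [← hR] at hT
    have h' : ∀ x ∈ (LinearMap.range
        (Polynomial.aeval (R := K) (A := Module.End K U) (ρ ∘ₗ ι) q)).map ι,
        mV x ∈ (LinearMap.range
        (Polynomial.aeval (R := K) (A := Module.End K U) (ρ ∘ₗ ι) q)).map ι := by
      rintro x ⟨u, hu, rfl⟩
      refine ⟨mU u, h u hu, ?_⟩
      have := congrArg (fun f : U →ₗ[K] V => f u) h1
      simpa using this.symm
    have h0 := hT h'
    rw [← h0]
    set R1 := LinearMap.range (Polynomial.aeval (R := K) (A := Module.End K U) (ρ ∘ₗ ι) q)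
      with hR1
    let e : R1 ≃ₗ[K] (R1.map ι) := Submodule.equivMapOfInjective ι hι R1
    have he : e.conj (mU.restrict h) = mV.restrict h' := by
      ext y
      obtain ⟨x, rfl⟩ := e.surjective y
      rw [LinearEquiv.conj_apply_apply, LinearEquiv.symm_apply_apply]
      rw [LinearMap.restrict_coe_apply]
      change (((Submodule.equivMapOfInjective ι hι R1) (mU.restrict h x) : R1.map ι) : V) =
        mV (((Submodule.equivMapOfInjective ι hι R1) x : R1.map ι) : V)
      rw [Submodule.coe_equivMapOfInjective_apply, Submodule.coe_equivMapOfInjective_apply,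
        LinearMap.restrict_coe_apply]
      have := congrArg (fun f : U →ₗ[K] V => f (x : U)) h1
      simpa using this.symm
    rw [← he, LinearMap.trace_conj']

end Pool.Agent.MP_a57f33_nt.RG
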