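import Pool.Agent.Lib.MP_a57f33_nt.RG.Stm

/-!
Project RG (MP_a57f33_nt): piece [im2], extension of the trace condition from the image.
-/

namespace Pool.Agent.MP_a57f33_nt.RG

open Pool.Agent.MP_a57f33_nt

private lemma im2_proj {K V : Type} [Field K] [AddCommGroup V] [Module K V]
    [FiniteDimensional K V] (m : Module.End K V) (P : Submodule K V) (h : ∀ x ∈ P, m x ∈ P)
    (π : Module.End K V) (h1 : ∀ x, π x ∈ P) (h2 : ∀ x ∈ P, π x = x) :
    LinearMap.trace K P (m.restrict h) = LinearMap.trace K V (m ∘ₗ π) := by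
  rw [← LinearMap.trace_restrict_eq_of_forall_mem P (m ∘ₗ π) (fun x => h _ (h1 x))]
  congr 1
  ext x
  simp [h2 x x.2]

private lemma im2_exproj {K V : Type} [Field K] [AddCommGroup V] [Module K V]
    (P : Submodule K V) : ∃ π : Module.End K V, (∀ x, π x ∈ P) ∧ ∀ x ∈ P, π x = x := by
  obtain ⟨ρ, hρ⟩ := P.subtype.exists_leftInverse_of_injective (by simp)
  refine ⟨P.subtype ∘ₗ ρ, fun x => (ρ x).2, fun x hx => ?_⟩
  have := LinearMap.congr_fun hρ ⟨x, hx⟩
  simp only [LinearMap.comp_apply, Submodule.subtype_apply, LinearMap.id_coe, id_eq] at this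
  simp [this]

/-- transport of the trace along an injective map -/
private lemma im2_conj {K V U : Type} [Field K] [AddCommGroup V] [Module K V]
    [FiniteDimensional K V] [AddCommGroup U] [Module K U] [FiniteDimensional K U]
    (ι : U →ₗ[K] V) (hι : Function.Injective ι) (mV : Module.End K V) (mU : Module.End K U)
    (hm : mV ∘ₗ ι = ι ∘ₗ mU) (P : Submodule K U) (hP : ∀ x ∈ P, mU x ∈ P)
    (hQ : ∀ x ∈ P.map ι, mV x ∈ P.map ι) :
    LinearMap.trace K _ (mV.restrict hQ) = LinearMap.trace K _ (mU.restrict hP) := by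
  obtain ⟨lam, hl⟩ := ι.exists_leftInverse_of_injective (LinearMap.ker_eq_bot.2 hι)
  obtain ⟨π, h1, h2⟩ := im2_exproj P
  rw [im2_proj mU P hP π h1 h2, im2_proj mV (P.map ι) hQ (ι ∘ₗ π ∘ₗ lam)
    (fun x => Submodule.mem_map_of_mem (h1 _)) ?_]
  · rw [← LinearMap.comp_assoc, hm, LinearMap.comp_assoc, LinearMap.trace_comp_comm',
      LinearMap.comp_assoc, LinearMap.comp_assoc, hl, LinearMap.comp_id]
  · rintro _ ⟨y, hy, rfl⟩
    have e := LinearMap.congr_fun hl y
    simp only [LinearMap.comp_apply, LinearMap.id_coe, id_eq] at e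
    simp [e, h2 y hy]

/-- additivity of the trace for an endomorphism commuting with `m` -/
private lemma im2_add {K V : Type} [Field K] [AddCommGroup V] [Module K V]
    [FiniteDimensional K V] (m h : Module.End K V) (hc : m ∘ₗ h = h ∘ₗ m) (U : Submodule K V)
    (hU : ∀ x ∈ U, m x ∈ U) (h1 : ∀ x ∈ U.map h, m x ∈ U.map h)
    (h2 : ∀ x ∈ LinearMap.ker h ⊓ U, m x ∈ LinearMap.ker h ⊓ U) :
    LinearMap.trace K _ (m.restrict hU) =
      LinearMap.trace K _ (m.restrict h2) + LinearMap.trace K _ (m.restrict h1) := by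
  obtain ⟨π, p1, p2⟩ := im2_exproj U
  -- the map onto the image and a section
  let W := U.map h
  let c : U →ₗ[K] W := h.restrict (fun x hx => Submodule.mem_map_of_mem hx)
  have hcs : Function.Surjective c := by
    rintro ⟨_, y, hy, rfl⟩
    exact ⟨⟨y, hy⟩, rfl⟩
  obtain ⟨s, hs⟩ := c.exists_rightInverse_of_surjective (LinearMap.range_eq_top.2 hcs)
  obtain ⟨ρ, hρ⟩ := W.subtype.exists_leftInverse_of_injective (by simp)
  let t : Module.End K V := U.subtype ∘ₗ s ∘ₗ ρ
  have ht1 : ∀ x, t x ∈ U := fun x => (s (ρ x)).2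
  have ht2 : ∀ x, h (t x) = (ρ x : V) := by
    intro x
    have := congrArg (W.subtype) (LinearMap.congr_fun hs (ρ x))
    simp only [LinearMap.comp_apply, Submodule.subtype_apply, LinearMap.id_coe, id_eq] at this
    exact this
  have hρ2 : ∀ x (hx : x ∈ W), (ρ x : V) = x := by
    intro x hx
    have := LinearMap.congr_fun hρ ⟨x, hx⟩
    simp only [LinearMap.comp_apply, Submodule.subtype_apply, LinearMap.id_coe, id_eq] at this
    rw [this]
  have e1 : LinearMap.trace K _ (m.restrict h1) = LinearMap.trace K V (m ∘ₗ t ∘ₗ h ∘ₗ π) := by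
    rw [im2_proj m W h1 (W.subtype ∘ₗ ρ) (fun x => (ρ x).2) (fun x hx => hρ2 x hx)]
    have a1 : W.subtype ∘ₗ ρ = h ∘ₗ t := by
      ext x; simp [ht2]
    have a2 : π ∘ₗ m ∘ₗ t ∘ₗ h = m ∘ₗ t ∘ₗ h := by
      ext x; exact p2 _ (hU _ (ht1 _))
    rw [a1, ← LinearMap.comp_assoc, hc, LinearMap.comp_assoc, LinearMap.trace_comp_comm',
      LinearMap.comp_assoc, ← a2, LinearMap.trace_comp_comm']
    rfl
  have e2 : LinearMap.trace K _ (m.restrict h2) =
      LinearMap.trace K V (m ∘ₗ (π - t ∘ₗ h ∘ₗ π)) := by
    refine im2_proj m _ h2 _ (fun x => ⟨?_, ?_⟩) (fun x hx => ?_)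
    · have : h (π x) ∈ W := Submodule.mem_map_of_mem (p1 x)
      simp [LinearMap.mem_ker, ht2, hρ2 _ this]
    · exact U.sub_mem (p1 x) (ht1 _)
    · have hx1 : h x = 0 := hx.1
      have hx2 : π x = x := p2 x hx.2
      simp [hx2, hx1]
  rw [e1, e2, im2_proj m U hU π p1 p2, LinearMap.comp_sub, map_sub]
  ring

theorem p_im2 : S_im2 := by
  intro K V U _ _ _ _ _ _ _ ι ρ mV mU hι hρ hm1 hm2 htr hC
  have hcomm : mV ∘ₗ (ι ∘ₗ ρ) = (ι ∘ₗ ρ) ∘ₗ mV := by
    rw [← LinearMap.comp_assoc, hm1, LinearMap.comp_assoc, hm2, LinearMap.comp_assoc]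
  set a : Module.End K V := ι ∘ₗ ρ with ha
  set c : Module.End K U := ρ ∘ₗ ι with hcdef
  have hmc : mU * c = c * mU := hC.1
  -- commutation with polynomials
  have hpa : ∀ q : Polynomial K, Polynomial.aeval a q ∘ₗ ι = ι ∘ₗ Polynomial.aeval c q := by
    intro q
    induction q using Polynomial.induction_on' with
    | add p q hp hq => rw [map_add, map_add, LinearMap.add_comp, hp, hq, LinearMap.comp_add]
    | monomial n x =>
      have hpow : ∀ n : ℕ, (a ^ n) ∘ₗ ι = ι ∘ₗ (c ^ n) := by
        intro n
        induction n with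
        | zero => rfl
        | succ n ih =>
          rw [pow_succ, pow_succ, Module.End.mul_eq_comp, Module.End.mul_eq_comp,
            LinearMap.comp_assoc, show a ∘ₗ ι = ι ∘ₗ c from rfl, ← LinearMap.comp_assoc, ih,
            LinearMap.comp_assoc]
      rw [Polynomial.aeval_monomial, Polynomial.aeval_monomial]
      ext y
      have := LinearMap.congr_fun (hpow n) y
      simp only [LinearMap.comp_apply] at this
      simp [Module.End.mul_apply, Module.algebraMap_end_apply, this]
  have hcU : ∀ q : Polynomial K, Commute mU (Polynomial.aeval c q) := by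
    intro q
    induction q using Polynomial.induction_on' with
    | add p q hp hq => rw [map_add]; exact hp.add_right hq
    | monomial n x =>
      rw [Polynomial.aeval_monomial]
      exact (Algebra.commute_algebraMap_right x mU).mul_right
        ((show Commute mU c from hmc).pow_right n)
  have haV : ∀ q : Polynomial K, Commute mV (Polynomial.aeval a q) := by
    intro q
    induction q using Polynomial.induction_on' with
    | add p q hp hq => rw [map_add]; exact hp.add_right hq
    | monomial n x =>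
      rw [Polynomial.aeval_monomial]
      exact (Algebra.commute_algebraMap_right x mV).mul_right
        ((show Commute mV a from hcomm).pow_right n)
  -- step A
  have stepA : ∀ q : Polynomial K,
      TrZ mV (LinearMap.range (Polynomial.aeval a (q * Polynomial.X))) := by
    intro q
    have er : LinearMap.range (Polynomial.aeval a (q * Polynomial.X)) =
        (LinearMap.range (Polynomial.aeval c q)).map ι := by
      rw [map_mul, Polynomial.aeval_X, Module.End.mul_eq_comp,
        show Polynomial.aeval a q ∘ₗ a = (ι ∘ₗ Polynomial.aeval c q) ∘ₗ ρ by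
          rw [← hpa q]; rfl,
        LinearMap.range_comp_of_range_eq_top _ (LinearMap.range_eq_top.2 hρ),
        LinearMap.range_comp]
    rw [er]
    intro hh
    have hP : ∀ x ∈ LinearMap.range (Polynomial.aeval c q),
        mU x ∈ LinearMap.range (Polynomial.aeval c q) := by
      rintro _ ⟨y, rfl⟩
      exact ⟨mU y, (LinearMap.congr_fun (hcU q).eq y).symm⟩
    rw [im2_conj ι hι mV mU hm1 _ hP hh]
    exact hC.2 q hP
  have invr : ∀ q : Polynomial K, ∀ x ∈ LinearMap.range (Polynomial.aeval a q),
      mV x ∈ LinearMap.range (Polynomial.aeval a q) := by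
    rintro q _ ⟨y, rfl⟩
    exact ⟨mV y, (LinearMap.congr_fun (haV q).eq y).symm⟩
  refine ⟨hcomm, fun q => ?_⟩
  by_cases hq0 : q.coeff 0 = 0
  · obtain ⟨q1, rfl⟩ := Polynomial.X_dvd_iff.2 hq0
    rw [mul_comm]
    exact stepA q1
  · set g : Module.End K V := Polynomial.aeval a q with hg
    have hcg : mV ∘ₗ g = g ∘ₗ mV := (haV q).eq
    have hker : LinearMap.ker g ≤ LinearMap.range a := by
      intro v hv
      have hv0 : g v = 0 := hv
      have e : q = q.divX * Polynomial.X + Polynomial.C (q.coeff 0) :=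
        (Polynomial.divX_mul_X_add q).symm
      have e2 : g v = Polynomial.aeval a q.divX (a v) + q.coeff 0 • v := by
        conv_lhs => rw [hg, e]
        rw [map_add, map_mul, Polynomial.aeval_X, Polynomial.aeval_C]
        simp [Module.End.mul_apply, Module.algebraMap_end_apply]
      have e3 : Polynomial.aeval a q.divX (a v) = a (Polynomial.aeval a q.divX v) := by
        have : Commute (Polynomial.aeval a q.divX)
            (Polynomial.aeval a (Polynomial.X : Polynomial K)) := by
          unfold Commute SemiconjBy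
          rw [← map_mul, ← map_mul, mul_comm]
        rw [Polynomial.aeval_X] at this
        exact LinearMap.congr_fun this.eq v
      rw [hv0, e3] at e2
      have e4 : q.coeff 0 • v = a (-(Polynomial.aeval a q.divX v)) := by
        rw [map_neg, eq_neg_iff_add_eq_zero, add_comm]; exact e2.symm
      refine ⟨(q.coeff 0)⁻¹ • -(Polynomial.aeval a q.divX v), ?_⟩
      rw [map_smul, ← e4, smul_smul, inv_mul_cancel₀ hq0, one_smul]
    have htop : ∀ x ∈ (⊤ : Submodule K V), mV x ∈ (⊤ : Submodule K V) := fun _ _ => trivial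
    have invk : ∀ U : Submodule K V, (∀ x ∈ U, mV x ∈ U) →
        ∀ x ∈ LinearMap.ker g ⊓ U, mV x ∈ LinearMap.ker g ⊓ U := by
      rintro U hU x ⟨hx1, hx2⟩
      refine ⟨?_, hU x hx2⟩
      have hx1' : g x = 0 := hx1
      have := LinearMap.congr_fun hcg x
      simp only [LinearMap.comp_apply, hx1', map_zero] at this
      exact this.symm
    have invm : ∀ U : Submodule K V, (∀ x ∈ U, mV x ∈ U) →
        ∀ x ∈ U.map g, mV x ∈ U.map g := by
      rintro U hU _ ⟨y, hy, rfl⟩
      exact ⟨mV y, hU y hy, (LinearMap.congr_fun hcg y).symm⟩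
    -- traces
    have t1 : LinearMap.trace K _ (mV.restrict htop) = 0 := by
      rw [im2_proj mV ⊤ htop LinearMap.id (fun _ => trivial) (fun _ _ => rfl),
        LinearMap.comp_id, htr]
    have hra : ∀ x ∈ LinearMap.range a, mV x ∈ LinearMap.range a := by
      have := invr Polynomial.X
      rwa [Polynomial.aeval_X] at this
    have t2 : LinearMap.trace K _ (mV.restrict hra) = 0 := by
      have := stepA 1
      rw [one_mul, Polynomial.aeval_X] at this
      exact this hra
    have t3 : LinearMap.trace K _ (mV.restrict (invm _ hra)) = 0 := by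
      have := stepA q
      rw [map_mul, Polynomial.aeval_X, Module.End.mul_eq_comp, LinearMap.range_comp] at this
      exact this (invm _ hra)
    have hTr : ∀ (A B : Submodule K V) (_ : A = B) (hA : ∀ x ∈ A, mV x ∈ A)
        (hB : ∀ x ∈ B, mV x ∈ B),
        LinearMap.trace K _ (mV.restrict hA) = LinearMap.trace K _ (mV.restrict hB) := by
      intro A B hAB hA hB
      subst hAB
      rfl
    have a1 := im2_add mV g hcg (LinearMap.range a) hra (invm _ hra) (invk _ hra)
    have a2 := im2_add mV g hcg ⊤ htop (invm _ htop) (invk _ htop)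
    rw [t2, t3, add_zero] at a1
    have hkk : LinearMap.ker g ⊓ LinearMap.range a = LinearMap.ker g ⊓ ⊤ := by
      rw [inf_top_eq, inf_eq_left.2 hker]
    rw [t1, ← hTr _ _ hkk (invk _ hra) (invk _ htop), ← a1, zero_add] at a2
    intro hh
    rw [hTr _ (Submodule.map g ⊤) (LinearMap.range_eq_map g) hh (invm _ htop)]
    exact a2.symm

end Pool.Agent.MP_a57f33_nt.RG
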