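import Pool.Agent.Lib.MP_a57f33_nt.RG.Stm

/-!
Piece [inv]: invariance of `G` under `M ↦ M + x`.
-/

namespace Pool.Agent.MP_a57f33_nt.RG

open Pool.Agent.MP_a57f33_nt

section words

variable {M : Type} [AddCommMonoid M]

private theorem inv_SW_congr : ∀ (n : ℕ) {f g : List Bool → M}, (∀ w, w.length = n → f w = g w) →
    BZ.SW n f = BZ.SW n g
  | 0, f, g, h => h [] rfl
  | n + 1, f, g, h => by
    simp only [BZ.SW]
    rw [inv_SW_congr n (fun w hw => h (false :: w) (by simp [hw])),
      inv_SW_congr n (fun w hw => h (true :: w) (by simp [hw]))]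

private theorem inv_SW_map {M' : Type} [AddCommMonoid M'] (φ : M →+ M') :
    ∀ (n : ℕ) (f : List Bool → M), BZ.SW n (fun w => φ (f w)) = φ (BZ.SW n f)
  | 0, _ => rfl
  | n + 1, f => by
    simp only [BZ.SW, map_add]
    rw [inv_SW_map φ n, inv_SW_map φ n]

private theorem inv_SW_add : ∀ (n : ℕ) (f g : List Bool → M),
    BZ.SW n (fun w => f w + g w) = BZ.SW n f + BZ.SW n g
  | 0, _, _ => rfl
  | n + 1, f, g => by
    simp only [BZ.SW]
    rw [inv_SW_add n (fun w => f (false :: w)), inv_SW_add n (fun w => f (true :: w)),
      add_add_add_comm]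

private theorem inv_SW_zero : ∀ (n : ℕ), BZ.SW n (fun _ => (0 : M)) = 0
  | 0 => rfl
  | n + 1 => by
    simp only [BZ.SW]
    rw [inv_SW_zero n, add_zero]

private theorem inv_SW_snoc : ∀ (n : ℕ) (f : List Bool → M),
    BZ.SW (n + 1) f = BZ.SW n (fun w => f (w ++ [false])) + BZ.SW n (fun w => f (w ++ [true]))
  | 0, _ => rfl
  | n + 1, f => by
    have h0 := inv_SW_snoc n (fun w => f (false :: w))
    have h1 := inv_SW_snoc n (fun w => f (true :: w))
    have e1 : BZ.SW (n + 1 + 1) f = BZ.SW (n + 1) (fun w => f (false :: w)) +
      BZ.SW (n + 1) (fun w => f (true :: w)) := rfl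
    rw [e1, h0, h1]
    simp only [BZ.SW, List.cons_append]
    rw [add_add_add_comm]

end words

section alg

variable {K S : Type} [Field K] [Ring S] [Algebra K S]

/-- The product `e_i M e_j M ⋯`. -/
private def invG (E : Bool → S) (M : S) : Bool → List Bool → S
  | i, [] => E i
  | i, j :: v => E i * M * invG E M j v

/-- The coefficients of the powers of `x` in the product for `M + x`. -/
private def invC (E : Bool → S) (M : S) : Bool → List Bool → ℕ → S
  | i, [], 0 => E i
  | _, [], _ + 1 => 0
  | i, j :: v, 0 => E i * M * invC E M j v 0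
  | i, j :: v, r + 1 => E i * M * invC E M j v (r + 1) + if i = j then invC E M j v r else 0

/-- `∑_{i, |v| = m} k(i v) c r (i v)`. -/
private def invP (E : Bool → S) (M : S) (k : List Bool → K) (m r : ℕ) : S :=
  BZ.SW m (fun v => k (false :: v) • invC E M false v r) +
    BZ.SW m (fun v => k (true :: v) • invC E M true v r)

private def invD (k : List Bool → K) : List Bool → K
  | [] => 0
  | j :: v => k (j :: j :: v)

private theorem invP_congr (E : Bool → S) (M : S) (k k' : List Bool → K) (m r : ℕ)
    (h : ∀ i v, v.length = m → k (i :: v) = k' (i :: v)) :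
    invP E M k m r = invP E M k' m r := by
  unfold invP
  congr 1 <;> exact inv_SW_congr m (fun v hv => by rw [h _ v hv])

private theorem invP_add (E : Bool → S) (M : S) (k k' : List Bool → K) (m r : ℕ) :
    invP E M (fun w => k w + k' w) m r = invP E M k m r + invP E M k' m r := by
  simp only [invP, add_smul]
  rw [inv_SW_add, inv_SW_add, add_add_add_comm]

private theorem invP_zero (E : Bool → S) (M : S) (k : List Bool → K) (m r : ℕ)
    (h : ∀ i v, v.length = m → k (i :: v) = 0) : invP E M k m r = 0 := by
  rw [invP_congr E M k (fun _ => 0) m r h]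
  simp only [invP, zero_smul]
  rw [inv_SW_zero, add_zero]

private theorem inv_SW_mulsmul (a : S) (k : List Bool → K) (c : List Bool → S) (n : ℕ) :
    BZ.SW n (fun w => k w • (a * c w)) = a * BZ.SW n (fun w => k w • c w) := by
  have h := inv_SW_map (AddMonoidHom.mulLeft a) n (fun w => k w • c w)
  simp only [AddMonoidHom.coe_mulLeft, mul_smul_comm] at h
  exact h

private theorem invP_succ_zero (E : Bool → S) (M : S) (k : List Bool → K) (m : ℕ) :
    invP E M k (m + 1) 0 = E false * M * invP E M (fun w => k (false :: w)) m 0 +
      E true * M * invP E M (fun w => k (true :: w)) m 0 := by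
  simp only [invP, BZ.SW, invC, inv_SW_mulsmul, mul_add]

private theorem invP_succ_succ (E : Bool → S) (M : S) (k : List Bool → K) (m r : ℕ) :
    invP E M k (m + 1) (r + 1) = E false * M * invP E M (fun w => k (false :: w)) m (r + 1) +
      E true * M * invP E M (fun w => k (true :: w)) m (r + 1) + invP E M (invD k) m r := by
  simp only [invP, BZ.SW, invC, smul_add, inv_SW_add, inv_SW_mulsmul, mul_add, invD, if_true,
    reduceCtorEq, if_false, smul_zero, inv_SW_zero]
  abel

/-- The main identity. -/
private theorem inv_claim (E : Bool → S) (M : S) : ∀ (m r : ℕ) (k : List Bool → K),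
    (r + 1) • invP E M k (m + 1) (r + 1) = invP E M (fun C => dbl C k) m r
  | 0, r, k => by
    rw [invP_succ_succ]
    have h1 : ∀ k : List Bool → K, invP E M k 0 (r + 1) = 0 := by
      intro k
      simp [invP, BZ.SW, invC]
    rw [h1, h1, mul_zero, mul_zero, add_zero, zero_add]
    cases r with
    | zero => simp [invP, BZ.SW, invC, invD, dbl]
    | succ r => simp [invP, BZ.SW, invC, invD, dbl]
  | m + 1, r, k => by
    have ih0 := inv_claim E M m r (fun w => k (false :: w))
    have ih1 := inv_claim E M m r (fun w => k (true :: w))
    rw [invP_succ_succ, smul_add, smul_add, ← mul_smul_comm, ← mul_smul_comm, ih0, ih1]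
    have e1 : (r + 1) • invP E M (invD k) (m + 1) r =
        r • invP E M (invD k) (m + 1) r + invP E M (invD k) (m + 1) r := by
      rw [add_smul, one_smul]
    rw [e1]
    cases r with
    | zero =>
      rw [invP_succ_zero E M (fun C => dbl C k), invP_succ_zero E M (invD k)]
      simp only [dbl, invP_add, invD]
      rw [zero_smul]
      simp only [mul_add]
      abel
    | succ r =>
      have ih := inv_claim E M m r (invD k)
      rw [ih, invP_succ_succ E M (fun C => dbl C k), invP_succ_succ E M (invD k)]
      have e2 : invP E M (invD fun C => dbl C k) m r =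
          invP E M (invD (invD k)) m r + invP E M (fun C => dbl C (invD k)) m r := by
        rw [← invP_add]
        apply invP_congr
        intro i v _
        simp only [invD, dbl]
      rw [e2]
      simp only [dbl, invP_add, invD, mul_add]
      abel

private theorem inv_g_eq (E : Bool → S) (M : S) (x : K)
    (hE : ∀ i j, E i * E j = if i = j then E j else 0) : ∀ (v : List Bool) (i : Bool) (n : ℕ),
    v.length < n → invG E (M + algebraMap K S x) i v =
      ∑ r ∈ Finset.range n, x ^ r • invC E M i v r
  | [], i, n, hn => by
    obtain ⟨n, rfl⟩ : ∃ n', n = n' + 1 := ⟨n - 1, by simp at hn; omega⟩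
    rw [Finset.sum_range_succ']
    simp [invG, invC]
  | j :: v, i, n, hn => by
    obtain ⟨n, rfl⟩ : ∃ n', n = n' + 1 := ⟨n - 1, by simp at hn; omega⟩
    have hn' : v.length < n := by simpa using hn
    have ih1 := inv_g_eq E M x hE v j (n + 1) (by omega)
    have ih0 := inv_g_eq E M x hE v j n hn'
    have hEg : ∀ v : List Bool, E i * invG E (M + algebraMap K S x) j v =
        if i = j then invG E (M + algebraMap K S x) j v else 0 := by
      intro v
      cases v with
      | nil => simp only [invG]; exact hE i j
      | cons a v =>
        simp only [invG]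
        rw [← mul_assoc, ← mul_assoc, hE i j]
        split_ifs <;> simp [mul_assoc]
    rw [Finset.sum_range_succ'] at ih1
    have e1 : invG E (M + algebraMap K S x) i (j :: v) =
        E i * M * invG E (M + algebraMap K S x) j v +
          x • (E i * invG E (M + algebraMap K S x) j v) := by
      simp only [invG]
      rw [mul_add, add_mul, ← Algebra.commutes, mul_assoc (algebraMap K S x), ← Algebra.smul_def]
    rw [e1, hEg v, Finset.sum_range_succ']
    simp only [invC, smul_add, Finset.sum_add_distrib]
    have e2 : E i * M * invG E (M + algebraMap K S x) j v =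
        ∑ r ∈ Finset.range n, x ^ (r + 1) • (E i * M * invC E M j v (r + 1)) +
          x ^ 0 • (E i * M * invC E M j v 0) := by
      rw [ih1, mul_add, Finset.mul_sum]
      simp only [mul_smul_comm]
    have e3 : x • (if i = j then invG E (M + algebraMap K S x) j v else 0) =
        ∑ r ∈ Finset.range n, x ^ (r + 1) • (if i = j then invC E M j v r else 0) := by
      split_ifs
      · rw [ih0, Finset.smul_sum]
        apply Finset.sum_congr rfl
        intro r _
        rw [smul_smul, pow_succ']
      · simp
    rw [e2, e3]
    abel

private def invL (E : Bool → S) (M : S) : List Bool → S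
  | [] => 0
  | i :: v => invG E M i v

private theorem inv_ev (e f M : S) (i : Bool) : ∀ w : List Bool,
    BZ.ev (e * M) (f * M) w * cond i f e = invL (fun b => cond b f e) M (w ++ [i])
  | [] => by simp [BZ.ev, invL, invG]
  | a :: w => by
    have ih := inv_ev e f M i w
    have e1 : BZ.ev (e * M) (f * M) (a :: w) = cond a f e * M * BZ.ev (e * M) (f * M) w := by
      cases a <;> simp [BZ.ev]
    rw [e1, mul_assoc, ih]
    cases w with
    | nil => simp [invL, invG]
    | cons b w => simp [invL, invG]

private theorem inv_G_eq (k : List Bool → K) (N : ℕ)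
    (hk : ∀ (a : Bool) (w : List Bool), w.length = N → k (w ++ [a]) = k (a :: w)) (e f M : S) :
    G k N e f M = BZ.SW N (fun v => k (false :: v) • invG (fun b => cond b f e) M false v) +
      BZ.SW N (fun v => k (true :: v) • invG (fun b => cond b f e) M true v) := by
  have h0 : ∀ i : Bool, phi k N i (e * M) (f * M) * cond i f e =
      BZ.SW N (fun w => k (w ++ [i]) • invL (fun b => cond b f e) M (w ++ [i])) := by
    intro i
    have h := inv_SW_map (AddMonoidHom.mulRight (cond i f e)) N
      (fun w => k (i :: w) • BZ.ev (e * M) (f * M) w)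
    simp only [AddMonoidHom.mulRight_apply, smul_mul_assoc] at h
    rw [phi, ← h]
    apply inv_SW_congr
    intro w hw
    rw [inv_ev, hk i w hw]
  have h1 := inv_SW_snoc N (fun u => k u • invL (fun b => cond b f e) M u)
  have h2 := h0 false
  have h3 := h0 true
  simp only [cond_false, cond_true] at h2 h3
  rw [G, h2, h3, ← h1]
  rfl

end alg

theorem p_inv : S_inv := by
  intro K S _ _ _ _ k N hk hd e f M x h1 h2 h3
  have hee : e * e = e := by
    have : e * (e + f) = e := by rw [h1, mul_one]
    rwa [mul_add, h2, add_zero] at this
  have hff : f * f = f := by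
    have : f * (e + f) = f := by rw [h1, mul_one]
    rwa [mul_add, h3, zero_add] at this
  set E : Bool → S := fun b => cond b f e with hEdef
  have hE : ∀ i j, E i * E j = if i = j then E j else 0 := by
    intro i j
    cases i <;> cases j <;> simp [hEdef, hee, hff, h2, h3]
  have key : ∀ y : K, G k N e f (M + algebraMap K S y) = invP E M k N 0 := by
    intro y
    rw [inv_G_eq k N hk]
    have g1 : ∀ i : Bool, BZ.SW N (fun v => k (i :: v) • invG E (M + algebraMap K S y) i v) =
        ∑ r ∈ Finset.range (N + 1), y ^ r • BZ.SW N (fun v => k (i :: v) • invC E M i v r) := by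
      intro i
      have g2 : ∀ n, BZ.SW N (fun v => ∑ r ∈ Finset.range n, y ^ r • (k (i :: v) • invC E M i v r)) =
          ∑ r ∈ Finset.range n, y ^ r • BZ.SW N (fun v => k (i :: v) • invC E M i v r) := by
        intro n
        induction n with
        | zero => simp only [Finset.range_zero, Finset.sum_empty]; exact inv_SW_zero N
        | succ n ih =>
          simp only [Finset.sum_range_succ]
          rw [inv_SW_add, ih]
          congr 1
          exact inv_SW_map (DistribSMul.toAddMonoidHom S (y ^ n)) N _
      rw [← g2]
      apply inv_SW_congr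
      intro v hv
      rw [inv_g_eq E M y hE v i (N + 1) (by omega), Finset.smul_sum]
      apply Finset.sum_congr rfl
      intro r _
      rw [smul_comm]
    rw [g1, g1, ← Finset.sum_add_distrib]
    have g3 : ∀ r ∈ Finset.range (N + 1),
        y ^ r • BZ.SW N (fun v => k (false :: v) • invC E M false v r) +
        y ^ r • BZ.SW N (fun v => k (true :: v) • invC E M true v r) =
        y ^ r • invP E M k N r := by
      intro r _
      rw [invP, smul_add]
    rw [Finset.sum_congr rfl g3, Finset.sum_range_succ', pow_zero, one_smul]
    have g4 : ∀ r, invP E M k N (r + 1) = 0 := by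
      intro r
      cases N with
      | zero => simp [invP, BZ.SW, invC]
      | succ m =>
        have hc := inv_claim E M m r k
        have h0 : invP E M (fun C => dbl C k) m r = 0 := by
          apply invP_zero
          intro i v hv
          exact hd (i :: v) (by simp [hv])
        rw [h0] at hc
        have hc' : ((r + 1 : ℕ) : K) • invP E M k (m + 1) (r + 1) = 0 := by
          rw [Nat.cast_smul_eq_nsmul]; exact hc
        have hne : ((r + 1 : ℕ) : K) ≠ 0 := Nat.cast_ne_zero.mpr (Nat.succ_ne_zero r)
        exact (smul_eq_zero_iff_right hne).mp hc'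
    simp only [g4, smul_zero, Finset.sum_const_zero, zero_add]
  have hx := key x
  have h0 := key 0
  rw [map_zero, add_zero] at h0
  rw [hx, h0]

end Pool.Agent.MP_a57f33_nt.RG
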