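import Pool.Agent.Lib.MP_a57f33_nt.RG.Stm2
import Pool.Agent.Lib.MP_a57f33_nt.BZ.P_cyc

/-!
Project RG (MP_a57f33_nt): piece [mxt], local factors for every element of `dm₀`, matrices.
-/

namespace Pool.Agent.MP_a57f33_nt.RG

open Pool.Agent.MP_a57f33_nt

private lemma mxt_zd {K S S' : Type} [Field K] [Ring S] [Algebra K S] [Ring S'] [Algebra K S']
    (f : S ≃ₐ[K] S') (x : S) : zd (K := K) (f x) = zd (K := K) x := by
  unfold zd
  rw [← Subalgebra.finrank_toSubmodule, ← Subalgebra.finrank_toSubmodule]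
  refine (LinearEquiv.finrank_eq (f.toLinearEquiv.ofSubmodules _ _ ?_)).symm
  ext y
  simp only [Submodule.mem_map, Subalgebra.mem_toSubmodule, Subalgebra.mem_centralizer_iff,
    Set.mem_singleton_iff, forall_eq]
  constructor
  · rintro ⟨z, hz, rfl⟩
    change f x * f z = f z * f x
    rw [← map_mul, hz, map_mul]
  · intro hy
    refine ⟨f.symm y, ?_, ?_⟩
    · apply f.injective
      rw [map_mul, map_mul, f.apply_symm_apply, hy]
    · exact f.apply_symm_apply y

theorem p_mxt (h_ex : S_ex) : S_mxt := by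
  intro K _ _ _ n A B hirr hzd ψ hψ
  let e : Matrix (Fin n) (Fin n) K ≃ₐ[K] ((Fin n → K) →ₗ[K] (Fin n → K)) :=
    Matrix.toLinAlgEquiv'
  have he : ∀ (M : Matrix (Fin n) (Fin n) K) (x : Fin n → K), e M x = Matrix.mulVec M x :=
    fun M x => Matrix.toLinAlgEquiv'_apply M x
  let E : QX →ₐ[ℚ] Matrix (Fin n) (Fin n) K := FreeAlgebra.lift ℚ (fun b : Bool => cond b B A)
  have hE0 : E X0 = A := by simp [E, X0]
  have hE1 : E X1 = B := by simp [E, X1]
  have hI : Irr (e A) (e B) := by
    intro U h1 h2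
    exact hirr U (fun x hx => by rw [← he]; exact h1 x hx) (fun x hx => by rw [← he]; exact h2 x hx)
  have hz : Module.finrank K (Fin n → K) ^ 2 + 2 ≤
      zd (K := K) (e A) + zd (K := K) (e B) + zd (K := K) (e A + e B) := by
    rw [Module.finrank_fin_fun, ← map_add, mxt_zd e A, mxt_zd e B, mxt_zd e (A + B)]
    exact hzd
  have hc : (e A * e (E (BZ.ph0 ψ)) - e (E (BZ.ph0 ψ)) * e A) +
      (e B * e (E (BZ.ph1 ψ)) - e (E (BZ.ph1 ψ)) * e B) = 0 := by
    have h1 := congrArg (fun u => e (E u)) (BZ.cyc_id hψ)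
    simpa only [map_add, map_sub, map_mul, map_zero, hE0, hE1] using h1
  obtain ⟨m0, m1, m2, h0, h1, h2, hp, hq⟩ := h_ex K (Fin n → K) (e A) (e B) hI hz _ _ hc
  have hsgn : FreeAlgebra.lift ℚ (fun b : Bool => cond b (-B) A) ψ = E (BZ.sgn ψ) := by
    have : FreeAlgebra.lift ℚ (fun b : Bool => cond b (-B) A) = E.comp BZ.sgn := by
      apply FreeAlgebra.hom_ext
      funext b
      cases b
      · change _ = E (BZ.sgn X0)
        rw [BZ.cyc_sgn0, hE0]
        simp
      · change _ = E (BZ.sgn X1)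
        rw [BZ.cyc_sgn1, map_neg, hE1]
        simp
    rw [this]
    rfl
  have hrot : FreeAlgebra.lift ℚ (fun b : Bool => cond b (-B) (-A - B)) ψ = E (BZ.rot ψ) := by
    have : FreeAlgebra.lift ℚ (fun b : Bool => cond b (-B) (-A - B)) = E.comp BZ.rot := by
      apply FreeAlgebra.hom_ext
      funext b
      cases b
      · change _ = E (BZ.rot X0)
        rw [BZ.cyc_rot0, map_sub, map_neg, hE0, hE1]
        simp
      · change _ = E (BZ.rot X1)
        rw [BZ.cyc_rot1, map_neg, hE1]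
        simp
    rw [this]
    rfl
  have hph : BZ.sgn ψ = BZ.ph1 ψ - BZ.ph0 ψ := by
    unfold BZ.ph1 BZ.ph0
    abel
  have comm : ∀ (m : Module.End K (Fin n → K)) (M : Matrix (Fin n) (Fin n) K),
      m * e M = e M * m → e.symm m * M = M * e.symm m := by
    intro m M hm
    apply e.injective
    rw [map_mul, map_mul, e.apply_symm_apply]
    exact hm
  refine ⟨e.symm m0, e.symm m1, e.symm m2, comm _ _ h0, comm _ _ h1,
    comm _ _ (by rw [map_add]; exact h2), ?_, ?_⟩
  · rw [hsgn, hph, map_sub]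
    apply e.injective
    rw [map_sub, map_sub, e.apply_symm_apply, e.apply_symm_apply, hp, hq]
    abel
  · rw [hrot]
    apply e.injective
    rw [map_sub, e.apply_symm_apply, e.apply_symm_apply, ← hq]
    rfl

end Pool.Agent.MP_a57f33_nt.RG
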