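import Pool.Agent.Lib.MP_a57f33_nt.RG.Stm
import Pool.Agent.Lib.MP_a57f33_nt.BZ.P_tn
import Pool.Agent.Lib.MP_a57f33_nt.BZ.P_cyc
import Pool.Agent.Lib.MP_a57f33_nt.BZ.P_dbl

/-!
Piece [pot]: the potential of an element of `dm₀` without part of depth one.
-/

namespace Pool.Agent.MP_a57f33_nt.RG

open Pool.Agent.MP_a57f33_nt
open Polynomial

attribute [local instance 100] LieRing.ofAssociativeRing

/-! ### the doubling operator -/

private theorem pot_dbl_cast {K : Type} [Field K] [CharZero K] (C : List Bool) :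
    ∀ f : List Bool → ℚ, RG.dbl C (fun w => ((f w : ℚ) : K)) = ((BZ.dbl C f : ℚ) : K) := by
  induction C with
  | nil => intro f; simp [RG.dbl, BZ.dbl]
  | cons a w ih =>
    intro f
    simp only [RG.dbl, BZ.dbl]
    rw [ih (fun t => f (a :: t)), Rat.cast_add]

private theorem pot_sgn_word (w : List Bool) :
    BZ.sgn (word w) = ((-1 : ℚ) ^ (w.count true)) • word w := by
  induction w with
  | nil => simp
  | cons a w ih =>
    rw [word_cons, map_mul, ih]
    cases a with
    | false =>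
      have e : BZ.sgn (FreeAlgebra.ι ℚ false) = FreeAlgebra.ι ℚ false := by simp [BZ.sgn, X0]
      rw [e]
      simp
    | true =>
      have e : BZ.sgn (FreeAlgebra.ι ℚ true) = (-1 : ℚ) • FreeAlgebra.ι ℚ true := by
        simp [BZ.sgn, X1]
      rw [e]
      simp [pow_succ]

private theorem pot_sgn_coeff (ψ : QX) (w : List Bool) :
    coeff (BZ.sgn ψ) w = (-1 : ℚ) ^ (w.count true) * coeff ψ w := by
  have key : (coeffL w).comp BZ.sgn.toLinearMap = ((-1 : ℚ) ^ (w.count true)) • coeffL w := by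
    apply linear_ext
    intro v
    simp only [LinearMap.comp_apply, LinearMap.smul_apply, coeffL_apply, AlgHom.toLinearMap_apply,
      pot_sgn_word, coeff_smul, coeff_word, smul_eq_mul]
    by_cases h : v = w
    · subst h
      simp
    · simp [h]
  exact LinearMap.congr_fun key ψ

/-! ### traces of Lie elements -/

section

variable {K S : Type} [Field K] [Ring S] [Algebra K S] [Algebra ℚ S]

private theorem pot_tr (τ : S →ₗ[K] K) (hτ : ∀ x y, τ (x * y) = τ (y * x))
    (hq : ∀ (r : ℚ) (s : S), τ (r • s) = (r : K) * τ s) (A B : S) {φ : QX} (h : φ ∈ LieX)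
    (h1 : ∀ b : Bool, coeff φ [b] = 0) (n : ℕ) : τ ((BZ.tn_EV A B φ).coeff n) = 0 := by
  by_cases hn : n = 1
  · subst hn
    rw [BZ.tn_EV_coeff]
    simp [BZ.SW, h1]
  · refine lie_induction (P := fun φ => τ ((BZ.tn_EV A B φ).coeff n) = 0) ?_ ?_ ?_ ?_ ?_ h
    · intro b
      rw [BZ.tn_EV_iota, coeff_monomial, if_neg (fun e => hn e.symm), map_zero]
    · simp
    · intro x y hx hy
      rw [map_add, Polynomial.coeff_add, map_add, hx, hy, add_zero]
    · intro r x hx
      rw [map_smul, Polynomial.coeff_smul, hq, hx, mul_zero]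
    · intro x y _ _ _ _
      rw [map_sub, map_mul, map_mul, Polynomial.coeff_sub, map_sub, Polynomial.coeff_mul,
        Polynomial.coeff_mul, map_sum, map_sum, sub_eq_zero,
        ← Finset.Nat.sum_antidiagonal_swap]
      apply Finset.sum_congr rfl
      intro p _
      rw [hτ]
      rfl

end

private theorem pot_smul {K S : Type} [Field K] [CharZero K] [Ring S] [Algebra K S] (r : ℚ)
    (s : S) : letI := Algebra.compHom S (algebraMap ℚ K); r • s = (r : K) • s := by
  change (algebraMap ℚ K r) • s = (r : K) • s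
  rw [eq_ratCast]

/-- The gradient of the potential. -/
private theorem pot_phi {K S : Type} [Field K] [CharZero K] [Ring S] [Algebra K S] (ψ : QX)
    (N : ℕ) (i : Bool) (a b : S) :
    letI := Algebra.compHom S (algebraMap ℚ K)
    phi (fun w => ((BZ.K ψ w : ℚ) : K)) N i a b =
      (BZ.tn_EV a b (cond i (BZ.ph1 ψ) (BZ.ph0 ψ))).coeff N := by
  let _ : Algebra ℚ S := Algebra.compHom S (algebraMap ℚ K)
  change _ = _
  rw [BZ.tn_EV_coeff]
  unfold phi
  congr 1
  funext w
  rw [pot_smul (K := K)]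
  change ((BZ.K ψ (i :: w) : ℚ) : K) • BZ.ev a b w = _
  rw [BZ.cyc_K]

private theorem pot_lie {ψ : QX} (h : ψ ∈ dm0) (i : Bool) :
    cond i (BZ.ph1 ψ) (BZ.ph0 ψ) ∈ LieX := by
  cases i
  · exact BZ.tn_ph0_lie h
  · exact BZ.tn_ph1_lie h

private theorem pot_lin {ψ : QX} (h : ψ ∈ dm0) (i b : Bool) :
    coeff (cond i (BZ.ph1 ψ) (BZ.ph0 ψ)) [b] = 0 := by
  cases i
  · exact BZ.tn_ph0_lin h b
  · exact BZ.tn_ph1_lin h b

private theorem pot_trace {K S : Type} [Field K] [CharZero K] [Ring S] [Algebra K S] {ψ : QX}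
    (h : ψ ∈ dm0) (N : ℕ) (τ : S →ₗ[K] K) (hτ : ∀ x y, τ (x * y) = τ (y * x)) (i : Bool)
    (a b : S) : τ (phi (fun w => ((BZ.K ψ w : ℚ) : K)) N i a b) = 0 := by
  let _ : Algebra ℚ S := Algebra.compHom S (algebraMap ℚ K)
  rw [pot_phi]
  refine pot_tr τ hτ (fun r s => ?_) a b (pot_lie h i) (pot_lin h i) N
  rw [pot_smul (K := K), map_smul, smul_eq_mul]

theorem p_pot : S_pot := by
  intro K _ _ ψ hψ h1 N
  have hcyc := BZ.p_cyc ψ hψ
  refine ⟨?_, ?_, ?_, ?_, ?_⟩
  · intro a w _
    exact congrArg _ (hcyc a w)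
  · intro C hC
    rw [pot_dbl_cast]
    have h2 := BZ.p_dbl ψ hψ hcyc N C hC
    rw [pot_sgn_coeff, h1, mul_zero, ite_self] at h2
    rw [h2, Rat.cast_zero]
  · intro S _ _ i a b x y
    let _ : Algebra ℚ S := Algebra.compHom S (algebraMap ℚ K)
    rw [pot_phi, pot_phi]
    have h3 := BZ.tn_lie (S := S) (S₁ := S) (S₂ := K) (RingHom.id S) (algebraMap K S)
      (fun s t => (Algebra.commutes t s).symm) a b x y (pot_lie hψ i)
    simp only [RingHom.id_apply] at h3
    rw [h3, Polynomial.coeff_add, Polynomial.coe_mapRingHom, Polynomial.coe_mapRingHom,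
      Polynomial.coeff_map, Polynomial.coeff_map]
    have h4 := pot_tr (K := K) (S := K) LinearMap.id (fun s t => mul_comm s t)
      (fun r s => by rw [LinearMap.id_apply, LinearMap.id_apply, Rat.smul_def]) x y (pot_lie hψ i)
      (pot_lin hψ i) N
    rw [LinearMap.id_apply] at h4
    rw [h4, map_zero, add_zero]
    rfl
  · intro S _ _ τ hτ i a b
    exact pot_trace hψ N τ hτ i a b
  · intro i
    rw [BZ.cyc_K, BZ.tn_coeff_nil (pot_lie hψ i), Rat.cast_zero]

end Pool.Agent.MP_a57f33_nt.RG
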