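import Pool.Agent.Lib.MP_a57f33_nt.RG.Stm2

/-!
# Project RG (MP_a57f33_nt): piece sch, the lemma of Schur
-/

namespace Pool.Agent.MP_a57f33_nt.RG

theorem p_sch : S_sch := by
  intro K _ _ V _ _ _ a b X hirr ha hb
  rcases subsingleton_or_nontrivial V with hV | hV
  · refine ⟨0, ?_⟩
    ext v
    exact Subsingleton.elim _ _
  · obtain ⟨x, hx⟩ := Module.End.exists_eigenvalue X
    have hmem : ∀ v, v ∈ Module.End.eigenspace X x ↔ X v = x • v :=
      fun v => Module.End.mem_eigenspace_iff
    have h1 : Module.End.eigenspace X x ≠ ⊥ := hx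
    have hinv : ∀ c : Module.End K V, X * c = c * X →
        ∀ v ∈ Module.End.eigenspace X x, c v ∈ Module.End.eigenspace X x := by
      intro c hc v hv
      rw [hmem] at hv ⊢
      have h2 : X (c v) = c (X v) := by
        have h3 := congrArg (fun f : Module.End K V => f v) hc
        simpa only [Module.End.mul_apply] using h3
      rw [h2, hv, map_smul]
    rcases hirr (Module.End.eigenspace X x) (hinv a ha) (hinv b hb) with h | h
    · exact absurd h h1
    · refine ⟨x, ?_⟩
      ext v
      have hv : v ∈ Module.End.eigenspace X x := by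
        rw [h]
        exact Submodule.mem_top
      rw [hmem] at hv
      rw [hv, Module.algebraMap_end_apply]

end Pool.Agent.MP_a57f33_nt.RG
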