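import Mathlib
import Pool.Agent.Lib.MP_a57f33_nt.RG.Stm

/-!
# Project RG (MP_a57f33_nt): piece shf
-/

namespace Pool.Agent.MP_a57f33_nt.RG

theorem p_shf : S_shf := by
  intro K V _ _ _ _ a m x h
  refine ⟨?_, ?_⟩
  · have h1 : m * algebraMap K (Module.End K V) x = algebraMap K (Module.End K V) x * m :=
      (Algebra.commutes x m).symm
    rw [mul_add, add_mul, h.1, h1]
  · intro q
    have h2 : Polynomial.aeval (a + algebraMap K (Module.End K V) x) q =
        Polynomial.aeval a (q.comp (Polynomial.X + Polynomial.C x)) := by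
      rw [Polynomial.aeval_comp]
      simp
    rw [h2]
    exact h.2 _

end Pool.Agent.MP_a57f33_nt.RG
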