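import Pool.Agent.Lib.MP_a57f33_nt.RG.Stm2

/-!
# Project RG (MP_a57f33_nt), piece [sml]: commuting matrices and simple eigenvectors
-/

namespace Pool.Agent.MP_a57f33_nt.RG

open Pool.Agent.MP_a57f33_nt

/-- The statement for endomorphisms. -/
private theorem sml_end {K V : Type} [Field K] [AddCommGroup V] [Module K V]
    [FiniteDimensional K V] (a m : Module.End K V) (x : K) (hcomm : ∀ v, m (a v) = a (m v))
    (hx : (LinearMap.charpoly a).rootMultiplicity x = 1) (e : V) (he : e ≠ 0)
    (hae : a e = x • e) : ∃ s : K, m e = s • e := by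
  have hE : Module.finrank K (Module.End.eigenspace a x) ≤ 1 := by
    rw [← hx]
    exact LinearMap.finrank_eigenspace_le a x
  have hemem : e ∈ Module.End.eigenspace a x := Module.End.mem_eigenspace_iff.2 hae
  have hmmem : m e ∈ Module.End.eigenspace a x := by
    rw [Module.End.mem_eigenspace_iff, ← hcomm, hae, map_smul]
  have hpos : 0 < Module.finrank K (Module.End.eigenspace a x) := by
    rw [Module.finrank_pos_iff_exists_ne_zero]
    exact ⟨⟨e, hemem⟩, fun h => he (congrArg Subtype.val h)⟩
  have h1 : Module.finrank K (Module.End.eigenspace a x) = 1 := by omega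
  have hne : (⟨e, hemem⟩ : Module.End.eigenspace a x) ≠ 0 :=
    fun h => he (congrArg Subtype.val h)
  obtain ⟨s, hs⟩ := (finrank_eq_one_iff_of_nonzero' _ hne).1 h1 ⟨m e, hmmem⟩
  exact ⟨s, (congrArg Subtype.val hs).symm⟩

/-- The statement for matrices and columns. -/
private theorem sml_mat {K : Type} [Field K] {n : ℕ} (A m : Matrix (Fin n) (Fin n) K) (x : K)
    (hcomm : m * A = A * m) (hx : A.charpoly.rootMultiplicity x = 1) (e : Fin n → K)
    (he : e ≠ 0) (hae : Matrix.mulVec A e = x • e) : ∃ s : K, Matrix.mulVec m e = s • e := by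
  have h := sml_end (Matrix.toLin' A) (Matrix.toLin' m) x ?_ ?_ e he ?_
  · obtain ⟨s, hs⟩ := h
    refine ⟨s, ?_⟩
    rw [← hs, Matrix.toLin'_apply]
  · intro v
    rw [Matrix.toLin'_apply, Matrix.toLin'_apply, Matrix.toLin'_apply, Matrix.toLin'_apply,
      Matrix.mulVec_mulVec, Matrix.mulVec_mulVec, hcomm]
  · rw [Matrix.charpoly_toLin']
    exact hx
  · rw [Matrix.toLin'_apply]
    exact hae

theorem p_sml : S_sml := by
  intro K _ n A m x hcomm hx
  refine ⟨fun e he hae => sml_mat A m x hcomm hx e he hae, ?_⟩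
  intro f hf hfA
  have h := sml_mat A.transpose m.transpose x ?_ ?_ f hf ?_
  · obtain ⟨s, hs⟩ := h
    refine ⟨s, ?_⟩
    rw [← hs, Matrix.mulVec_transpose]
  · rw [← Matrix.transpose_mul, ← Matrix.transpose_mul, hcomm]
  · rw [Matrix.charpoly_transpose]
    exact hx
  · rw [Matrix.mulVec_transpose]
    exact hfA

end Pool.Agent.MP_a57f33_nt.RG
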