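import Pool.Agent.Lib.MP_a57f33_nt.RG.Stm

/-!
# Project RG (MP_a57f33_nt), piece [smp]: simple eigenvalues
-/

namespace Pool.Agent.MP_a57f33_nt.RG

open Pool.Agent.MP_a57f33_nt

/-- An endomorphism of a line with trace zero is zero. -/
private theorem smp_line {K V : Type} [Field K] [AddCommGroup V] [Module K V]
    [FiniteDimensional K V] (h1 : Module.finrank K V = 1) (f : Module.End K V) (ht : LinearMap.trace K V f = 0) :
    f = 0 := by
  obtain ⟨v, hv0, hv⟩ := finrank_eq_one_iff'.1 h1
  obtain ⟨c, hc⟩ := hv (f v)
  have hf : f = c • (LinearMap.id : V →ₗ[K] V) := by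
    apply LinearMap.ext
    intro w
    obtain ⟨d, rfl⟩ := hv w
    simp only [map_smul, LinearMap.smul_apply, LinearMap.id_apply]
    rw [← hc, smul_comm]
  rw [hf, map_smul, LinearMap.trace_id, h1] at ht
  have hc0 : c = 0 := by simpa using ht
  rw [hf, hc0, zero_smul]

theorem p_smp : S_smp := by
  intro K V _ _ _ _ a m x hC hx
  obtain ⟨hcomm, htr⟩ := hC
  set c : Module.End K V := a - algebraMap K (Module.End K V) x with hcdef
  have hcv : ∀ v, c v = a v - x • v := by
    intro v
    simp [hcdef, Module.algebraMap_end_apply]
  have hmc : ∀ v, m (c v) = c (m v) := by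
    intro v
    rw [hcv, hcv, map_sub, map_smul]
    have : m (a v) = a (m v) := by
      have := congrArg (fun g : Module.End K V => g v) hcomm
      simpa using this
    rw [this]
  -- the generalised eigenspace
  have hE : Module.finrank K (Module.End.maxGenEigenspace a x) = 1 := by
    rw [LinearMap.finrank_maxGenEigenspace_eq, hx]
  have hker : LinearMap.ker c = Module.End.eigenspace a x := by
    ext v
    rw [LinearMap.mem_ker, Module.End.mem_eigenspace_iff, hcv, sub_eq_zero]
  have hroot : (LinearMap.charpoly a).IsRoot x := by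
    have : 0 < (LinearMap.charpoly a).rootMultiplicity x := by rw [hx]; exact one_pos
    exact (Polynomial.rootMultiplicity_pos (LinearMap.charpoly_monic a).ne_zero).1 this
  have hev : Module.End.HasEigenvalue a x :=
    (Module.End.hasEigenvalue_iff_isRoot_charpoly a x).2 hroot
  have hle : LinearMap.ker c ≤ Module.End.maxGenEigenspace a x := by
    rw [hker]
    exact (Module.End.genEigenspace a x).mono le_top
  have hkne : LinearMap.ker c ≠ ⊥ := by
    rw [hker]; exact hev
  have hk1 : Module.finrank K (LinearMap.ker c) = 1 := by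
    have h1 : Module.finrank K (LinearMap.ker c) ≤ 1 := by
      rw [← hE]; exact Submodule.finrank_mono hle
    have h2 : 0 < Module.finrank K (LinearMap.ker c) := by
      rw [Nat.pos_iff_ne_zero]
      intro h0
      exact hkne (Submodule.finrank_eq_zero.1 h0)
    omega
  have hkE : LinearMap.ker c = Module.End.maxGenEigenspace a x :=
    Submodule.eq_of_le_of_finrank_eq hle (by rw [hk1, hE])
  have hdis : Disjoint (LinearMap.ker c) (LinearMap.range c) := by
    rw [Submodule.disjoint_def]
    rintro v hv ⟨u, rfl⟩
    have hu : u ∈ Module.End.maxGenEigenspace a x := by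
      rw [Module.End.mem_maxGenEigenspace]
      refine ⟨2, ?_⟩
      have h2 : ((a - x • (1 : Module.End K V)) ^ 2) u = c (c u) := by
        rw [pow_two, Module.End.mul_apply]
        simp [hcv]
      rw [h2]
      exact LinearMap.mem_ker.1 hv
    rw [← hkE] at hu
    exact LinearMap.mem_ker.1 hu
  have hcompl : IsCompl (LinearMap.ker c) (LinearMap.range c) := by
    refine ⟨hdis, ?_⟩
    rw [codisjoint_iff]
    apply Submodule.eq_top_of_disjoint _ _ _ hdis
    rw [add_comm]
    exact (LinearMap.finrank_range_add_finrank_ker c).ge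
  -- m preserves both
  have hmk : ∀ v ∈ LinearMap.ker c, m v ∈ LinearMap.ker c := by
    intro v hv
    rw [LinearMap.mem_ker] at hv ⊢
    rw [← hmc, hv, map_zero]
  have hmr : ∀ v ∈ LinearMap.range c, m v ∈ LinearMap.range c := by
    rintro v ⟨u, rfl⟩
    exact ⟨m u, (hmc u).symm⟩
  -- traces
  have ht0 : LinearMap.trace K V m = 0 := by
    have h := htr 1
    have hr : LinearMap.range (Polynomial.aeval a (1 : Polynomial K)) = ⊤ := by
      rw [map_one]
      exact LinearMap.range_eq_top.2 (fun v => ⟨v, rfl⟩)
    unfold TrZ at h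
    rw [hr] at h
    have h1 := h (fun v _ => Submodule.mem_top)
    rw [← h1]
    have h2 := LinearMap.trace_conj' (m.restrict (fun v (_ : v ∈ (⊤ : Submodule K V)) =>
      (Submodule.mem_top : m v ∈ (⊤ : Submodule K V)))) (Submodule.topEquiv)
    rw [← h2]
    congr 1
  have htR : LinearMap.trace K (LinearMap.range c) (m.restrict hmr) = 0 := by
    have h := htr (Polynomial.X - Polynomial.C x)
    have hr : (Polynomial.aeval a (Polynomial.X - Polynomial.C x) : Module.End K V) = c := by
      rw [map_sub, Polynomial.aeval_X, Polynomial.aeval_C]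
    unfold TrZ at h
    rw [hr] at h
    exact h hmr
  have hsum : LinearMap.trace K V m = LinearMap.trace K (LinearMap.ker c) (m.restrict hmk) +
      LinearMap.trace K (LinearMap.range c) (m.restrict hmr) := by
    let N : Bool → Submodule K V := fun b => cond b (LinearMap.ker c) (LinearMap.range c)
    have hI : DirectSum.IsInternal N := by
      rw [DirectSum.isInternal_submodule_iff_isCompl N (i := true) (j := false) (by decide)]
      · exact hcompl
      · ext b
        cases b <;> simp
    have hf : ∀ b, Set.MapsTo m (N b) (N b) := by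
      intro b
      cases b
      · exact hmr
      · exact hmk
    rw [LinearMap.trace_eq_sum_trace_restrict hI hf]
    rw [Fintype.sum_bool]
    rfl
  have htK : LinearMap.trace K (LinearMap.ker c) (m.restrict hmk) = 0 := by
    rw [ht0, htR, add_zero] at hsum
    exact hsum.symm
  have hK0 := smp_line hk1 _ htK
  have hm0 : ∀ v ∈ LinearMap.ker c, m v = 0 := by
    intro v hv
    have := congrArg (fun g : Module.End K (LinearMap.ker c) => ((g ⟨v, hv⟩ : LinearMap.ker c) : V))
      hK0
    simpa using this
  refine ⟨?_, ?_⟩
  · intro v hv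
    apply hm0
    rw [LinearMap.mem_ker, hcv, hv, sub_self]
  · intro η hη
    have hηr : ∀ v ∈ LinearMap.range c, η v = 0 := by
      rintro v ⟨u, rfl⟩
      rw [hcv, map_sub, map_smul]
      have := congrArg (fun g : V →ₗ[K] K => g u) hη
      simp only [LinearMap.comp_apply, LinearMap.smul_apply] at this
      rw [this, sub_self]
    apply LinearMap.ext
    intro v
    have hv : v ∈ LinearMap.ker c ⊔ LinearMap.range c := by
      rw [hcompl.sup_eq_top]; exact Submodule.mem_top
    obtain ⟨y, hy, z, hz, rfl⟩ := Submodule.mem_sup.1 hv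
    simp only [LinearMap.comp_apply, LinearMap.zero_apply, map_add]
    rw [hm0 y hy, map_zero, zero_add, hηr _ (hmr z hz), add_zero]

end Pool.Agent.MP_a57f33_nt.RG
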