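import Pool.Agent.Lib.MP_a57f33_nt.RG.Stm

/-!
# Project RG, piece [stp]: the transfer rule for the local factors
-/

set_option autoImplicit false

namespace Pool.Agent.MP_a57f33_nt.RG

open Pool.Agent.MP_a57f33_nt

/-- Lift through an injective map. -/
private theorem stp_lift {K A B C : Type} [Field K] [AddCommGroup A] [Module K A] [AddCommGroup B]
    [Module K B] [AddCommGroup C] [Module K C] (j : B →ₗ[K] C) (hj : Function.Injective j)
    (h : A →ₗ[K] C) (hh : ∀ x, h x ∈ LinearMap.range j) : ∃ c : A →ₗ[K] B, ∀ x, j (c x) = h x := by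
  refine ⟨(LinearEquiv.ofInjective j hj).symm.toLinearMap ∘ₗ h.codRestrict (LinearMap.range j) hh,
    fun x => ?_⟩
  have h1 := (LinearEquiv.ofInjective j hj).apply_symm_apply (h.codRestrict (LinearMap.range j) hh x)
  have h2 := congrArg Subtype.val h1
  rw [LinearEquiv.ofInjective_apply] at h2
  exact h2

/-- Descend along a surjective map. -/
private theorem stp_desc {K A B C : Type} [Field K] [AddCommGroup A] [Module K A] [AddCommGroup B]
    [Module K B] [AddCommGroup C] [Module K C] (α : A →ₗ[K] B) (hα : Function.Surjective α)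
    (h : A →ₗ[K] C) (hh : ∀ x, α x = 0 → h x = 0) : ∃ m : B →ₗ[K] C, ∀ x, m (α x) = h x := by
  obtain ⟨s, hs⟩ := LinearMap.exists_rightInverse_of_surjective α (LinearMap.range_eq_top.2 hα)
  refine ⟨h ∘ₗ s, fun x => ?_⟩
  have h1 : α (s (α x) - x) = 0 := by
    rw [map_sub]
    have := LinearMap.congr_fun hs (α x)
    rw [LinearMap.comp_apply, LinearMap.id_apply] at this
    rw [this, sub_self]
  have h2 := hh _ h1
  rw [map_sub, sub_eq_zero] at h2
  exact h2

private theorem stp_tr {K V : Type} [Field K] [AddCommGroup V] [Module K V]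
    (a m : Module.End K V) (h : Cnd a m) : LinearMap.trace K V m = 0 := by
  have h1 := h.2 1
  have hr : LinearMap.range (Polynomial.aeval a (1 : Polynomial K)) = ⊤ := by
    rw [map_one]
    exact LinearMap.range_id
  rw [hr] at h1
  have h2 := h1 (fun x _ => Submodule.mem_top)
  have h3 := LinearMap.trace_conj' (m.restrict (fun x (_ : x ∈ (⊤ : Submodule K V)) =>
    (Submodule.mem_top : m x ∈ (⊤ : Submodule K V)))) (Submodule.topEquiv (R := K) (M := V))
  rw [h2] at h3
  rw [← h3]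
  congr 1

private theorem stp_smul {K V : Type} [Field K] [AddCommGroup V] [Module K V] (x : K) :
    algebraMap K (Module.End K V) x = x • LinearMap.id := Algebra.algebraMap_eq_smul_one x

private theorem stp_unshift (h_shf : S_shf) {K V : Type} [Field K] [AddCommGroup V] [Module K V]
    [FiniteDimensional K V] (a b m : Module.End K V) (x : K) (hab : a = b + x • LinearMap.id)
    (h : Cnd a m) : Cnd b m := by
  have h1 := h_shf K V a m (-x) h
  have e : a + algebraMap K (Module.End K V) (-x) = b := by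
    rw [hab, stp_smul, neg_smul]
    abel
  rwa [e] at h1

theorem p_stp (h_inv : S_inv) (h_trg : S_trg) (h_fac : S_fac) (h_shf : S_shf) (h_im1 : S_im1)
    (h_im2 : S_im2) : S_stp := by
  intro K V U0 U1 W _ _ _ _ _ _ _ _ _ _ _ _ _ _ k N L hP hT
  obtain ⟨n0, n1, n2, hn0, hn1, hn2, hphi0, hphi1⟩ := hT
  set e : Module.End K (U0 × U1) := LinearMap.inl K U0 U1 ∘ₗ LinearMap.fst K U0 U1 with he
  set f : Module.End K (U0 × U1) := LinearMap.inr K U0 U1 ∘ₗ LinearMap.snd K U0 U1 with hf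
  set α : (U0 × U1) →ₗ[K] V := L.p0.coprod L.p1 with hα
  set β : V →ₗ[K] (U0 × U1) := L.r0.prod L.r1 with hβ
  set M : Module.End K (U0 × U1) := β ∘ₗ α with hM
  have hef : e + f = 1 := by
    ext v <;> simp [he, hf]
  have hefv : ∀ v, e v + f v = v := fun v => LinearMap.congr_fun hef v
  have hef0 : e * f = 0 := by
    ext v <;> simp [he, hf]
  have hfe0 : f * e = 0 := by
    ext v <;> simp [he, hf]
  set g : Module.End K (U0 × U1) := G k N e f M with hg
  have hal : L.al ∘ₗ L.be = M + L.x • LinearMap.id := L.eq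
  have hgx : G k N e f (L.al ∘ₗ L.be) = g := by
    rw [hal, ← stp_smul]
    exact h_inv K (Module.End K (U0 × U1)) k N hP.cyc hP.dbl e f M L.x hef hef0 hfe0
  -- the maps `c0`, `c1`
  have hc0 : ∃ c0 : Module.End K U0, ∀ u, L.be (c0 u, 0) = n0 (L.be (u, 0)) := by
    refine stp_lift (L.be ∘ₗ LinearMap.inl K U0 U1) L.hj0 (n0 ∘ₗ L.be ∘ₗ LinearMap.inl K U0 U1) ?_
    intro u
    obtain ⟨w, hw⟩ := L.hs0 u
    refine ⟨(L.al (n0 w)).1, ?_⟩
    have h1 := LinearMap.congr_fun hn0.1 w
    rw [Module.End.mul_apply, Module.End.mul_apply] at h1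
    rw [← hw]
    exact h1.symm
  have hc1 : ∃ c1 : Module.End K U1, ∀ u, L.be (0, c1 u) = n1 (L.be (0, u)) := by
    refine stp_lift (L.be ∘ₗ LinearMap.inr K U0 U1) L.hj1 (n1 ∘ₗ L.be ∘ₗ LinearMap.inr K U0 U1) ?_
    intro u
    obtain ⟨w, hw⟩ := L.hs1 u
    refine ⟨(L.al (n1 w)).2, ?_⟩
    have h1 := LinearMap.congr_fun hn1.1 w
    rw [Module.End.mul_apply, Module.End.mul_apply] at h1
    rw [← hw]
    exact h1.symm
  obtain ⟨c0, hc0⟩ := hc0
  obtain ⟨c1, hc1⟩ := hc1
  obtain ⟨hcn0, hcs0⟩ := h_im1 K W U0 (L.be ∘ₗ LinearMap.inl K U0 U1)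
    (LinearMap.fst K U0 U1 ∘ₗ L.al) n0 c0 L.hj0 L.hs0
    (LinearMap.ext fun u => (hc0 u).symm) hn0
  obtain ⟨hcn1, hcs1⟩ := h_im1 K W U1 (L.be ∘ₗ LinearMap.inr K U0 U1)
    (LinearMap.snd K U0 U1 ∘ₗ L.al) n1 c1 L.hj1 L.hs1
    (LinearMap.ext fun u => (hc1 u).symm) hn1
  have hcs0' : ∀ w, c0 (L.al w).1 = (L.al (n0 w)).1 := fun w => LinearMap.congr_fun hcs0 w
  have hcs1' : ∀ w, c1 (L.al w).2 = (L.al (n1 w)).2 := fun w => LinearMap.congr_fun hcs1 w
  have hcn0' : Cnd (L.r0 ∘ₗ L.p0) c0 := by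
    refine stp_unshift h_shf _ _ c0 L.x ?_ hcn0
    ext u
    have h1 := LinearMap.congr_fun hal (u, (0 : U1))
    have h2 := congrArg Prod.fst h1
    simpa [hM, hα, hβ] using h2
  have hcn1' : Cnd (L.r1 ∘ₗ L.p1) c1 := by
    refine stp_unshift h_shf _ _ c1 L.x ?_ hcn1
    ext u
    have h1 := LinearMap.congr_fun hal ((0 : U0), u)
    have h2 := congrArg Prod.snd h1
    simpa [hM, hα, hβ] using h2
  set c : Module.End K (U0 × U1) := c0.prodMap c1 with hc
  -- the factorisation on `W`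
  have hb0 : L.be ∘ₗ e ∘ₗ L.al = L.b0 := rfl
  have hb1 : L.be ∘ₗ f ∘ₗ L.al = L.b1 := rfl
  obtain ⟨hf1, hf2⟩ := h_fac K W (U0 × U1) k N hP.cyc L.be L.al e f
  rw [hb0, hb1, hphi0, hphi1, hgx] at hf1 hf2
  set h : Module.End K (U0 × U1) := c - g with hh
  have hbe : ∀ v, L.be (h v) = n2 (L.be v) := by
    intro v
    have h1 := LinearMap.congr_fun hf1 v
    simp only [LinearMap.add_apply, LinearMap.comp_apply, LinearMap.sub_apply] at h1
    have h2 : n0 (L.be (e v)) = L.be (e (c v)) := (hc0 v.1).symm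
    have h3 : n1 (L.be (f v)) = L.be (f (c v)) := (hc1 v.2).symm
    have h4 : n2 (L.be (e v)) + n2 (L.be (f v)) = n2 (L.be v) := by
      rw [← map_add, ← map_add, hefv]
    have h5 : L.be (e (c v)) + L.be (f (c v)) = L.be (c v) := by
      rw [← map_add, hefv]
    rw [hh, LinearMap.sub_apply, map_sub, ← h1, h2, h3, ← h4, ← h5]
    abel
  have hal2 : ∀ w, h (L.al w) = L.al (n2 w) := by
    intro w
    have h1 := LinearMap.congr_fun hf2 w
    simp only [LinearMap.add_apply, LinearMap.comp_apply, LinearMap.sub_apply, map_sub] at h1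
    have h2 : e (L.al (n0 w)) = c (e (L.al w)) := by
      have : c (e (L.al w)) = (c0 (L.al w).1, c1 0) := rfl
      rw [this, hcs0', map_zero]
      rfl
    have h3 : f (L.al (n1 w)) = c (f (L.al w)) := by
      have : c (f (L.al w)) = (c0 0, c1 (L.al w).2) := rfl
      rw [this, hcs1', map_zero]
      rfl
    have h4 : c (e (L.al w)) + c (f (L.al w)) = c (L.al w) := by rw [← map_add, hefv]
    have h5 : e (L.al (n2 w)) + f (L.al (n2 w)) = L.al (n2 w) := hefv _
    rw [h2, h3] at h1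
    calc h (L.al w) = c (L.al w) - g (L.al w) := by rw [hh, LinearMap.sub_apply]
      _ = (c (e (L.al w)) + c (f (L.al w))) - (c (e (L.al w)) - e (L.al (n2 w)) +
          (c (f (L.al w)) - f (L.al (n2 w)))) := by rw [h4, h1]
      _ = e (L.al (n2 w)) + f (L.al (n2 w)) := by abel
      _ = L.al (n2 w) := h5
  have hMv : ∀ v, L.al (L.be v) = M v + L.x • v := fun v => LinearMap.congr_fun hal v
  have hcomm : ∀ v, h (M v) = M (h v) := by
    intro v
    have h1 : h (L.al (L.be v)) = L.al (L.be (h v)) := by rw [hal2, hbe]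
    rw [hMv, hMv, map_add, map_smul] at h1
    exact add_right_cancel h1
  have hβi : Function.Injective β := L.hr
  have hαs : Function.Surjective α := L.hp
  -- the map `m2`
  obtain ⟨m2, hm2⟩ : ∃ m2 : Module.End K V, ∀ v, m2 (α v) = α (h v) := by
    refine stp_desc α hαs (α ∘ₗ h) ?_
    intro v hv
    rw [LinearMap.comp_apply]
    apply hβi
    have h1 : β (α (h v)) = h (β (α v)) := (hcomm v).symm
    rw [h1, hv, map_zero, map_zero]
  have hβm2 : ∀ v, β (m2 v) = h (β v) := by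
    intro v
    obtain ⟨u, rfl⟩ := hαs v
    rw [hm2]
    exact (hcomm u).symm
  have ha0 : α ∘ₗ e ∘ₗ β = L.a0 := by
    ext v
    simp [hα, hβ, he, Lk.a0]
  have ha1 : α ∘ₗ f ∘ₗ β = L.a1 := by
    ext v
    simp [hα, hβ, hf, Lk.a1]
  obtain ⟨hF1, hF2⟩ := h_fac K V (U0 × U1) k N hP.cyc α β e f
  rw [ha0, ha1] at hF1 hF2
  set P0 : Module.End K V := phi k N false L.a0 L.a1 with hP0
  set P1 : Module.End K V := phi k N true L.a0 L.a1 with hP1
  have hgc : ∀ v, g v + h v = c v := by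
    intro v
    rw [hh, LinearMap.sub_apply]
    abel
  have hA : ∀ v, (P0 + m2) (α (e v)) + (P1 + m2) (α (f v)) = α (c v) := by
    intro v
    have h1 := LinearMap.congr_fun hF1 v
    simp only [LinearMap.add_apply, LinearMap.comp_apply] at h1
    have h2 : m2 (α (e v)) + m2 (α (f v)) = α (h v) := by
      rw [← map_add, ← map_add, hefv, hm2]
    rw [← hgc, map_add, ← h2, LinearMap.add_apply, LinearMap.add_apply]
    have h3 : α (g v) = P0 (α (e v)) + P1 (α (f v)) := h1.symm
    rw [h3]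
    abel
  have hB : ∀ v, e (β ((P0 + m2) v)) + f (β ((P1 + m2) v)) = c (β v) := by
    intro v
    have h1 := LinearMap.congr_fun hF2 v
    simp only [LinearMap.add_apply, LinearMap.comp_apply] at h1
    have h2 : e (β (m2 v)) + f (β (m2 v)) = h (β v) := by
      rw [hefv, hβm2]
    have h3 : g (β v) = e (β (P0 v)) + f (β (P1 v)) := h1.symm
    rw [← hgc, h3, ← h2, LinearMap.add_apply, LinearMap.add_apply, map_add, map_add, map_add,
      map_add]
    abel
  have hm0p : ∀ u, (P0 + m2) (L.p0 u) = L.p0 (c0 u) := by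
    intro u
    have h1 := hA (u, 0)
    simpa [he, hf, hα, hc] using h1
  have hm1p : ∀ u, (P1 + m2) (L.p1 u) = L.p1 (c1 u) := by
    intro u
    have h1 := hA (0, u)
    simpa [he, hf, hα, hc] using h1
  have hr0m : ∀ v, c0 (L.r0 v) = L.r0 ((P0 + m2) v) := by
    intro v
    have h1 := congrArg Prod.fst (hB v)
    simpa [he, hf, hβ, hc] using h1.symm
  have hr1m : ∀ v, c1 (L.r1 v) = L.r1 ((P1 + m2) v) := by
    intro v
    have h1 := congrArg Prod.snd (hB v)
    simpa [he, hf, hβ, hc] using h1.symm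
  -- traces
  have htc : LinearMap.trace K (U0 × U1) c = 0 := by
    rw [hc, LinearMap.trace_prodMap', stp_tr _ _ hcn0', stp_tr _ _ hcn1', add_zero]
  have htg : LinearMap.trace K (U0 × U1) g = 0 :=
    h_trg K (Module.End K (U0 × U1)) k N hP e f M hef hef0 hfe0 (LinearMap.trace K (U0 × U1))
      (fun x y => LinearMap.trace_mul_comm K x y)
  have hth : LinearMap.trace K (U0 × U1) h = 0 := by
    rw [hh, map_sub, htc, htg, sub_zero]
  have hsum : L.be ∘ₗ L.al = L.b0 + L.b1 := by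
    ext w
    rw [LinearMap.add_apply, ← hb0, ← hb1]
    simp only [LinearMap.comp_apply]
    rw [← map_add, hefv]
  have hCx : Cnd (L.al ∘ₗ L.be) h := by
    refine h_im2 K (U0 × U1) W L.al L.be h n2 L.hal L.hbe ?_ ?_ hth ?_
    · exact LinearMap.ext fun w => hal2 w
    · exact LinearMap.ext fun v => (hbe v).symm
    · rw [hsum]
      exact hn2
  have hCM : Cnd M h := stp_unshift h_shf _ _ h L.x hal hCx
  have hCm2 : Cnd (α ∘ₗ β) m2 := by
    refine (h_im1 K (U0 × U1) V β α h m2 hβi hαs ?_ hCM).1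
    exact LinearMap.ext fun v => (hβm2 v).symm
  have htm2 : LinearMap.trace K V m2 = 0 := stp_tr _ _ hCm2
  have hsumV : α ∘ₗ β = L.a0 + L.a1 := by
    rw [← ha0, ← ha1]
    ext v
    rw [LinearMap.add_apply]
    simp only [LinearMap.comp_apply]
    rw [← map_add, hefv]
  have htr : ∀ i : Bool, LinearMap.trace K V (phi k N i L.a0 L.a1) = 0 := fun i =>
    hP.tr (Module.End K V) (LinearMap.trace K V) (fun x y => LinearMap.trace_mul_comm K x y) i
      L.a0 L.a1
  refine ⟨P0 + m2, P1 + m2, m2, ?_, ?_, ?_, ?_, ?_⟩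
  · refine h_im2 K V U0 L.p0 L.r0 (P0 + m2) c0 L.hp0 L.hr0 ?_ ?_ ?_ hcn0'
    · exact LinearMap.ext fun u => hm0p u
    · exact LinearMap.ext fun v => hr0m v
    · rw [map_add, htm2, hP0, htr, add_zero]
  · refine h_im2 K V U1 L.p1 L.r1 (P1 + m2) c1 L.hp1 L.hr1 ?_ ?_ ?_ hcn1'
    · exact LinearMap.ext fun u => hm1p u
    · exact LinearMap.ext fun v => hr1m v
    · rw [map_add, htm2, hP1, htr, add_zero]
  · rw [← hsumV]
    exact hCm2
  · rw [add_sub_cancel_right]
  · rw [add_sub_cancel_right]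

end Pool.Agent.MP_a57f33_nt.RG
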