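import Pool.Agent.Lib.MP_a57f33_nt.RG.Stm3

/-!
# Project RG, piece `swy`: sums over words ending with `x_1`
-/

namespace Pool.Agent.MP_a57f33_nt.RG

open Pool.Agent.MP_a57f33_nt

theorem swy_aux {M : Type} [AddCommMonoid M] : ∀ (n : ℕ) (F : List Bool → M),
    (∀ w : List Bool, F (w ++ [false]) = 0) →
    BZ.SW (n + 1) F = ∑ j : Fin (n + 1),
      BZ.SW (n - (j : ℕ)) (fun w => F (List.replicate (j : ℕ) false ++ true :: w)) := by
  intro n
  induction n with
  | zero =>
    intro F hF
    have h0 : F [false] = 0 := hF []
    rw [Fin.sum_univ_one]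
    show F [false] + F [true] = F [true]
    rw [h0, zero_add]
  | succ n ih =>
    intro F hF
    rw [Fin.sum_univ_succ]
    show BZ.SW (n + 1) (fun w => F (false :: w)) + BZ.SW (n + 1) (fun w => F (true :: w)) = _
    rw [ih (fun w => F (false :: w)) (fun w => hF (false :: w)), add_comm]
    congr 1
    apply Finset.sum_congr rfl
    intro j _
    rw [Fin.val_succ, Nat.add_sub_add_right]
    rfl

theorem p_swy : S_swy := by
  intro M _ N
  induction N using Nat.strong_induction_on with
  | _ N ih =>
    intro F hF
    cases N with
    | zero =>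
      rw [SY]
      rfl
    | succ n =>
      rw [SY, swy_aux n F hF]
      apply Finset.sum_congr rfl
      intro j _
      rw [ih (n - (j : ℕ)) (by omega) (fun w => F (List.replicate (j : ℕ) false ++ true :: w))
        (fun w => by
          show F (List.replicate (j : ℕ) false ++ true :: (w ++ [false])) = 0
          rw [← List.cons_append, ← List.append_assoc]
          exact hF _)]
      rfl

end Pool.Agent.MP_a57f33_nt.RG
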