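import Pool.Agent.Lib.MP_a57f33_nt.RG.Stm
import Pool.Agent.Lib.MP_a57f33_nt.RT.Fin

/-!
# Project RG (MP_a57f33_nt): the torsor theorem for solutions with the same depth one part
-/

set_option autoImplicit false

namespace Pool.Agent.MP_a57f33_nt.RG

open Pool.Agent.MP_a57f33_nt TensorProduct

private theorem trd_two {k : Type} [CommRing k] [Algebra ℚ k] {x : k} (h : x + x = 0) :
    x = 0 := by
  have h1 : (2 : ℚ)⁻¹ • (x + x) = x := by
    rw [← two_smul ℚ x, smul_smul]
    norm_num
  rw [← h1, h, smul_zero]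

private theorem trd_same {k : Type} [CommRing k] [Algebra ℚ k] {γ : ℕ → k} {Z : List Bool → k}
    (h : Cyc.RegDS γ Z) (a : Bool) (ha : Z [a] = 0) : Z [a, a] = 0 := by
  have h1 := h.shuffle_rel [a] [a]
  simp only [Cyc.shuffle, List.map_cons, List.map_nil, List.cons_append, List.nil_append,
    List.sum_cons, List.sum_nil, ha, mul_zero, add_zero] at h1
  exact trd_two h1

private theorem trd_swap {k : Type} [CommRing k] [Algebra ℚ k] {γ : ℕ → k} {Z : List Bool → k}
    (h : Cyc.RegDS γ Z) : Z [true, false] = -Z [false, true] := by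
  have h1 := h.shuffle_rel [true] [false]
  simp only [Cyc.shuffle, List.map_cons, List.map_nil, List.cons_append, List.nil_append,
    List.sum_cons, List.sum_nil, h.x0, mul_zero, add_zero] at h1
  exact eq_neg_of_add_eq_zero_left h1

/-- A flow without depth one part does not change the values at the words `x₀^i x₁`. -/
private theorem trd_flow {k : Type} [CommRing k] [Algebra ℚ k] (n : ℕ) (φ : QX)
    (T : Module.End ℚ QX) (Z : List Bool → k) (c : k) (hφ : φ ∈ dm0) (hφn : IsHom n φ)
    (h0 : coeff φ (List.replicate (n - 1) false ++ [true]) = 0)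
    (hT : RT.IsAdj (RT.actL φ) T) (i : ℕ) :
    (RT.expP List.length T Z (List.replicate i false ++ [true])).eval c =
      Z (List.replicate i false ++ [true]) := by
  have hLie : φ ∈ LieX := hφ.1
  have hf : coeff φ [false] = 0 := hφ.2.1
  have h1 := (RT.p_adx n φ T hφn hT).2.2 hLie hf i
  have h2 : coeff φ (List.replicate i false ++ [true]) = 0 := by
    by_cases hi : i + 1 = n
    · subst hi
      simpa using h0
    · apply hφn
      simpa using hi
  rw [h2, zero_smul] at h1
  unfold RT.expP
  rw [Polynomial.eval_finset_sum, Finset.sum_eq_single 0]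
  · rw [Polynomial.eval_monomial, pow_zero, pow_zero, mul_one, Nat.factorial_zero, Nat.cast_one,
      inv_one, one_smul, Module.End.one_apply, RT.pair_word]
  · intro m _ hm
    obtain ⟨m, rfl⟩ := Nat.exists_eq_succ_of_ne_zero hm
    rw [pow_succ, Module.End.mul_apply, h1, map_zero, map_zero, smul_zero,
      Polynomial.eval_monomial, zero_mul]
  · intro h
    exact absurd (Finset.mem_range.2 (Nat.succ_pos _)) h

private theorem trd_step {k : Type} [CommRing k] [Algebra ℚ k] (P : (List Bool → k) → Prop)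
    (hP : InvtD P) (γ γ' : ℕ → k) (Z Z' : List Bool → k) (n : ℕ) (hn : 3 ≤ n)
    (hZ : Cyc.RegDS γ Z) (hZ' : Cyc.RegDS γ' Z')
    (hd : ∀ j : ℕ, Z (List.replicate j false ++ [true]) = Z' (List.replicate j false ++ [true]))
    (hlt : ∀ w : List Bool, w.length < n → Z w = Z' w) (hPZ : P Z') :
    ∃ (γ'' : ℕ → k) (Z'' : List Bool → k), Cyc.RegDS γ'' Z'' ∧ P Z'' ∧
      (∀ j : ℕ, Z (List.replicate j false ++ [true]) = Z'' (List.replicate j false ++ [true])) ∧
      ∀ w : List Bool, w.length < n + 1 → Z w = Z'' w := by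
  classical
  obtain ⟨r, e, L, hL⟩ := RT.p_dec (k := k) n (fun w => Z w - Z' w)
  choose φ hφ hφn hφc using fun j : Fin r => RT.dif γ γ' Z Z' n hn hZ hZ' hlt (L j)
  have hφ0 : ∀ j : Fin r, coeff (φ j) (List.replicate (n - 1) false ++ [true]) = 0 := by
    intro j
    rw [hφc j _ (by simp only [List.length_append, List.length_replicate, List.length_singleton]
                    omega), hd, sub_self, map_zero]
  have hT : ∀ j : Fin r, ∃ T : Module.End ℚ QX,
      RT.IsAdj (RT.actL (φ j)) T ∧ RT.Lowers List.length n T := by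
    intro j
    refine RT.p_adj (X := Bool) List.length (fun m => List.finite_length_eq Bool m) n
      (RT.actL (φ j)) ?_
    intro a w hw
    by_contra hne
    apply hw
    have h1 : IsHom (n + a.length) (RT.actL (φ j) (word a)) := by
      have e1 : RT.actL (φ j) (word a) = φ j * word a + der (φ j) (word a) := by
        simp [RT.actL, derL_apply]
      rw [e1]
      exact ((hφn j).mul (isHom_word a)).add (isHom_der (hφn j) (isHom_word a))
    exact h1 w (by omega)
  choose T hTadj hTlow using hT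
  have key : ∀ s : Finset (Fin r), ∃ (γ'' : ℕ → k) (Z'' : List Bool → k), Cyc.RegDS γ'' Z'' ∧
      P Z'' ∧
      (∀ j : ℕ, Z'' (List.replicate j false ++ [true]) = Z' (List.replicate j false ++ [true])) ∧
      (∀ w : List Bool, w.length < n → Z'' w = Z' w) ∧
      ∀ w : List Bool, w.length = n → Z'' w = Z' w + ∑ j ∈ s, coeff (φ j) w • e j := by
    intro s
    induction s using Finset.induction_on with
    | empty => exact ⟨γ', Z', hZ', hPZ, fun _ => rfl, fun _ _ => rfl, fun _ _ => by simp⟩
    | insert j s hj ih =>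
      obtain ⟨γ1, Z1, h1, h2, h2', h3, h4⟩ := ih
      have h5 := RT.sol γ1 Z1 n (φ j) (T j) h1 (hφ j) (hφn j) hn (hTadj j)
      have h6 := RT.p_map (Polynomial.evalRingHom (e j)) _ _ h5
      have h7 := RT.p_one RT.p_expc n (φ j) (T j) Z1 (by omega) (hTlow j) (hTadj j)
      refine ⟨_, _, h6, ?_, ?_, ?_, ?_⟩
      · exact hP γ1 Z1 (φ j) n (T j) (e j) h1 (hφ j) (hφn j) hn (hφ0 j) (hTadj j) h2
      · intro i
        simp only [Polynomial.coe_evalRingHom]
        rw [trd_flow n (φ j) (T j) Z1 (e j) (hφ j) (hφn j) (hφ0 j) (hTadj j) i, h2' i]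
      · intro w hw
        simp only [Polynomial.coe_evalRingHom]
        rw [h7.1 w hw, Polynomial.eval_C, h3 w hw]
      · intro w hw
        simp only [Polynomial.coe_evalRingHom]
        rw [h7.2 w hw, Polynomial.eval_add, Polynomial.eval_C, Polynomial.eval_monomial, h4 w hw,
          h1.one, Finset.sum_insert hj, pow_one, smul_mul_assoc, one_mul]
        ring
  obtain ⟨γ'', Z'', h1, h2, h2', h3, h4⟩ := key Finset.univ
  refine ⟨γ'', Z'', h1, h2, fun j => by rw [hd j, h2' j], fun w hw => ?_⟩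
  rcases Nat.lt_succ_iff_lt_or_eq.mp hw with h | h
  · rw [hlt w h, h3 w h]
  · rw [h4 w h]
    have h5 := hL w h
    have h6 : ∑ j, coeff (φ j) w • e j = ∑ j, L j (Z w - Z' w) • e j :=
      Finset.sum_congr rfl fun j _ => by rw [hφc j w h]
    rw [h6]
    rw [← h5]
    ring

/-- The torsor theorem for solutions with the same depth one part. -/
theorem p_trd : S_trd := by
  intro k _ _ P hP γ γ' Z Z' hZ hZ' hd hPZ N
  have h2 : Z [false, true] = Z' [false, true] := hd 1
  have hbase : ∀ w : List Bool, w.length < 3 → Z w = Z' w := by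
    intro w hw
    rcases w with _ | ⟨a, _ | ⟨b, _ | ⟨c, w⟩⟩⟩
    · rw [hZ.one, hZ'.one]
    · cases a
      · rw [hZ.x0, hZ'.x0]
      · rw [hZ.x1, hZ'.x1]
    · cases a <;> cases b
      · rw [trd_same hZ _ hZ.x0, trd_same hZ' _ hZ'.x0]
      · exact h2
      · rw [trd_swap hZ, trd_swap hZ', h2]
      · rw [trd_same hZ _ hZ.x1, trd_same hZ' _ hZ'.x1]
    · simp only [List.length_cons] at hw
      omega
  have hind : ∀ m : ℕ, ∃ (γ'' : ℕ → k) (Z'' : List Bool → k), Cyc.RegDS γ'' Z'' ∧ P Z'' ∧
      (∀ j : ℕ, Z (List.replicate j false ++ [true]) = Z'' (List.replicate j false ++ [true])) ∧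
      ∀ w : List Bool, w.length < m + 3 → Z w = Z'' w := by
    intro m
    induction m with
    | zero => exact ⟨γ', Z', hZ', hPZ, hd, fun w hw => hbase w (by omega)⟩
    | succ m ih =>
      obtain ⟨γ₁, Z₁, h3, h4, h4', h5⟩ := ih
      obtain ⟨γ₂, Z₂, h6, h7, h7', h8⟩ :=
        trd_step P hP γ γ₁ Z Z₁ (m + 3) (by omega) hZ h3 h4' h5 h4
      exact ⟨γ₂, Z₂, h6, h7, h7', fun w hw => h8 w (by omega)⟩
  obtain ⟨γ'', Z'', h3, h4, -, h5⟩ := hind N
  exact ⟨γ'', Z'', h3, h4, fun w hw => h5 w (by omega)⟩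

end Pool.Agent.MP_a57f33_nt.RG
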