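import Pool.Agent.Lib.MP_a57f33_nt.RG.Stm
import Pool.Agent.Lib.MP_a57f33_nt.BZ.P_cnv

set_option autoImplicit false

/-!
# Project RG, piece [trg]: the trace of `G` is zero
-/

namespace Pool.Agent.MP_a57f33_nt.RG

open Pool.Agent.MP_a57f33_nt

section words

variable {M : Type} [AddCommMonoid M]

private theorem trg_pos_congr : ∀ (w : List Bool) {g g' : List Bool → Bool → List Bool → M},
    (∀ u j v, u ++ j :: v = w → g u j v = g' u j v) → BZ.cnv_pos w g = BZ.cnv_pos w g'
  | [], _, _, _ => rfl
  | a :: w, g, g', h => by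
    simp only [BZ.cnv_pos]
    rw [h [] a w rfl, trg_pos_congr w (fun u j v huv => h (a :: u) j v (by rw [← huv]; rfl))]

private theorem trg_SW_add : ∀ (n : ℕ) (f g : List Bool → M),
    BZ.SW n f + BZ.SW n g = BZ.SW n (fun w => f w + g w)
  | 0, _, _ => rfl
  | n + 1, f, g => by
    simp only [BZ.SW]
    rw [← trg_SW_add n (fun w => f (false :: w)) (fun w => g (false :: w)),
      ← trg_SW_add n (fun w => f (true :: w)) (fun w => g (true :: w))]
    exact add_add_add_comm _ _ _ _

private theorem trg_SW_zero : ∀ n : ℕ, BZ.SW n (fun _ : List Bool => (0 : M)) = 0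
  | 0 => rfl
  | n + 1 => by
    simp only [BZ.SW]
    rw [trg_SW_zero n, add_zero]

end words

private theorem trg_dbl {K : Type} [CommRing K] : ∀ (w : List Bool) (f F : List Bool → K),
    dbl w f * F w = BZ.cnv_pos w (fun u j v => f (u ++ j :: j :: v) * F (u ++ j :: v))
  | [], f, F => by simp [BZ.cnv_pos, dbl]
  | a :: w, f, F => by
    have ih := trg_dbl w (fun t => f (a :: t)) (fun t => F (a :: t))
    simp only [BZ.cnv_pos, dbl, add_mul, List.nil_append, List.cons_append]
    rw [ih]

private theorem trg_cyc {K : Type} (k : List Bool → K) (N : ℕ)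
    (hk : ∀ (a : Bool) (w : List Bool), w.length = N → k (w ++ [a]) = k (a :: w)) :
    ∀ (u v : List Bool), u.length + v.length = N + 1 → k (u ++ v) = k (v ++ u)
  | [], v, _ => by simp
  | a :: u, v, h => by
    rw [List.length_cons] at h
    have ih := trg_cyc k N hk u (v ++ [a]) (by rw [List.length_append, List.length_singleton]; omega)
    rw [List.cons_append, ← hk a (u ++ v) (by rw [List.length_append]; omega), List.append_assoc, ih]
    simp

theorem p_trg : S_trg := by
  intro K S _ _ _ _ k N hP e f M h1 h2 h3 τ hτ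
  have hee : e * e = e := by
    have : e * (e + f) = e := by rw [h1, mul_one]
    rwa [mul_add, h2, add_zero] at this
  have hff : f * f = f := by
    have : f * (e + f) = f := by rw [h1, mul_one]
    rwa [mul_add, h3, zero_add] at this
  rcases N with _ | n
  · unfold G phi
    simp only [BZ.SW, hP.one, zero_smul, zero_mul, add_zero, map_zero]
  · set F : List Bool → K := fun w => τ (BZ.ev (e * M) (f * M) w) with hF
    have hmap : ∀ (i : Bool) (g : S), τ (phi k (n + 1) i (e * M) (f * M) * g) =
        BZ.SW (n + 1) (fun w => k (i :: w) * τ (BZ.ev (e * M) (f * M) w * g)) := by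
      intro i g
      have h4 := BZ.cnv_SW_map (τ.toAddMonoidHom.comp (AddMonoidHom.mulRight g)) (n + 1)
        (fun w => k (i :: w) • BZ.ev (e * M) (f * M) w)
      have h5 : τ (phi k (n + 1) i (e * M) (f * M) * g) =
          (τ.toAddMonoidHom.comp (AddMonoidHom.mulRight g)) (BZ.SW (n + 1)
            (fun w => k (i :: w) • BZ.ev (e * M) (f * M) w)) := rfl
      rw [h5, h4]
      apply BZ.cnv_SW_congr
      intro w _
      have h6 : (τ.toAddMonoidHom.comp (AddMonoidHom.mulRight g))
          (k (i :: w) • BZ.ev (e * M) (f * M) w) = τ (k (i :: w) • BZ.ev (e * M) (f * M) w * g) := rfl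
      rw [h6, smul_mul_assoc, map_smul, smul_eq_mul]
    have hG : τ (G k (n + 1) e f M) = BZ.SW (n + 1) (fun w => k (false :: w) *
        τ (BZ.ev (e * M) (f * M) w * e) + k (true :: w) * τ (BZ.ev (e * M) (f * M) w * f)) := by
      unfold G
      rw [map_add, hmap, hmap, trg_SW_add]
    -- the function `h`
    set h : List Bool → K := fun w => match w with
      | [] => 0
      | j :: x => k (j :: j :: x) * F (j :: x) with hh
    have hG2 : τ (G k (n + 1) e f M) = BZ.SW (n + 1) h := by
      rw [hG]
      apply BZ.cnv_SW_congr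
      intro w hw
      rcases w with _ | ⟨j, x⟩
      · simp at hw
      · rw [hτ _ e, hτ _ f, BZ.cnv_ev_cons]
        have h7 : h (j :: x) = k (j :: j :: x) * τ (BZ.ev (e * M) (f * M) (j :: x)) := rfl
        rw [h7, BZ.cnv_ev_cons]
        cases j
        · simp only [cond_false]
          have e1 : e * (e * M * BZ.ev (e * M) (f * M) x) = e * M * BZ.ev (e * M) (f * M) x := by
            rw [← mul_assoc, ← mul_assoc, hee]
          have e2 : f * (e * M * BZ.ev (e * M) (f * M) x) = 0 := by
            rw [← mul_assoc, ← mul_assoc, h3, zero_mul, zero_mul]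
          rw [e1, e2, map_zero, mul_zero, add_zero]
        · simp only [cond_true]
          have e1 : f * (f * M * BZ.ev (e * M) (f * M) x) = f * M * BZ.ev (e * M) (f * M) x := by
            rw [← mul_assoc, ← mul_assoc, hff]
          have e2 : e * (f * M * BZ.ev (e * M) (f * M) x) = 0 := by
            rw [← mul_assoc, ← mul_assoc, h2, zero_mul, zero_mul]
          rw [e1, e2, map_zero, mul_zero, zero_add]
    have hcyc := BZ.cnv_cyc_sum (n + 1) h
    have hz : BZ.SW (n + 1) (fun w => BZ.cnv_pos w (fun u j v => h (j :: (v ++ u)))) = 0 := by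
      rw [← trg_SW_zero (M := K) (n + 1)]
      apply BZ.cnv_SW_congr
      intro w hw
      have h8 : BZ.cnv_pos w (fun u j v => h (j :: (v ++ u))) =
          BZ.cnv_pos w (fun u j v => k (u ++ j :: j :: v) * F (u ++ j :: v)) := by
        apply trg_pos_congr
        intro u j v huv
        have hlen : u.length + (v.length + 1) = n + 1 := by
          rw [← hw, ← huv, List.length_append, List.length_cons]
        have e1 : k (u ++ j :: j :: v) = k (j :: j :: (v ++ u)) := by
          rw [trg_cyc k (n + 1) hP.cyc u (j :: j :: v) (by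
            rw [List.length_cons, List.length_cons]; omega)]
          simp
        have e2 : F (u ++ j :: v) = F (j :: (v ++ u)) := by
          have e3 : j :: (v ++ u) = (j :: v) ++ u := rfl
          have e4 : τ (BZ.ev (e * M) (f * M) (u ++ j :: v)) =
              τ (BZ.ev (e * M) (f * M) ((j :: v) ++ u)) := by
            rw [BZ.cnv_ev_append, BZ.cnv_ev_append, hτ]
          rw [e3]
          exact e4
        rw [e1, e2]
      rw [h8, ← trg_dbl w k F, hP.dbl w hw, zero_mul]
    rw [hz] at hcyc
    rw [hG2]
    have h9 : ((n + 1 : ℕ) : K) * BZ.SW (n + 1) h = 0 := by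
      rw [← nsmul_eq_mul, ← hcyc]
    rcases mul_eq_zero.mp h9 with h10 | h10
    · exact absurd h10 (Nat.cast_ne_zero.mpr (Nat.succ_ne_zero n))
    · exact h10

end Pool.Agent.MP_a57f33_nt.RG
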