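import Pool.Agent.Lib.MP_a57f33_nt.RG.Stm

/-!
# Project RG (MP_a57f33_nt), piece [tri]: induction over the algorithm of Katz
-/

namespace Pool.Agent.MP_a57f33_nt.RG

open Pool.Agent.MP_a57f33_nt

private lemma tri_cnd_zero {K V : Type} [Field K] [AddCommGroup V] [Module K V]
    (a : Module.End K V) : Cnd a 0 := by
  refine ⟨by simp, fun q h => ?_⟩
  have : (0 : Module.End K V).restrict h = 0 := by
    ext x
    simp
  rw [this, map_zero]

private lemma tri_scalar {K V : Type} [Field K] [AddCommGroup V] [Module K V]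
    [FiniteDimensional K V] (h : Module.finrank K V ≤ 1) (a : Module.End K V) :
    ∃ x : K, a = 0 + algebraMap K (Module.End K V) x := by
  obtain ⟨v, hv⟩ := finrank_le_one_iff.1 h
  obtain ⟨x, hx⟩ := hv (a v)
  refine ⟨x, ?_⟩
  rw [zero_add]
  refine LinearMap.ext fun w => ?_
  obtain ⟨c, rfl⟩ := hv w
  rw [Module.algebraMap_end_apply, map_smul, ← hx, smul_comm]

private lemma tri_SW_zero {M : Type} [AddCommMonoid M] :
    ∀ (n : ℕ) (f : List Bool → M), (∀ w, f w = 0) → BZ.SW n f = 0
  | 0, f, h => by rw [BZ.SW, h]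
  | n + 1, f, h => by
      rw [BZ.SW, tri_SW_zero n _ (fun w => h _), tri_SW_zero n _ (fun w => h _), add_zero]

private lemma tri_phi_zero {K S : Type} [Field K] [Ring S] [Algebra K S] {k : List Bool → K}
    {N : ℕ} (hP : Pot k N) (i : Bool) : phi k N i (0 : S) 0 = 0 := by
  unfold phi
  cases N with
  | zero =>
      rw [BZ.SW, hP.one i, zero_smul]
  | succ n =>
      have h1 : ∀ (b : Bool) (w : List Bool), BZ.ev (0 : S) 0 (b :: w) = 0 := by
        intro b w
        unfold BZ.ev
        rw [List.map_cons, List.prod_cons]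
        cases b <;> simp
      rw [BZ.SW, tri_SW_zero n _ (fun w => by rw [h1, smul_zero]),
        tri_SW_zero n _ (fun w => by rw [h1, smul_zero]), add_zero]

private lemma tri_shift {K V : Type} [Field K] [AddCommGroup V] [Module K V]
    [FiniteDimensional K V] (h_shf : S_shf) {k : List Bool → K} {N : ℕ} (hP : Pot k N)
    (a b : Module.End K V) (x y : K)
    (h : Tri k N (a + algebraMap K (Module.End K V) x) (b + algebraMap K (Module.End K V) y)) :
    Tri k N a b := by
  obtain ⟨m0, m1, m2, h0, h1, h2, e0, e1⟩ := h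
  refine ⟨m0, m1, m2, ?_, ?_, ?_, ?_, ?_⟩
  · have := h_shf K V _ m0 (-x) h0
    rwa [map_neg, add_neg_cancel_right] at this
  · have := h_shf K V _ m1 (-y) h1
    rwa [map_neg, add_neg_cancel_right] at this
  · have := h_shf K V _ m2 (-(x + y)) h2
    have e : a + algebraMap K (Module.End K V) x + (b + algebraMap K (Module.End K V) y) +
        algebraMap K (Module.End K V) (-(x + y)) = a + b := by
      rw [map_neg, map_add]
      abel
    rwa [e] at this
  · rw [← hP.tw (Module.End K V) false a b x y, e0]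
  · rw [← hP.tw (Module.End K V) true a b x y, e1]

private lemma tri_aux (h_kat : S_kat) (h_stp : S_stp) (h_shf : S_shf) (K : Type) [Field K]
    [IsAlgClosed K] [CharZero K] (k : List Bool → K) (N : ℕ) (hP : Pot k N) :
    ∀ (n : ℕ) (V : Type) [AddCommGroup V] [Module K V] [FiniteDimensional K V]
      (a b : Module.End K V), Module.finrank K V = n → Irr a b →
      Module.finrank K V ^ 2 + 2 ≤ zd (K := K) a + zd (K := K) b + zd (K := K) (a + b) →
      Tri k N a b := by
  intro n
  induction n using Nat.strong_induction_on with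
  | _ n IH =>
    intro V _ _ _ a b hn hI hd
    by_cases h1 : Module.finrank K V ≤ 1
    · obtain ⟨x, rfl⟩ := tri_scalar h1 a
      obtain ⟨y, rfl⟩ := tri_scalar h1 b
      refine ⟨0, 0, 0, tri_cnd_zero _, tri_cnd_zero _, tri_cnd_zero _, ?_, ?_⟩
      · rw [hP.tw (Module.End K V) false 0 0 x y, tri_phi_zero hP, sub_zero]
      · rw [hP.tw (Module.End K V) true 0 0 x y, tri_phi_zero hP, sub_zero]
    · obtain ⟨x0, x1, U0, U1, W, L, e0, e1, hlt, hIb, hdb⟩ :=
        h_kat K V a b hI hd (by omega)
      have hW : Tri k N L.b0 L.b1 := IH (Module.finrank K W) (by omega) W L.b0 L.b1 rfl hIb hdb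
      have hV := h_stp K V U0 U1 W k N L hP hW
      rw [e0, e1] at hV
      exact tri_shift h_shf hP a b x0 x1 hV

theorem p_tri (h_kat : S_kat) (h_stp : S_stp) (h_shf : S_shf) : S_tri := by
  intro K _ _ _ V _ _ _ a b hI hd k N hP
  exact tri_aux h_kat h_stp h_shf K k N hP (Module.finrank K V) V a b rfl hI hd

end Pool.Agent.MP_a57f33_nt.RG
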