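import Pool.Agent.Lib.MP_a57f33_nt.RG.Stm

/-!
# [zd] dimension of the centraliser of a map and of its restriction to the image
-/

namespace Pool.Agent.MP_a57f33_nt.RG

open Pool.Agent.MP_a57f33_nt

private lemma zd_mem {K V : Type} [Field K] [AddCommGroup V] [Module K V]
    (a m : Module.End K V) :
    m ∈ Subalgebra.centralizer K ({a} : Set (Module.End K V)) ↔ ∀ v, a (m v) = m (a v) := by
  rw [Subalgebra.mem_centralizer_iff]
  constructor
  · intro h v
    have h1 := h a (Set.mem_singleton a)
    exact LinearMap.congr_fun h1 v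
  · intro h b hb
    rw [Set.mem_singleton_iff] at hb
    subst hb
    ext v
    exact h v

theorem p_zd : S_zd := by
  intro K V U _ _ _ _ _ _ _ ι ρ hι hρ
  obtain ⟨P, hP⟩ := LinearMap.exists_leftInverse_of_injective ι (LinearMap.ker_eq_bot.2 hι)
  obtain ⟨s, hs⟩ := LinearMap.exists_rightInverse_of_surjective ρ (LinearMap.range_eq_top.2 hρ)
  have hP' : ∀ u, P (ι u) = u := fun u => LinearMap.congr_fun hP u
  have hs' : ∀ u, ρ (s u) = u := fun u => LinearMap.congr_fun hs u
  have A1 : ∀ m ∈ Subalgebra.centralizer K ({ι ∘ₗ ρ} : Set (Module.End K V)),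
      ∀ u, ι (P (m (ι u))) = m (ι u) := by
    intro m hm u
    obtain ⟨v, rfl⟩ := hρ u
    have h1 := (zd_mem _ _).1 hm v
    simp only [LinearMap.comp_apply] at h1
    rw [← h1, hP']
  have A2 : ∀ m ∈ Subalgebra.centralizer K ({ι ∘ₗ ρ} : Set (Module.End K V)),
      ∀ v, P (m (ι (ρ v))) = ρ (m v) := by
    intro m hm v
    have h1 := (zd_mem _ _).1 hm v
    simp only [LinearMap.comp_apply] at h1
    rw [← h1, hP']
  let Φ : Subalgebra.centralizer K ({ι ∘ₗ ρ} : Set (Module.End K V)) →ₗ[K]
      Subalgebra.centralizer K ({ρ ∘ₗ ι} : Set (Module.End K U)) :=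
    { toFun := fun m => ⟨P ∘ₗ m.1 ∘ₗ ι, by
        rw [zd_mem]
        intro u
        simp only [LinearMap.comp_apply]
        rw [A1 m.1 m.2, A2 m.1 m.2]⟩
      map_add' := by
        intro x y
        ext u
        simp
      map_smul' := by
        intro c x
        ext u
        simp }
  have hΦ : ∀ m u, (Φ m).1 u = P (m.1 (ι u)) := fun m u => rfl
  have hsurj : Function.Surjective Φ := by
    intro mU
    have hc := (zd_mem _ _).1 mU.2
    simp only [LinearMap.comp_apply] at hc
    refine ⟨⟨ι ∘ₗ mU.1 ∘ₗ P + s ∘ₗ mU.1 ∘ₗ ρ ∘ₗ (LinearMap.id - ι ∘ₗ P), ?_⟩, ?_⟩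
    · rw [zd_mem]
      intro v
      simp only [LinearMap.comp_apply, LinearMap.add_apply, LinearMap.sub_apply,
        LinearMap.id_apply, map_add, map_sub, hP', hs', sub_self, map_zero, add_zero]
      rw [hc (P v)]
      simp
    · ext u
      rw [hΦ]
      simp [hP']
  let Ψ : ((V ⧸ LinearMap.range ι) →ₗ[K] LinearMap.ker ρ) →ₗ[K]
      Subalgebra.centralizer K ({ι ∘ₗ ρ} : Set (Module.End K V)) :=
    { toFun := fun g => ⟨(LinearMap.ker ρ).subtype ∘ₗ g ∘ₗ (LinearMap.range ι).mkQ, by
        rw [zd_mem]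
        intro v
        simp only [LinearMap.comp_apply, Submodule.subtype_apply, Submodule.mkQ_apply]
        have h1 : ρ (g (Submodule.Quotient.mk v)).1 = 0 := (g (Submodule.Quotient.mk v)).2
        have h2 : (Submodule.Quotient.mk (ι (ρ v)) : V ⧸ LinearMap.range ι) = 0 := by
          rw [Submodule.Quotient.mk_eq_zero]
          exact ⟨ρ v, rfl⟩
        rw [h1, h2]
        simp⟩
      map_add' := by
        intro x y
        ext v
        simp
      map_smul' := by
        intro c x
        ext v
        simp }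
  have hΨ : ∀ g v, (Ψ g).1 v = (g (Submodule.Quotient.mk v)).1 := fun g v => rfl
  have hΨinj : Function.Injective Ψ := by
    intro g g' h
    apply LinearMap.ext
    intro x
    obtain ⟨v, rfl⟩ := Submodule.Quotient.mk_surjective _ x
    apply Subtype.ext
    rw [← hΨ, ← hΨ, h]
  have hker : LinearMap.range Ψ = LinearMap.ker Φ := by
    ext m
    constructor
    · rintro ⟨g, rfl⟩
      rw [LinearMap.mem_ker]
      ext u
      rw [hΦ, hΨ]
      have h2 : (Submodule.Quotient.mk (ι u) : V ⧸ LinearMap.range ι) = 0 := by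
        rw [Submodule.Quotient.mk_eq_zero]
        exact ⟨u, rfl⟩
      rw [h2]
      simp
    · intro hm
      rw [LinearMap.mem_ker] at hm
      have h0 : ∀ u, P (m.1 (ι u)) = 0 := by
        intro u
        rw [← hΦ, hm]
        rfl
      have h1 : ∀ u, m.1 (ι u) = 0 := by
        intro u
        rw [← A1 m.1 m.2 u, h0, map_zero]
      have h2 : ∀ v, ρ (m.1 v) = 0 := by
        intro v
        rw [← A2 m.1 m.2 v, h0]
      refine ⟨(LinearMap.range ι).liftQ (m.1.codRestrict (LinearMap.ker ρ) h2) ?_, ?_⟩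
      · rintro _ ⟨u, rfl⟩
        rw [LinearMap.mem_ker]
        exact Subtype.ext (h1 u)
      · ext v
        rw [hΨ]
        rfl
  have e1 := LinearMap.finrank_range_add_finrank_ker Φ
  rw [LinearMap.range_eq_top.2 hsurj, finrank_top, ← hker, LinearMap.finrank_range_of_inj hΨinj,
    Module.finrank_linearMap] at e1
  have e2 := Submodule.finrank_quotient_add_finrank (LinearMap.range ι)
  rw [LinearMap.finrank_range_of_inj hι] at e2
  have e3 := LinearMap.finrank_range_add_finrank_ker ρ
  rw [LinearMap.range_eq_top.2 hρ, finrank_top] at e3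
  have e4 : Module.finrank K (V ⧸ LinearMap.range ι) = Module.finrank K V - Module.finrank K U := by
    omega
  have e5 : Module.finrank K (LinearMap.ker ρ) = Module.finrank K V - Module.finrank K U := by
    omega
  rw [e4, e5, ← sq] at e1
  exact e1.symm

end Pool.Agent.MP_a57f33_nt.RG
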